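import Pool.Agent.MP_114209_co.H87.Defs

namespace Pool.Agent.MP_114209_co.H79

open Finset

variable {V : Type} [Fintype V] [DecidableEq V]

/-- number of visits of a list to a vertex -/
def cnt (l : List V) (u : V) : ℝ := (l.count u : ℝ)

omit [Fintype V] in
theorem cnt_nonneg (l : List V) (u : V) : 0 ≤ cnt l u := Nat.cast_nonneg _

theorem sum_cnt (l : List V) (φ : V → ℝ) : ∑ u, φ u * cnt l u = (l.map φ).sum := by
  induction l with
  | nil => simp only [cnt, List.nodup_nil, List.count_nil, CharP.cast_eq_zero, mul_zero, sum_const_zero, List.map_nil, List.sum_nil]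
  | cons a l ih =>
    have : ∀ u, φ u * cnt (a :: l) u = φ u * cnt l u + if u = a then φ u else 0 := fun u => by
      unfold cnt
      rw [List.count_cons]
      by_cases h : u = a
      · subst h; simp; ring
      · have : ¬ a = u := fun e => h e.symm
        simp [h, this]
    simp only [this, sum_add_distrib, ih, List.map_cons, List.sum_cons]
    simp only [sum_ite_eq', mem_univ, ↓ reduceIte, add_comm]

omit [Fintype V] [DecidableEq V] in
theorem lsum_nonneg {φ : V → ℝ} (h : ∀ u, 0 ≤ φ u) (l : List V) : 0 ≤ (l.map φ).sum :=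
  List.sum_nonneg fun x hx => by
    obtain ⟨u, -, rfl⟩ := List.mem_map.1 hx
    exact h u

omit [Fintype V] [DecidableEq V] in
theorem lsum_sublist {φ : V → ℝ} (h : ∀ u, 0 ≤ φ u) {l l' : List V} (hl : l'.Sublist l) :
    (l'.map φ).sum ≤ (l.map φ).sum :=
  (hl.map φ).sum_le_sum fun x hx => by
    obtain ⟨u, -, rfl⟩ := List.mem_map.1 hx
    exact h u

omit [Fintype V] [DecidableEq V] in
theorem lsum_mono {φ ψ : V → ℝ} {l : List V} (h : ∀ u ∈ l, φ u ≤ ψ u) :
    (l.map φ).sum ≤ (l.map ψ).sum := List.sum_le_sum h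

omit [Fintype V] [DecidableEq V] in
theorem le_lsum {φ : V → ℝ} (h : ∀ u, 0 ≤ φ u) {l : List V} {a : V} (ha : a ∈ l) :
    φ a ≤ (l.map φ).sum := by
  simpa using lsum_sublist h (List.singleton_sublist.2 ha)

omit [Fintype V] in
/-- walks can be shortened to lists without repetition -/
theorem shortcut {D : V → V → Prop} (r : List V) : ∀ (l : List V) (x : V),
    List.IsChain D (x :: (l ++ r)) → ∃ l' : List V, l'.Sublist l ∧ l'.Nodup ∧
      List.IsChain D (x :: (l' ++ r)) ∧ l'.getLastD x = l.getLastD x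
  | [], x, h => ⟨[], List.Sublist.refl _, List.nodup_nil, h, rfl⟩
  | u :: m, x, h => by
    rw [List.cons_append, List.isChain_cons_cons] at h
    obtain ⟨m', h1, h2, h3, h4⟩ := shortcut r m u h.2
    by_cases hu : u ∈ m'
    · obtain ⟨a, b, rfl⟩ := List.append_of_mem hu
      refine ⟨u :: b, ?_, (List.sublist_append_right a _).nodup h2, ?_, ?_⟩
      · exact (((List.sublist_cons_self u b).trans (List.sublist_append_right a _)).trans
          h1).cons_cons u
      · rw [List.cons_append, List.isChain_cons_cons]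
        refine ⟨h.1, ?_⟩
        rw [List.append_assoc, List.cons_append, List.isChain_cons_split] at h3
        exact h3.2
      · rw [List.getLastD_cons, List.getLastD_cons, ← h4]
        simp [List.getLastD_eq_getLast?, List.getLast?_append, List.getLast?_cons]
    · refine ⟨u :: m', h1.cons_cons u, List.nodup_cons.2 ⟨hu, h2⟩, ?_, ?_⟩
      · rw [List.cons_append, List.isChain_cons_cons]; exact ⟨h.1, h3⟩
      · rw [List.getLastD_cons, List.getLastD_cons, h4]

omit [DecidableEq V] in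
/-- DUAL: projection of the origin on the convex hull of finitely many nonnegative vectors -/
theorem dual {ι : Type} (I : Finset ι) (c : ι → V → ℝ) (hc : ∀ i ∈ I, ∀ u, 0 ≤ c i u) {κ : ℝ}
    (hκ : 0 < κ) :
    (∃ g : ι → ℝ, (∀ i, 0 ≤ g i) ∧ (∀ i, g i ≠ 0 → i ∈ I) ∧ ∑ i ∈ I, g i = 1 ∧
      ∑ u, (∑ i ∈ I, g i * c i u) ^ 2 ≤ κ) ∨
    ∃ ρ : V → ℝ, (∀ u, 0 ≤ ρ u) ∧ ∑ u, ρ u ^ 2 < 1 / κ ∧ ∀ i ∈ I, 1 ≤ ∑ u, ρ u * c i u := by
  classical
  rcases I.eq_empty_or_nonempty with rfl | ⟨i0, hi0⟩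
  · exact Or.inr ⟨0, fun _ => le_rfl, by simpa only [Pi.zero_apply, ne_eq, OfNat.ofNat_ne_zero, not_false_eq_true, zero_pow, sum_const_zero, one_div, inv_pos] using hκ, by simp only [notMem_empty, Pi.zero_apply, zero_mul, sum_const_zero, IsEmpty.forall_iff, implies_true]⟩
  have : Nonempty I := ⟨⟨i0, hi0⟩⟩
  obtain ⟨g, hg, hmin⟩ := (isCompact_stdSimplex ℝ I).exists_isMinOn
    ⟨_, single_mem_stdSimplex ℝ (⟨i0, hi0⟩ : I)⟩
    (f := fun g : I → ℝ => ∑ u, (∑ i : I, g i * c i u) ^ 2) (by fun_prop)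
  set f : V → ℝ := fun u => ∑ i : I, g i * c i u with hf
  set N : ℝ := ∑ u, f u ^ 2 with hN
  by_cases h : N ≤ κ
  · refine Or.inl ⟨fun i => if h : i ∈ I then g ⟨i, h⟩ else 0, fun i => ?_, fun i hi => ?_, ?_, ?_⟩
    · dsimp only
      split_ifs
      · exact hg.1 _
      · exact le_rfl
    · by_contra h'; exact hi (dif_neg h')
    · rw [← sum_coe_sort I, ← hg.2]
      exact sum_congr rfl fun i _ => dif_pos i.2
    · refine le_trans (le_of_eq (sum_congr rfl fun u _ => ?_)) h
      rw [← sum_coe_sort I, hf]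
      congr 1
      exact sum_congr rfl fun i _ => by simp only [dif_pos i.2]
  · push Not at h
    have hN0 : 0 < N := hκ.trans h
    have hf0 : ∀ u, 0 ≤ f u := fun u => sum_nonneg fun i _ => mul_nonneg (hg.1 i) (hc _ i.2 u)
    refine Or.inr ⟨fun u => f u / N, fun u => div_nonneg (hf0 u) hN0.le, ?_, fun i hi => ?_⟩
    · have : ∑ u, (f u / N) ^ 2 = 1 / N := by
        simp only [div_pow]
        rw [← sum_div, ← hN]; field_simp
      rw [this]
      exact one_div_lt_one_div_of_lt hκ h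
    · have e : ∑ u, f u / N * c i u = (∑ u, f u * c i u) / N := by
        rw [sum_div]; exact sum_congr rfl fun u _ => by ring
      rw [e, le_div_iff₀ hN0, one_mul]
      by_contra hlt
      push Not at hlt
      set a : ℝ := N - ∑ u, f u * c i u with ha
      set b : ℝ := ∑ u, (c i u - f u) ^ 2 with hb
      have ha0 : 0 < a := sub_pos.2 hlt
      have hb0 : 0 ≤ b := sum_nonneg fun u _ => sq_nonneg _
      set t : ℝ := min 1 (a / (b + 1)) with ht
      have ht0 : 0 < t := lt_min one_pos (div_pos ha0 (by linarith only [hb0]))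
      have ht1 : t ≤ 1 := min_le_left _ _
      have ht2 : t * (b + 1) ≤ a := (le_div_iff₀ (by linarith only [hb0])).1 (min_le_right _ _)
      have hm := convex_stdSimplex ℝ I hg (single_mem_stdSimplex ℝ (⟨i, hi⟩ : I))
        (sub_nonneg.2 ht1) ht0.le (by ring)
      have h1 : N ≤ _ := hmin hm
      have h2 : ∀ u, ∑ j : I, ((1 - t) • g + t • (Pi.single ⟨i, hi⟩ 1 : I → ℝ)) j * c j u =
          f u + t * (c i u - f u) := fun u => by
        have : ∀ j : I, ((1 - t) • g + t • (Pi.single ⟨i, hi⟩ 1 : I → ℝ)) j * c j u =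
            (1 - t) * (g j * c j u) + if j = ⟨i, hi⟩ then t * c j u else 0 := fun j => by
          simp only [Pi.add_apply, Pi.smul_apply, smul_eq_mul, Pi.single_apply]
          split_ifs <;> ring
        simp only [this, sum_add_distrib, ← mul_sum, sum_ite_eq', mem_univ, if_true]
        rw [hf]; ring
      simp only [h2] at h1
      have h3 : ∑ u, (f u + t * (c i u - f u)) ^ 2 = N - 2 * t * a + t ^ 2 * b := by
        rw [ha, hb, hN, mul_sub, mul_sum, mul_sum, mul_sum, ← sum_sub_distrib, ← sum_sub_distrib,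
          ← sum_add_distrib]
        exact sum_congr rfl fun u _ => by ring
      rw [h3] at h1
      nlinarith only [hlt, ht0, ht2, h1]

omit [DecidableEq V] in
theorem cs (f g : V → ℝ) {a b : ℝ} (ha : 0 ≤ a) (hb : 0 ≤ b) (hf : ∑ u, f u ^ 2 ≤ a ^ 2)
    (hg : ∑ u, g u ^ 2 ≤ b ^ 2) : ∑ u, f u * g u ≤ a * b := by
  refine abs_le_of_sq_le_sq' ((sum_mul_sq_le_sq_mul_sq univ f g).trans ?_) (mul_nonneg ha hb) |>.2
  rw [mul_pow]
  exact mul_le_mul hf hg (sum_nonneg fun _ _ => sq_nonneg _) (sq_nonneg _)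

omit [Fintype V] [DecidableEq V] in
/-- a weighted average is attained from below on the support -/
theorem exists_le_avg {A : Type} (T : Finset A) (w F : A → ℝ) (hw : ∀ a ∈ T, 0 ≤ w a)
    (h0 : 0 < ∑ a ∈ T, w a) {d : ℝ} (h : ∑ a ∈ T, w a * F a ≤ d * ∑ a ∈ T, w a) :
    ∃ a ∈ T, 0 < w a ∧ F a ≤ d := by
  by_contra hc
  push Not at hc
  obtain ⟨a0, ha0, hp⟩ : ∃ a ∈ T, 0 < w a := by
    by_contra h'
    push Not at h'
    exact absurd (sum_nonpos h') (not_le.2 h0)
  rw [mul_sum] at h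
  refine absurd h (not_le.2 (sum_lt_sum (fun a ha => ?_) ⟨a0, ha0, ?_⟩))
  · rcases (hw a ha).eq_or_lt with e | e
    · rw [← e]; simp
    · have := hc a ha e; nlinarith only [e, this]
  · have := hc a0 ha0 hp; nlinarith only [hp, this]

/-- all lists without repetition -/
noncomputable def paths (V : Type) [Fintype V] [DecidableEq V] : Finset (List V) :=
  (univ : Finset {l : List V // l.Nodup}).map (Function.Embedding.subtype _)

@[simp] theorem mem_paths {l : List V} : l ∈ paths V ↔ l.Nodup := by simp only [paths, mem_map, mem_univ, Function.Embedding.subtype_apply, true_and, Subtype.exists, exists_prop, exists_eq_right]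

/-- `x` is `d`-linked to `y` -/
def Link (D : V → V → Prop) (x y : V) (d : ℝ) : Prop :=
  ∀ φ : V → ℝ, (∀ u, 0 ≤ φ u) → ∑ u, φ u ^ 2 ≤ 1 →
    ∃ l : List V, List.IsChain D (x :: (l ++ [y])) ∧ (l.map φ).sum ≤ d

omit [DecidableEq V] in
theorem Link.mono {D : V → V → Prop} {x y : V} {d d' : ℝ} (h : Link D x y d) (hd : d ≤ d') :
    Link D x y d' := fun φ h0 h1 =>
  let ⟨l, a, b⟩ := h φ h0 h1
  ⟨l, a, b.trans hd⟩

/-- a weighted family of walks of small energy gives a link -/
theorem link_of_energy {D : V → V → Prop} {x y : V} {A : Type} (T : Finset A) (w : A → ℝ)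
    (M : A → List V) (hw : ∀ a ∈ T, 0 ≤ w a) {m d : ℝ} (hm0 : 0 < m) (hd : 0 ≤ d)
    (hm : m ≤ ∑ a ∈ T, w a)
    (hM : ∀ a ∈ T, 0 < w a → List.IsChain D (x :: (M a ++ [y])))
    (hE : ∑ u, (∑ a ∈ T, w a * cnt (M a) u) ^ 2 ≤ (d * m) ^ 2) : Link D x y d := by
  intro φ h0 h1
  obtain ⟨a, ha, hp, h⟩ := exists_le_avg T w (fun a => ((M a).map φ).sum) hw (hm0.trans_le hm)
    (d := d) (by
      have := cs φ _ zero_le_one (mul_nonneg hd hm0.le) (by simpa only [one_pow] using h1) hE
      calc _ = ∑ u, φ u * ∑ a ∈ T, w a * cnt (M a) u := by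
            simp only [← sum_cnt, mul_sum]
            rw [sum_comm]
            exact sum_congr rfl fun u _ => sum_congr rfl fun a _ => by ring
        _ ≤ d * m := by linarith
        _ ≤ _ := mul_le_mul_of_nonneg_left hm hd)
  exact ⟨M a, hM a ha hp, h⟩

omit [DecidableEq V] in
/-- COMP -/
theorem comp {D : V → V → Prop} {x y : V} (μ : V → ℝ) {b d₁ d₂ : ℝ} (h0 : ∀ z, 0 ≤ μ z)
    (h1 : ∑ z, μ z = 1) (hb : ∀ z, μ z ≤ b)
    (hL : ∀ z, 0 < μ z → Link D x z d₁ ∧ Link D z y d₂) : Link D x y (d₁ + d₂ + √b) := by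
  intro φ p0 p1
  have hb0 : 0 ≤ b := by
    obtain ⟨z, -, -⟩ := exists_ne_zero_of_sum_ne_zero (h1.trans_ne one_ne_zero)
    exact (h0 z).trans (hb z)
  obtain ⟨z, -, hz, h⟩ := exists_le_avg univ μ φ (fun z _ => h0 z) (by rw [h1]; exact one_pos)
    (d := √b) (by
      rw [h1]
      refine cs μ φ (Real.sqrt_nonneg b) zero_le_one ?_ (by simpa only [one_pow] using p1)
      rw [Real.sq_sqrt hb0]
      calc _ ≤ ∑ z, b * μ z := sum_le_sum fun z _ => by have := h0 z; have := hb z; nlinarith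
        _ = b := by rw [← mul_sum, h1, mul_one])
  obtain ⟨l, a1, a2⟩ := (hL z hz).1 φ p0 p1
  obtain ⟨m, b1, b2⟩ := (hL z hz).2 φ p0 p1
  refine ⟨l ++ z :: m, ?_, ?_⟩
  · rw [List.append_assoc, List.cons_append, List.isChain_cons_split]
    exact ⟨a1, b1⟩
  · simp only [List.map_append, List.map_cons, List.sum_append, List.sum_cons]
    linarith

/-- CHARGE -/
theorem charge {A K : Type} [LinearOrder K] (T : Finset A) (c : A → ℝ) (k : A → K)
    (M : A → List V) (β : A → ℝ) (hc : ∀ a ∈ T, 0 ≤ c a)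
    (h : ∀ a ∈ T, 0 < c a →
      ((M a).map fun u => ∑ b ∈ T with k a ≤ k b, c b * cnt (M b) u).sum ≤ β a) :
    ∑ u, (∑ a ∈ T, c a * cnt (M a) u) ^ 2 ≤ 2 * ∑ a ∈ T, c a * β a := by
  set P : A → A → ℝ := fun a b => ∑ u, c a * cnt (M a) u * (c b * cnt (M b) u) with hP
  have P0 : ∀ a ∈ T, ∀ b ∈ T, 0 ≤ P a b := fun a ha b hb => sum_nonneg fun u _ =>
    mul_nonneg (mul_nonneg (hc a ha) (cnt_nonneg _ _)) (mul_nonneg (hc b hb) (cnt_nonneg _ _))
  have Ps : ∀ a b, P a b = P b a := fun a b => sum_congr rfl fun u _ => mul_comm _ _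
  have e1 : ∑ u, (∑ a ∈ T, c a * cnt (M a) u) ^ 2 = ∑ a ∈ T, ∑ b ∈ T, P a b := by
    simp only [sq, sum_mul_sum, hP]
    rw [sum_comm]
    exact sum_congr rfl fun a _ => sum_comm
  have e2 : ∑ a ∈ T, ∑ b ∈ T, (if k a ≤ k b then P a b else 0) ≤ ∑ a ∈ T, c a * β a := by
    refine sum_le_sum fun a ha => ?_
    have : ∑ b ∈ T, (if k a ≤ k b then P a b else 0) =
        c a * ((M a).map fun u => ∑ b ∈ T with k a ≤ k b, c b * cnt (M b) u).sum := by
      rw [← sum_filter, ← sum_cnt, mul_sum]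
      simp only [hP]
      rw [sum_comm]
      exact sum_congr rfl fun u _ => by rw [← mul_sum]; ring
    rw [this]
    rcases (hc a ha).eq_or_lt with e | e
    · rw [← e]; simp only [zero_mul, Std.le_refl]
    · exact mul_le_mul_of_nonneg_left (h a ha e) e.le
  have e3 : ∑ a ∈ T, ∑ b ∈ T, (if k b ≤ k a then P a b else 0) =
      ∑ a ∈ T, ∑ b ∈ T, (if k a ≤ k b then P a b else 0) := by
    rw [sum_comm]
    exact sum_congr rfl fun a _ => sum_congr rfl fun b _ => by rw [Ps]
  rw [e1]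
  calc _ ≤ ∑ a ∈ T, ∑ b ∈ T, ((if k a ≤ k b then P a b else 0) +
        (if k b ≤ k a then P a b else 0)) := sum_le_sum fun a ha => sum_le_sum fun b hb => by
          have := P0 a ha b hb
          rcases le_total (k a) (k b) with h | h <;> simp only [h, if_true] <;> split_ifs <;>
            linarith only [this]
    _ ≤ _ := by simp only [sum_add_distrib]; linarith

/-- greedy choice of pairwise disjoint lists -/
theorem greedy {ι : Type} (Adm : ι → List V → Prop) (f : ι → V → ℝ) (hf0 : ∀ e u, 0 ≤ f e u)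
    (E : Finset ι) :
    (∀ e ∈ E, ∀ ψ : V → ℝ, ∃ l, Adm e l ∧ (l.map ψ).sum ≤ ∑ u, ψ u * f e u) → ∀ X : Finset V,
    ∑ e ∈ E, ∑ u ∈ X, f e u + ∑ e ∈ E, ∑ e' ∈ E, ∑ u, f e u * f e' u < 1 →
    ∃ P : ι → List V, (∀ e ∈ E, Adm e (P e) ∧ ∀ u ∈ P e, u ∉ X) ∧
      ∀ e ∈ E, ∀ e' ∈ E, e ≠ e' → List.Disjoint (P e) (P e') := by
  classical
  induction E using Finset.induction_on with
  | empty => exact fun _ _ _ => ⟨fun _ => [], by simp, by simp⟩
  | insert e0 E he ih =>
    intro hf X h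
    obtain ⟨l, hl, hs⟩ := hf e0 (mem_insert_self _ _)
      fun u => (if u ∈ X then 1 else 0) + ∑ e ∈ E, f e u
    have s1 : (l.map fun u => (if u ∈ X then (1 : ℝ) else 0) + ∑ e ∈ E, f e u).sum =
        (l.map fun u => if u ∈ X then (1 : ℝ) else 0).sum + ∑ e ∈ E, (l.map (f e)).sum := by
      simp only [← sum_cnt, add_mul, sum_add_distrib, sum_mul]
      rw [sum_comm]
    have s2 : ∑ u, ((if u ∈ X then (1 : ℝ) else 0) + ∑ e ∈ E, f e u) * f e0 u =
        ∑ u ∈ X, f e0 u + ∑ e ∈ E, ∑ u, f e u * f e0 u := by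
      simp only [add_mul, sum_add_distrib, sum_mul, ite_mul, one_mul, zero_mul]
      rw [sum_comm, sum_ite_mem, univ_inter]
    have s3 : ∑ e ∈ E, ∑ u ∈ X ∪ l.toFinset, f e u ≤
        ∑ e ∈ E, ∑ u ∈ X, f e u + ∑ e ∈ E, (l.map (f e)).sum := by
      rw [← sum_add_distrib]
      refine sum_le_sum fun e _ => ?_
      have a1 := sum_union_inter (s₁ := X) (s₂ := l.toFinset) (f := f e)
      have a2 : 0 ≤ ∑ u ∈ X ∩ l.toFinset, f e u := sum_nonneg fun u _ => hf0 e u
      have a3 : ∑ u ∈ l.toFinset, f e u ≤ (l.map (f e)).sum := by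
        have : l.toFinset = l.dedup.toFinset := by ext; simp
        rw [this, List.sum_toFinset _ (List.nodup_dedup l)]
        exact lsum_sublist (hf0 e) (List.dedup_sublist l)
      linarith
    simp only [sum_insert he, sum_add_distrib] at h
    have s4 : 0 ≤ ∑ u, f e0 u * f e0 u := sum_nonneg fun u _ => mul_self_nonneg _
    have s5 : 0 ≤ ∑ e ∈ E, ∑ u, f e0 u * f e u :=
      sum_nonneg fun e _ => sum_nonneg fun u _ => mul_nonneg (hf0 _ _) (hf0 _ _)
    have s6 : 0 ≤ (l.map fun u => if u ∈ X then (1 : ℝ) else 0).sum :=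
      lsum_nonneg (fun u => by split_ifs <;> norm_num) l
    have s7 : 0 ≤ ∑ e ∈ E, ∑ u ∈ X ∪ l.toFinset, f e u :=
      sum_nonneg fun e _ => sum_nonneg fun u _ => hf0 _ _
    have s8 : 0 ≤ ∑ e ∈ E, ∑ e' ∈ E, ∑ u, f e u * f e' u := sum_nonneg fun e _ =>
      sum_nonneg fun e _ => sum_nonneg fun u _ => mul_nonneg (hf0 _ _) (hf0 _ _)
    obtain ⟨P, p1, p2⟩ := ih (fun e he => hf e (mem_insert_of_mem he)) (X ∪ l.toFinset)
      (by linarith)
    have hX : ∀ u ∈ l, u ∉ X := fun u hu hx => by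
      have := le_lsum (φ := fun u => if u ∈ X then (1 : ℝ) else 0)
        (fun u => by split_ifs <;> norm_num) hu
      simp only [hx, if_true] at this
      linarith
    have hd : ∀ e ∈ E, List.Disjoint l (P e) := fun e h u hu hu' =>
      (p1 e h).2 u hu' (mem_union_right _ (List.mem_toFinset.2 hu))
    have hu : ∀ e ∈ E, Function.update P e0 l e = P e := fun e h =>
      Function.update_of_ne (fun q : e = e0 => he (q ▸ h)) _ _
    refine ⟨Function.update P e0 l, fun e h => ?_, fun e h e' h' hne => ?_⟩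
    · rcases mem_insert.1 h with rfl | h
      · rw [Function.update_self]; exact ⟨hl, hX⟩
      · rw [hu e h]
        exact ⟨(p1 e h).1, fun u a b => (p1 e h).2 u a (mem_union_left _ b)⟩
    · rcases mem_insert.1 h with q | q <;> rcases mem_insert.1 h' with q' | q'
      · exact absurd (q.trans q'.symm) hne
      · rw [q, Function.update_self, hu e' q']; exact hd e' q'
      · rw [q', Function.update_self, hu e q]; exact (hd e q).symm
      · rw [hu e q, hu e' q']; exact p2 e q e' q' hne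

/-- a link is carried by a thin distribution of paths -/
theorem Link.thin {D : V → V → Prop} {x y : V} {d : ℝ} (h : Link D x y d) (hd : 0 < d) :
    ∃ f : V → ℝ, (∀ u, 0 ≤ f u) ∧ ∑ u, f u ^ 2 ≤ d ^ 2 ∧ ∀ ψ : V → ℝ, ∃ l : List V,
      (List.IsChain D (x :: (l ++ [y])) ∧ l.Nodup) ∧ (l.map ψ).sum ≤ ∑ u, ψ u * f u := by
  classical
  rcases dual ((paths V).filter fun l => List.IsChain D (x :: (l ++ [y]))) cnt
    (fun l _ u => cnt_nonneg l u) (pow_pos hd 2) with ⟨g, g0, -, g1, g2⟩ | ⟨ρ, r0, r1, r2⟩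
  · refine ⟨_, fun u => sum_nonneg fun l _ => mul_nonneg (g0 l) (cnt_nonneg l u), g2, fun ψ => ?_⟩
    obtain ⟨l, hl, -, h⟩ := exists_le_avg _ g (fun l => (l.map ψ).sum) (fun l _ => g0 l)
      (by rw [g1]; exact one_pos) (d := ∑ u, ψ u * ∑ l ∈ (paths V).filter
        fun l => List.IsChain D (x :: (l ++ [y])), g l * cnt l u) (by
        rw [g1, mul_one]
        simp only [← sum_cnt, mul_sum]
        rw [sum_comm]
        exact le_of_eq (sum_congr rfl fun u _ => sum_congr rfl fun a _ => by ring))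
    rw [mem_filter, mem_paths] at hl
    exact ⟨l, ⟨hl.2, hl.1⟩, h⟩
  · exfalso
    set n := √(∑ u, ρ u ^ 2) with hn
    have n2 : n ^ 2 = ∑ u, ρ u ^ 2 := Real.sq_sqrt (sum_nonneg fun _ _ => sq_nonneg _)
    have n0 : 0 ≤ n := Real.sqrt_nonneg _
    have nd : n * d < 1 := by
      rw [← n2, lt_div_iff₀ (pow_pos hd 2), ← mul_pow] at r1
      exact (pow_lt_one_iff_of_nonneg (by positivity) two_ne_zero).1 r1
    obtain ⟨l, a1, a2⟩ := h (fun u => ρ u / n) (fun u => div_nonneg (r0 u) n0) (by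
      simp only [div_pow]
      rw [← sum_div, ← n2]
      exact div_self_le_one _)
    obtain ⟨l', b1, b2, b3, -⟩ := shortcut [y] l x a1
    have c1 := r2 l' (by rw [mem_filter, mem_paths]; exact ⟨b2, b3⟩)
    have c2 := (lsum_sublist (fun u => div_nonneg (r0 u) n0) b1).trans a2
    rw [← sum_cnt] at c2
    rcases n0.eq_or_lt with e | e
    · have : ∀ u, ρ u = 0 := fun u => by
        have := single_le_sum (f := fun u => ρ u ^ 2) (fun _ _ => sq_nonneg _) (mem_univ u)
        rw [← n2, ← e] at this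
        exact pow_eq_zero_iff two_ne_zero |>.1 (le_antisymm (by simpa using this) (sq_nonneg _))
      simp only [this, zero_mul, sum_const_zero] at c1
      linarith only [c1]
    · have : ∑ u, ρ u / n * cnt l' u = (∑ u, ρ u * cnt l' u) / n := by
        rw [sum_div]; exact sum_congr rfl fun u _ => by ring
      rw [this, div_le_iff₀ e] at c2
      linarith only [nd, c1, c2]

/-- L0: pairwise links give a subdivision -/
theorem l0 {ι : Type} [Fintype ι] (F : Digraph ι) (D : Digraph V) (t : ι → V)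
    (ht : Function.Injective t) {d : ℝ} (hd : 0 < d) (hn : 2 * (Fintype.card ι : ℝ) ^ 3 * d < 1)
    (hL : ∀ a b, F.Adj a b → Link D.Adj (t a) (t b) d) : H87.HasSubdivision F D := by
  classical
  have : ∀ e : ι × ι, ∃ f : V → ℝ, (∀ u, 0 ≤ f u) ∧ ∑ u, f u ^ 2 ≤ d ^ 2 ∧ (F.Adj e.1 e.2 →
      ∀ ψ : V → ℝ, ∃ l : List V, (List.IsChain D.Adj (t e.1 :: (l ++ [t e.2])) ∧ l.Nodup) ∧
        (l.map ψ).sum ≤ ∑ u, ψ u * f u) := fun e => by
    by_cases h : F.Adj e.1 e.2
    · obtain ⟨f, a, b, c⟩ := (hL _ _ h).thin hd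
      exact ⟨f, a, b, fun _ => c⟩
    · exact ⟨0, fun _ => le_rfl, by simpa only [Pi.zero_apply, ne_eq, OfNat.ofNat_ne_zero, not_false_eq_true, zero_pow, sum_const_zero] using sq_nonneg d, fun h' => absurd h' h⟩
  choose f f0 f1 f2 using this
  set N : ℝ := (Fintype.card ι : ℝ) with hN
  set E : Finset (ι × ι) := univ.filter fun e => F.Adj e.1 e.2 with hE
  have hc : (E.card : ℝ) ≤ N ^ 2 := by
    have := card_le_univ E
    rw [Fintype.card_prod] at this
    rw [hN, sq]; exact_mod_cast this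
  have fd : ∀ e u, f e u ≤ d := fun e u => (abs_le_of_sq_le_sq' ((single_le_sum
    (f := fun u => f e u ^ 2) (fun _ _ => sq_nonneg _) (mem_univ u)).trans (f1 e)) hd.le).2
  obtain ⟨P, p1, p2⟩ := greedy (fun e l => List.IsChain D.Adj (t e.1 :: (l ++ [t e.2])) ∧ l.Nodup)
    f f0 E (fun e he => f2 e (mem_filter.1 he).2) (univ.image t) (by
      have a1 : ∑ e ∈ E, ∑ u ∈ univ.image t, f e u ≤ N ^ 2 * (N * d) := by
        refine (sum_le_card_nsmul _ _ (N * d) fun e _ => ?_).trans ?_
        · refine (sum_le_card_nsmul _ _ d fun u _ => fd e u).trans ?_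
          rw [nsmul_eq_mul, card_image_of_injective _ ht]
          exact le_rfl
        · rw [nsmul_eq_mul]
          exact mul_le_mul_of_nonneg_right hc (by positivity)
      have a2 : ∑ e ∈ E, ∑ e' ∈ E, ∑ u, f e u * f e' u ≤ N ^ 2 * (N ^ 2 * (d * d)) := by
        refine (sum_le_card_nsmul _ _ (N ^ 2 * (d * d)) fun e _ => ?_).trans ?_
        · refine (sum_le_card_nsmul _ _ (d * d) fun e' _ =>
            cs _ _ hd.le hd.le (f1 e) (f1 e')).trans ?_
          rw [nsmul_eq_mul]
          exact mul_le_mul_of_nonneg_right hc (by positivity)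
        · rw [nsmul_eq_mul]
          exact mul_le_mul_of_nonneg_right hc (by positivity)
      have a3 : N ^ 2 * d ≤ N ^ 3 * d := by
        refine mul_le_mul_of_nonneg_right ?_ hd.le
        rcases Nat.eq_zero_or_pos (Fintype.card ι) with h | h
        · simp [hN, h]
        · exact pow_le_pow_right₀ (by rw [hN]; exact_mod_cast h) (by norm_num)
      have a4 : 0 ≤ N ^ 2 * d := by positivity
      nlinarith only [hn, a1, a2, a3, a4])
  have hm : ∀ a b, F.Adj a b → (a, b) ∈ E := fun a b h => mem_filter.2 ⟨mem_univ _, h⟩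
  exact ⟨t, fun a b => P (a, b), ht, fun a b h => ⟨(p1 _ (hm a b h)).1.1, (p1 _ (hm a b h)).1.2,
    fun v hv => (p1 _ (hm a b h)).2 _ hv (mem_image_of_mem _ (mem_univ v))⟩,
    fun a b c e h h' hne => p2 _ (hm a b h) _ (hm c e h') hne⟩

end Pool.Agent.MP_114209_co.H79

namespace Pool.Agent.MP_114209_co.H79

open Finset
open scoped Classical

variable {V : Type} [Fintype V] [DecidableEq V] {D : V → V → Prop}

/-- `x :: l` is a walk which ends in `S` -/
def Wk (D : V → V → Prop) (S : Finset V) (x : V) (l : List V) : Prop :=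
  List.IsChain D (x :: l) ∧ l.getLastD x ∈ S

/-- every walk from `z` to `S` has `ρ`-length at least `c` (the start is not counted) -/
def Cert (D : V → V → Prop) (z : V) (S : Finset V) (ρ : V → ℝ) (c : ℝ) : Prop :=
  ∀ l, Wk D S z l → c ≤ (l.map ρ).sum

/-- a probability on walks from `x` to `S` of energy at most `1 / v` -/
def IsFlow (D : V → V → Prop) (x : V) (S : Finset V) (v : ℝ) (g : List V → ℝ) : Prop :=
  (∀ l, 0 ≤ g l) ∧ (∀ l, g l ≠ 0 → l.Nodup ∧ Wk D S x l) ∧ ∑ l ∈ paths V, g l = 1 ∧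
    ∑ u, (∑ l ∈ paths V, g l * cnt l u) ^ 2 ≤ 1 / v

omit [Fintype V] [DecidableEq V] in
theorem Cert.mono {z : V} {S : Finset V} {ρ : V → ℝ} {c c' : ℝ} (h : Cert D z S ρ c)
    (hc : c' ≤ c) : Cert D z S ρ c' := fun l hl => hc.trans (h l hl)

omit [Fintype V] [DecidableEq V] in
theorem Wk.append {S : Finset V} {x : V} {l m : List V} (h : List.IsChain D (x :: l))
    (h' : Wk D S (l.getLastD x) m) : Wk D S x (l ++ m) := by
  induction l generalizing x with
  | nil => exact h'
  | cons a l ih =>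
    rw [List.getLastD_cons] at h'
    rw [List.isChain_cons_cons] at h
    have := ih h.2 h'
    exact ⟨by rw [List.cons_append, List.isChain_cons_cons]; exact ⟨h.1, this.1⟩,
      by rw [List.cons_append, List.getLastD_cons]; exact this.2⟩

omit [Fintype V] [DecidableEq V] in
/-- an out-neighbour of small weight of a far vertex is far -/
theorem Cert.step {u t : V} {S : Finset V} {ρ : V → ℝ} (h : Cert D u S ρ (1 / 2)) (hut : D u t)
    (ht : ρ t < 1 / 4) : t ∉ S ∧ Cert D t S ρ (1 / 4) := by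
  refine ⟨fun hS => ?_, fun l hl => ?_⟩
  · have := h [t] ⟨by simpa using hut, by simpa using hS⟩
    simp only [List.map_cons, List.map_nil, List.sum_cons, List.sum_nil] at this
    linarith
  · have := h (t :: l) ⟨List.isChain_cons_cons.2 ⟨hut, hl.1⟩, by
      rw [List.getLastD_cons]; exact hl.2⟩
    simp only [List.map_cons, List.sum_cons] at this
    linarith only [ht, this]

/-- either a flow or a certificate -/
theorem flow_or_cert (x : V) (S : Finset V) {v : ℝ} (hv : 0 < v) :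
    (∃ g, IsFlow D x S v g) ∨
      ∃ ρ : V → ℝ, (∀ u, 0 ≤ ρ u) ∧ ∑ u, ρ u ^ 2 < v ∧ Cert D x S ρ 1 := by
  rcases dual ((paths V).filter (Wk D S x)) cnt (fun l _ u => cnt_nonneg l u)
    (one_div_pos.2 hv) with ⟨g, g0, g1, g2, g3⟩ | ⟨ρ, r0, r1, r2⟩
  · have hz : ∀ F : List V → ℝ, ∑ l ∈ (paths V).filter (Wk D S x), g l * F l =
        ∑ l ∈ paths V, g l * F l := fun F => sum_subset (filter_subset _ _) fun l _ h => by
      rw [of_not_not fun h' => h (g1 l h'), zero_mul]
    refine Or.inl ⟨g, g0, fun l h => by simpa using g1 l h, ?_, ?_⟩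
    · simpa [g2] using (hz fun _ => 1).symm
    · simpa only [hz] using g3
  · refine Or.inr ⟨ρ, r0, by simpa only [one_div, div_inv_eq_mul, one_mul] using r1, fun l hl => ?_⟩
    obtain ⟨l', b1, b2, b3, b4⟩ := shortcut [] l x (by simpa using hl.1)
    have := r2 l' (mem_filter.2 ⟨mem_paths.2 b2, by simpa using b3, b4 ▸ hl.2⟩)
    rw [sum_cnt] at this
    exact this.trans (lsum_sublist r0 b1)

/-- the uniform flow on the out-neighbours -/
theorem flow_nbrs {x : V} {S : Finset V} {v : ℝ} (hv : 0 < v)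
    (hK : v ≤ (univ.filter (D x)).card) (hS : ∀ t, D x t → t ∈ S) : ∃ g, IsFlow D x S v g := by
  rcases flow_or_cert (D := D) x S hv with h | ⟨ρ, r0, r1, r2⟩
  · exact h
  · exfalso
    have h1 : ∀ t ∈ univ.filter (D x), (1 : ℝ) ≤ ρ t ^ 2 := fun t ht => by
      have ht := (mem_filter.1 ht).2
      have := r2 [t] ⟨by simpa using ht, by simpa using hS t ht⟩
      simp only [List.map_cons, List.map_nil, List.sum_cons, List.sum_nil, add_zero] at this
      nlinarith only [this]
    have h2 := card_nsmul_le_sum _ _ _ h1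
    have h3 := sum_le_univ_sum_of_nonneg (s := univ.filter (D x)) (f := fun t => ρ t ^ 2)
      fun _ => sq_nonneg _
    rw [nsmul_eq_mul, mul_one] at h2
    linarith

/-- STAGE -/
theorem stage (hl : ∀ w, ¬ D w w) {v : ℝ} (hv : 0 < v)
    (hK : ∀ w, v ≤ (univ.filter (D w)).card) (E : Finset V) : ∀ (y : V) (ρ : V → ℝ), y ∉ E →
    (∀ u, 0 ≤ ρ u) → ∑ u, ρ u ^ 2 ≤ v + 1 → Cert D y E ρ 1 →
    ∃ (S : Finset V) (y' : V) (ρ' : V → ℝ), E ⊆ S ∧ y' ∉ S ∧ (∀ u, 0 ≤ ρ' u) ∧
      ∑ u, ρ' u ^ 2 ≤ v + 1 ∧ Cert D y' S ρ' 1 ∧ ∀ x ∉ S, ∃ g, IsFlow D x S v g := by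
  induction E using WellFoundedGT.induction with
  | _ E ih =>
  intro y ρ hy r0 r1 r2
  by_cases h : ∀ x ∉ E, ∃ g, IsFlow D x E v g
  · exact ⟨E, y, ρ, Subset.refl _, hy, r0, r1, r2, h⟩
  push Not at h
  obtain ⟨x, hx, h⟩ := h
  obtain ⟨τ, t0, t1, t2⟩ := (flow_or_cert (D := D) x E hv).resolve_left fun ⟨g, hg⟩ => h g hg
  obtain ⟨t, hxt, ht⟩ : ∃ t, D x t ∧ t ∉ E := by
    by_contra hc
    push Not at hc
    obtain ⟨g, hg⟩ := flow_nbrs hv (hK x) hc
    exact h g hg
  have hne : x ≠ t := fun e => hl x (e ▸ hxt)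
  have hle : ∀ u, τ u ≤ Function.update τ t (max (τ t) 1) u := fun u => by
    by_cases e : u = t
    · rw [e, Function.update_self]; exact le_max_left _ _
    · rw [Function.update_of_ne e]
  obtain ⟨S, y', ρ', a, b⟩ := ih (insert t E) (ssubset_insert ht) x
    (Function.update τ t (max (τ t) 1)) (by simp [hne, hx]) (fun u => (t0 u).trans (hle u))
    (by
      have : ∀ u, Function.update τ t (max (τ t) 1) u ^ 2 ≤ τ u ^ 2 + if u = t then 1 else 0 :=
        fun u => by
          by_cases e : u = t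
          · rw [e, Function.update_self, if_pos rfl]
            rcases le_total (τ t) 1 with q | q
            · rw [max_eq_right q]; linarith only [sq_nonneg (τ t)]
            · rw [max_eq_left q]; linarith only []
          · rw [Function.update_of_ne e, if_neg e, add_zero]
      refine (sum_le_sum fun u _ => this u).trans ?_
      rw [sum_add_distrib, sum_ite_eq', if_pos (mem_univ _)]
      linarith)
    (fun l hl => by
      rcases mem_insert.1 hl.2 with e | e
      · have hm : t ∈ l := by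
          have := List.getLastD_mem_cons (l := l) (a := x)
          rw [e] at this
          exact (List.mem_cons.1 this).resolve_left hne.symm
        have := le_lsum (fun u => (t0 u).trans (hle u)) hm
        rw [Function.update_self] at this
        exact (le_max_right _ _).trans this
      · exact (t2 l ⟨hl.1, e⟩).trans (lsum_mono fun u _ => hle u))
  exact ⟨S, y', ρ', (subset_insert _ _).trans a, b⟩

/-- the chain of stages -/
theorem stages [Nonempty V] (hl : ∀ w, ¬ D w w) (v : ℕ → ℝ) (hv : ∀ k, 0 < v k)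
    (hvv : ∀ k, 4 * (v k + 1) ≤ v (k + 1) + 1) (n : ℕ)
    (hK : ∀ k ≤ n, ∀ w, v k ≤ (univ.filter (D w)).card) :
    ∃ (S : ℕ → Finset V) (y : ℕ → V) (ρ : ℕ → V → ℝ),
      (∀ k ≤ n, y k ∉ S k ∧ (∀ u, 0 ≤ ρ k u) ∧ ∑ u, ρ k u ^ 2 ≤ v k + 1 ∧
        Cert D (y k) (S k) (ρ k) 1 ∧ ∀ x ∉ S k, ∃ g, IsFlow D x (S k) (v k) g) ∧
      ∀ k < n, ∀ z ∉ S (k + 1), z ∉ S k ∧ Cert D z (S k) (ρ k) (1 / 2) := by
  induction n with
  | zero =>
    obtain ⟨S, y, ρ, -, h⟩ := stage hl (hv 0) (hK 0 le_rfl) ∅ (Classical.arbitrary V) 0 (by simp)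
      (fun _ => le_rfl) (by simpa only [Pi.zero_apply, ne_eq, OfNat.ofNat_ne_zero, not_false_eq_true, zero_pow, sum_const_zero] using by linarith [hv 0]) fun l hl => by simpa using hl.2
    exact ⟨fun _ => S, fun _ => y, fun _ => ρ, fun k hk => by
      obtain rfl := Nat.le_zero.1 hk; exact h, fun k hk => absurd hk (Nat.not_lt_zero k)⟩
  | succ n ih =>
    obtain ⟨S, y, ρ, h1, h2⟩ := ih fun k hk => hK k (Nat.le_succ_of_le hk)
    obtain ⟨a1, a2, a3, a4, -⟩ := h1 n le_rfl
    obtain ⟨S', y', ρ', b, h⟩ := stage hl (hv (n + 1)) (hK _ le_rfl)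
      (univ.filter fun z => ¬ (z ∉ S n ∧ Cert D z (S n) (ρ n) (1 / 2))) (y n)
      (fun u => 2 * ρ n u) (by simpa using ⟨a1, a4.mono (by norm_num)⟩)
      (fun u => by linarith [a2 u])
      (by
        have : ∑ u, (2 * ρ n u) ^ 2 = 4 * ∑ u, ρ n u ^ 2 := by
          rw [mul_sum]; exact sum_congr rfl fun u _ => by ring
        linarith [hvv n])
      (fun l hl => by
        have e : (l.map fun u => 2 * ρ n u).sum = 2 * (l.map (ρ n)).sum := List.sum_map_mul_left ..
        have := (mem_filter.1 hl.2).2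
        rw [e]
        by_cases hS : l.getLastD (y n) ∈ S n
        · linarith [a4 l ⟨hl.1, hS⟩]
        · have hc : ¬ Cert D (l.getLastD (y n)) (S n) (ρ n) (1 / 2) := fun q => this ⟨hS, q⟩
          unfold Cert at hc
          push Not at hc
          obtain ⟨m, m1, m2⟩ := hc
          have := a4 _ (Wk.append hl.1 m1)
          rw [List.map_append, List.sum_append] at this
          linarith only [m2, this])
    refine ⟨Function.update S (n + 1) S', Function.update y (n + 1) y',
      Function.update ρ (n + 1) ρ', fun k hk => ?_, fun k hk z hz => ?_⟩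
    · rcases hk.eq_or_lt with rfl | hk
      · simpa only [Function.update_self] using h
      · simpa only [Function.update_of_ne hk.ne] using h1 k (Nat.lt_succ_iff.1 hk)
    · simp only [Function.update_of_ne hk.ne]
      rcases (Nat.lt_succ_iff.1 hk).eq_or_lt with rfl | hk'
      · rw [Function.update_self] at hz
        by_contra hc
        exact hz (b (mem_filter.2 ⟨mem_univ _, hc⟩))
      · rw [Function.update_of_ne (by omega)] at hz
        exact h2 k hk' z hz

end Pool.Agent.MP_114209_co.H79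

/-! Definitions and basic sums for the weighted chains of sections 2 to 5.
A path from `x` to `y` is the list `l` of its internal (restart) vertices. -/

namespace Pool.Agent.MP_114209_co.H79

open Finset

noncomputable section

variable {V : Type}

open Classical in
/-- indicator of a proposition -/
def ind (p : Prop) : ℝ := if p then 1 else 0

theorem ind_of {p : Prop} (h : p) : ind p = 1 := by simp [ind, h]
theorem ind_not {p : Prop} (h : ¬ p) : ind p = 0 := by simp [ind, h]
theorem ind_nonneg (p : Prop) : 0 ≤ ind p := by unfold ind; split_ifs <;> norm_num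
theorem ind_le_one (p : Prop) : ind p ≤ 1 := by unfold ind; split_ifs <;> norm_num
theorem ind_mono {p q : Prop} (h : p → q) : ind p ≤ ind q := by
  by_cases hp : p
  · rw [ind_of hp, ind_of (h hp)]
  · rw [ind_not hp]; exact ind_nonneg _
theorem ind_congr {p q : Prop} (h : p ↔ q) : ind p = ind q := by rw [propext h]
theorem ind_and (p q : Prop) : ind (p ∧ q) = ind p * ind q := by
  by_cases hp : p <;> by_cases hq : q <;> simp [ind, hp, hq]
theorem ind_or_le (p q : Prop) : ind (p ∨ q) ≤ ind p + ind q := by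
  by_cases hp : p <;> by_cases hq : q <;> simp [ind, hp, hq]
theorem ind_mul_le {p : Prop} {a b : ℝ} (hb : 0 ≤ b) (h : p → a ≤ b) : ind p * a ≤ b := by
  by_cases hp : p
  · rw [ind_of hp, one_mul]; exact h hp
  · rw [ind_not hp, zero_mul]; exact hb
theorem sum_ind_eq [Fintype V] (a : V) (f : V → ℝ) : ∑ u, ind (a = u) * f u = f a := by
  classical
  rw [sum_eq_single a (fun b _ h => by rw [ind_not h.symm, zero_mul]) (by simp only [mem_univ, not_true_eq_false, mul_eq_zero, IsEmpty.forall_iff]), ind_of rfl,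
    one_mul]

/-- `φ`-length of a list -/
def ls (φ : V → ℝ) (l : List V) : ℝ := (l.map φ).sum

@[simp] theorem ls_nil (φ : V → ℝ) : ls φ [] = 0 := rfl
@[simp] theorem ls_cons (φ : V → ℝ) (a : V) (l : List V) : ls φ (a :: l) = φ a + ls φ l := by
  simp [ls]
@[simp] theorem ls_append (φ : V → ℝ) (p s : List V) : ls φ (p ++ s) = ls φ p + ls φ s := by
  simp [ls]
@[simp] theorem ls_reverse (φ : V → ℝ) (l : List V) : ls φ l.reverse = ls φ l := by
  simp [ls, List.sum_reverse]
theorem ls_nonneg {φ : V → ℝ} (h : ∀ u, 0 ≤ φ u) (l : List V) : 0 ≤ ls φ l := lsum_nonneg h l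

/-- all lists of length at most `L` -/
def lists (V : Type) [Fintype V] (L : ℕ) : Finset (List V) := (List.finite_length_le V L).toFinset

@[simp] theorem mem_lists [Fintype V] {L : ℕ} {l : List V} : l ∈ lists V L ↔ l.length ≤ L := by
  simp [lists]

/-- sum of `G p z s` over all ways to write the list as `p ++ z :: s` -/
def sp3 : (List V → V → List V → ℝ) → List V → ℝ
  | _, [] => 0
  | G, z :: l => G [] z l + sp3 (fun p a s => G (z :: p) a s) l

/-- sum of `G p s` over all ways to write the list as `p ++ s` -/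
def sp2 : (List V → List V → ℝ) → List V → ℝ
  | G, [] => G [] []
  | G, z :: l => G [] (z :: l) + sp2 (fun p s => G (z :: p) s) l

/-- weight of the path `x, l, y` -/
def qw (Q : V → V → ℝ) : V → List V → V → ℝ
  | x, [], y => Q x y
  | x, z :: l, y => Q x z * qw Q z l y

/-- weight of the possibly trivial path `x, p` -/
def pw (Q : V → V → ℝ) : V → List V → ℝ
  | _, [] => 1
  | x, z :: p => Q x z * pw Q z p

/-- weight of the possibly trivial path `s, y` -/
def sw (Q : V → V → ℝ) : List V → V → ℝ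
  | [], _ => 1
  | t :: s, y => qw Q t s y

/-- last vertex of `x :: p` -/
def lst : V → List V → V
  | x, [] => x
  | _, z :: p => lst z p

/-- first vertex of `s ++ [y]` -/
def hd : List V → V → V
  | [], y => y
  | t :: _, _ => t

/-- weight of the path `x, l, y` with one step weighted by `c` instead of `Q`, summed over steps -/
def qm (Q c : V → V → ℝ) : V → List V → V → ℝ
  | x, [], y => c x y
  | x, z :: l, y => c x z * qw Q z l y + Q x z * qm Q c z l y

/-- regularity sum -/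
def fs (W : V → ℝ) : ℝ → List V → ℝ
  | _, [] => 0
  | a, z :: l => (W z / a) ^ 2 + fs W (a + W z) l

/-- the hazard profile -/
def ph (r : ℝ) : ℝ := min (r ^ 4) (r ^ 80)

/-- substochastic kernel with clock `W` and excessive measure `W ^ 40` -/
structure Ker (V : Type) [Fintype V] where
  Q : V → V → ℝ
  W : V → ℝ
  Q0 : ∀ x y, 0 ≤ Q x y
  W1 : ∀ x, 1 ≤ W x
  row : ∀ x, ∑ y, Q x y ≤ 1
  col : ∀ y, ∑ x, W x ^ 40 * Q x y ≤ W y ^ 40

namespace Ker

variable [Fintype V] (K : Ker V)

theorem Wpos (x : V) : 0 < K.W x := one_pos.trans_le (K.W1 x)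

/-- the reversed chain -/
def rev : Ker V where
  Q := fun u x => K.W x ^ 40 * K.Q x u / K.W u ^ 40
  W := K.W
  Q0 := fun u x => by have := K.Q0 x u; have := K.Wpos x; have := K.Wpos u; positivity
  W1 := K.W1
  row := fun u => by
    rw [← sum_div, div_le_one (pow_pos (K.Wpos u) _)]; exact K.col u
  col := fun x => by
    have h : ∀ u, K.W u ^ 40 * (K.W x ^ 40 * K.Q x u / K.W u ^ 40) = K.W x ^ 40 * K.Q x u :=
      fun u => by have := K.Wpos u; field_simp
    simp only [h, ← mul_sum]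
    exact mul_le_of_le_one_right (pow_pos (K.Wpos x) _).le (K.row x)

/-- clock of a list of internal vertices -/
def P (l : List V) : ℝ := ls K.W l

/-- weight of the paths from `x` to `y` with at most `L` internal vertices and property `Φ` -/
def Z (L : ℕ) (Φ : List V → Prop) (x y : V) : ℝ := ∑ l ∈ lists V L, ind (Φ l) * qw K.Q x l y

def fwd (R : ℝ) (x : V) (l : List V) : Prop := fs K.W (K.W x) l ≤ R ^ 2

def bwd (R : ℝ) (y : V) (l : List V) : Prop := fs K.W (K.W y) l.reverse ≤ R ^ 2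

/-- kernels between coarse vertices are spread -/
def BC (L : ℕ) (e : ℝ) : Prop :=
  ∀ (x z : V) (g s : ℝ), 0 < g → g ≤ K.W x → g ≤ K.W z → 0 ≤ s →
    K.Z L (fun l => K.P l ≤ s) x z ≤ e * (4 + 2 * s / g) * (K.W z / g) ^ 40

/-- forward violation at time `T` (a backward violation is `K.rev.Vf`) -/
def Vf (L : ℕ) (R η T : ℝ) : Prop :=
  ∃ x y, η * (K.W y / T) ^ 40 < K.Z L (fun l => T ≤ K.P l ∧ K.P l < 2 * T ∧ K.fwd R x l) x y

def NVf (L : ℕ) (R η T : ℝ) : Prop :=
  ∀ (x y : V) (a : ℝ), 0 < a →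
    K.Z L (fun l => a ≤ K.P l ∧ K.P l < T ∧ K.fwd R x l) x y ≤ 2 * 2 ^ 40 * η * (K.W y / a) ^ 40

def NVb (L : ℕ) (R η T : ℝ) : Prop :=
  ∀ (x y : V) (a : ℝ), 0 < a →
    K.Z L (fun l => a ≤ K.P l ∧ K.P l < T ∧ K.bwd R y l) x y ≤ 2 * 2 ^ 40 * η * (K.W y / a) ^ 40

/-- no concentration before time `T` -/
structure Calm (L : ℕ) (R η e T : ℝ) : Prop where
  R1 : 1 ≤ R
  η0 : 0 ≤ η
  η1 : η ≤ 1
  e0 : 0 ≤ e
  bc : K.BC L e
  nf : K.NVf L R η T
  nb : K.NVb L R η T

/-- PreSmall; `K.rev.Small` is SufSmall -/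
def Small (L : ℕ) (R T be : ℝ) : Prop :=
  ∀ (x z : V) (sc : ℝ), 0 < sc → K.W z ≤ R * sc →
    K.Z L (fun l => sc ≤ K.W x + K.P l ∧ K.P l < T ∧ K.fwd R x l) x z ≤ be * (K.W z / sc) ^ 2

/-- good pieces -/
def GG (R g D T : ℝ) (x y : V) (l : List V) : Prop :=
  D ≤ K.P l ∧ K.P l < T ∧ (∀ z ∈ l, K.W z < g) ∧ K.fwd R x l ∧ K.bwd R y l

/-- only fine vertices meet the clock window from `a` to `a + w` -/
def Win (g a w : ℝ) (l : List V) : Prop :=
  a + w ≤ K.P l ∧ ∀ p z s, l = p ++ z :: s → K.P p ≤ a + w → a < K.P p + K.W z → K.W z < g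

/-- the vertex covering time `t` is forward irregular before time `hi` -/
def BadF (R hi t : ℝ) (l : List V) : Prop :=
  ∃ p z m s, l = p ++ z :: (m ++ s) ∧ K.P p ≤ t ∧ t < K.P p + K.W z ∧
    K.P p + K.W z + K.P m ≤ hi ∧ ¬ K.fwd R z m

/-- the vertex covering time `t` is backward irregular after time `lo` -/
def BadB (R lo t : ℝ) (l : List V) : Prop :=
  ∃ p m z s, l = p ++ (m ++ z :: s) ∧ K.P p + K.P m ≤ t ∧ t < K.P p + K.P m + K.W z ∧
    lo ≤ K.P p ∧ ¬ K.bwd R z m

/-- weight of the paths from `x` that are alive outside `A` at time `s` -/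
def Sur [DecidableEq V] (L : ℕ) (A : Finset V) (s : ℝ) (x : V) : ℝ :=
  ∑ y ∈ Aᶜ, K.Z L (fun l => K.P l ≤ s ∧ s < K.P l + K.W y) x y

end Ker

/-- bound for kernels with clock between `D / 4` and `T` -/
def Th (η D : ℝ) : ℝ := 2 * 2 ^ 40 * η * (4 / D) ^ 40

/-- constant of the two mid vertex charges -/
def Cm (R : ℝ) : ℝ := 10 * 4 ^ 40 * (2 * R) ^ 40 * R ^ 40 * (1 + R ^ 2)

/-- the process: `m z t u` is the weighted number of visits of `u` by the steps from `z` to `t` -/
structure Sys [Fintype V] (D : V → V → Prop) extends Ker V where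
  A : Finset V
  m : V → V → V → ℝ
  pr : V → V → ℝ
  e : ℝ
  eps : ℝ
  e0 : 0 ≤ e
  eps0 : 0 ≤ eps
  m0 : ∀ z t u, 0 ≤ m z t u
  M1 : ∀ φ : V → ℝ, (∀ u, 0 ≤ φ u) → ∀ z t, 0 < Q z t →
    ∃ l, List.IsChain D (z :: (l ++ [t])) ∧ ls φ l * Q z t ≤ ∑ u, m z t u * φ u
  M3 : ∀ z t, ∑ u, m z t u * ∑ z', ph (W z' / W z) * ∑ t', m z' t' u ≤ eps * Q z t
  rowA : ∀ x ∈ A, ∀ u, Q x u = 0
  S6a : ∀ x u, Q x u ≤ e
  S6b : ∀ x, ∀ u ∉ A, W x ^ 40 * Q x u ≤
    W x ^ 40 * pr x u + e * ∑ x', min 1 (W x' / W x) * (W x' ^ 40 * Q x' u)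
  pr0 : ∀ x u, 0 ≤ pr x u
  S6c : ∀ x, ∑ u, pr x u ≤ e

/-- cost of the steps from `z` to `t` -/
def Sys.c [Fintype V] {D : V → V → Prop} (s : Sys D) (φ : V → ℝ) (z t : V) : ℝ :=
  ∑ u, s.m z t u * φ u

/-- the properties of the process used in section 5; `w0 * W` is the killing rate -/
structure Extra [Fintype V] [DecidableEq V] {D : V → V → Prop} (s : Sys D) (μ : V → ℝ)
    (w0 y : ℝ) : Prop where
  w0p : 0 < w0
  om : ∀ u, w0 * s.W u ≤ 1 / y
  rowE : ∀ x ∉ s.A, 1 - w0 * s.W x ≤ ∑ u, s.Q x u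
  S3 : ∀ u, μ u + ∑ x, (w0 * s.W x) ^ 40 * s.Q x u ≤ (w0 * s.W u) ^ 40
  S4 : ∑ u ∈ s.Aᶜ, (w0 * s.W u) ^ 41 ≤ 2
  M4 : ∀ z t, 0 < s.Q z t → ∃ u ∉ s.A, D u t

end

end Pool.Agent.MP_114209_co.H79

/-! Basic sums over lists, splits, weights, reversal. -/

namespace Pool.Agent.MP_114209_co.H79

open Finset

variable {V : Type}

section Lists
variable [Fintype V]

theorem lists_mono {L L' : ℕ} (h : L ≤ L') : lists V L ⊆ lists V L' := fun l hl => by
  simp at hl ⊢; omega

theorem sum_lists_zero (f : List V → ℝ) : ∑ l ∈ lists V 0, f l = f [] := by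
  have : lists V 0 = {[]} := by ext l; simp
  rw [this, sum_singleton]

theorem sum_lists_cons (L : ℕ) (f : List V → ℝ) :
    ∑ l ∈ lists V (L + 1), f l = f [] + ∑ z, ∑ l ∈ lists V L, f (z :: l) := by
  classical
  have : lists V (L + 1) = insert [] ((univ ×ˢ lists V L).image fun p => p.1 :: p.2) := by
    ext l
    rcases l with _ | ⟨z, l⟩ <;> simp only [mem_lists, List.length_nil, le_add_iff_nonneg_left, zero_le, mem_insert, mem_image, mem_product, mem_univ, true_and, reduceCtorEq, and_false, exists_false, or_false, List.length_cons, add_le_add_iff_right, List.cons.injEq, Prod.exists, exists_eq_right_right, exists_eq_right, false_or]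
  rw [this, sum_insert (by simp only [mem_image, mem_product, mem_univ, mem_lists, true_and, reduceCtorEq, and_false, exists_false, not_false_eq_true]), sum_image, sum_product]
  rintro ⟨a, b⟩ - ⟨c, d⟩ - h
  simpa using h

theorem sum_lists_rev (L : ℕ) (f : List V → ℝ) :
    ∑ l ∈ lists V L, f l.reverse = ∑ l ∈ lists V L, f l :=   sum_nbij' List.reverse List.reverse (by simp) (by simp) (by simp) (by simp) (by simp)

theorem sum_lists_snoc (L : ℕ) (f : List V → ℝ) :
    ∑ l ∈ lists V (L + 1), f l = f [] + ∑ z, ∑ l ∈ lists V L, f (l ++ [z]) := by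
  rw [← sum_lists_rev, sum_lists_cons]
  simp only [List.reverse_cons, List.reverse_nil]
  congr 1
  exact sum_congr rfl fun z _ => sum_lists_rev L fun l => f (l ++ [z])

theorem sum_lists_mono {L L' : ℕ} (h : L ≤ L') {f : List V → ℝ} (hf : ∀ l, 0 ≤ f l) :
    ∑ l ∈ lists V L, f l ≤ ∑ l ∈ lists V L', f l :=
  sum_le_sum_of_subset_of_nonneg (lists_mono h) fun l _ _ => hf l

theorem sum_lists_cons_le (L : ℕ) (f : List V → ℝ) (hf : ∀ l, 0 ≤ f l) :
    ∑ l ∈ lists V L, f l ≤ f [] + ∑ z, ∑ l ∈ lists V L, f (z :: l) :=   (sum_lists_mono (Nat.le_succ L) hf).trans_eq (sum_lists_cons L f)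

theorem sum_lists_snoc_le (L : ℕ) (f : List V → ℝ) (hf : ∀ l, 0 ≤ f l) :
    ∑ l ∈ lists V L, f l ≤ f [] + ∑ z, ∑ l ∈ lists V L, f (l ++ [z]) :=   (sum_lists_mono (Nat.le_succ L) hf).trans_eq (sum_lists_snoc L f)

theorem sum_lists_ind {L L' : ℕ} (h : L ≤ L') {c : List V → Prop} (hc : ∀ l, c l → l.length ≤ L)
    (f : List V → ℝ) : ∑ l ∈ lists V L', ind (c l) * f l = ∑ l ∈ lists V L, ind (c l) * f l :=
  (sum_subset (lists_mono h) fun l _ hl => by
    rw [ind_not fun e => hl (mem_lists.2 (hc l e)), zero_mul]).symm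

theorem sum_sp2 (L : ℕ) (G : List V → List V → ℝ) : ∑ l ∈ lists V L, sp2 G l =
    ∑ p ∈ lists V L, ∑ s ∈ lists V L, ind (p.length + s.length ≤ L) * G p s := by
  induction L generalizing G with
  | zero => simp [sum_lists_zero, sp2, ind]
  | succ L ih =>
    rw [sum_lists_cons, sum_lists_cons]
    simp only [sp2, sum_add_distrib, ih]
    rw [← add_assoc, ← sum_lists_cons L fun s => G [] s]
    congr 1
    · exact sum_congr rfl fun s hs => by rw [ind_of (by simpa using hs), one_mul]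
    · refine sum_congr rfl fun z _ => sum_congr rfl fun p _ => ?_
      rw [sum_lists_ind (Nat.le_succ L) fun l hl => by simp only [List.length_cons] at hl; omega]
      exact sum_congr rfl fun s _ => congrArg (· * _) (ind_congr (by simp only [List.length_cons]; omega))

theorem sum_sp3 (L : ℕ) (G : List V → V → List V → ℝ) : ∑ l ∈ lists V L, sp3 G l =
    ∑ p ∈ lists V L, ∑ z, ∑ s ∈ lists V L, ind (p.length + s.length + 1 ≤ L) * G p z s := by
  induction L generalizing G with
  | zero => simp only [sum_lists_zero, sp3, ind, nonpos_iff_eq_zero, Nat.add_eq_zero_iff, List.length_eq_zero_iff, one_ne_zero, and_false, ↓ reduceIte, zero_mul, sum_const_zero]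
  | succ L ih =>
    rw [sum_lists_cons, sum_lists_cons]
    simp only [sp3, sum_add_distrib, ih, zero_add]
    congr 1
    · refine sum_congr rfl fun z _ => ?_
      rw [sum_lists_ind (Nat.le_succ L) fun l hl => by simp at hl; omega]
      exact sum_congr rfl fun s hs => by rw [ind_of (by simpa using hs), one_mul]
    · refine sum_congr rfl fun z _ => sum_congr rfl fun p _ => sum_congr rfl fun a _ => ?_
      rw [sum_lists_ind (Nat.le_succ L) fun l hl => by simp at hl; omega]
      exact sum_congr rfl fun s _ => congrArg (· * _) (ind_congr (by simp; omega))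

theorem sum_sp2_le (L : ℕ) (G : List V → List V → ℝ) (hG : ∀ p s, 0 ≤ G p s) :
    ∑ l ∈ lists V L, sp2 G l ≤ ∑ p ∈ lists V L, ∑ s ∈ lists V L, G p s := by
  rw [sum_sp2]
  exact sum_le_sum fun p _ => sum_le_sum fun s _ => ind_mul_le (hG p s) fun _ => le_rfl

theorem sum_sp3_le (L : ℕ) (G : List V → V → List V → ℝ) (hG : ∀ p z s, 0 ≤ G p z s) :
    ∑ l ∈ lists V L, sp3 G l ≤ ∑ p ∈ lists V L, ∑ z, ∑ s ∈ lists V L, G p z s := by
  rw [sum_sp3]
  exact sum_le_sum fun p _ => sum_le_sum fun z _ => sum_le_sum fun s _ =>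
    ind_mul_le (hG p z s) fun _ => le_rfl


end Lists

theorem sp3_mono {G G' : List V → V → List V → ℝ} {l : List V}
    (h : ∀ p z s, l = p ++ z :: s → G p z s ≤ G' p z s) : sp3 G l ≤ sp3 G' l := by
  induction l generalizing G G' with
  | nil => exact le_rfl
  | cons a l ih => exact add_le_add (h _ _ _ rfl) (ih fun p z s e => h (a :: p) z s (by rw [e]; rfl))

theorem sp3_congr {G G' : List V → V → List V → ℝ} {l : List V}
    (h : ∀ p z s, l = p ++ z :: s → G p z s = G' p z s) : sp3 G l = sp3 G' l :=   le_antisymm (sp3_mono fun p z s e => (h p z s e).le) (sp3_mono fun p z s e => (h p z s e).ge)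

theorem sp3_add (G G' : List V → V → List V → ℝ) (l : List V) :
    sp3 (fun p z s => G p z s + G' p z s) l = sp3 G l + sp3 G' l := by
  induction l generalizing G G' with
  | nil => simp [sp3]
  | cons a l ih => simp only [sp3]; rw [ih]; ring

theorem mul_sp3 (c : ℝ) (G : List V → V → List V → ℝ) (l : List V) :
    c * sp3 G l = sp3 (fun p z s => c * G p z s) l := by
  induction l generalizing G with
  | nil => simp [sp3]
  | cons a l ih => simp only [sp3]; rw [mul_add, ih]

theorem sp3_zero (l : List V) : sp3 (fun _ _ _ => 0) l = 0 := by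
  induction l with
  | nil => rfl
  | cons a l ih => simp only [sp3, ih, add_zero]

theorem sp3_nonneg {G : List V → V → List V → ℝ} (h : ∀ p z s, 0 ≤ G p z s) (l : List V) :
    0 ≤ sp3 G l :=   (sp3_zero l).ge.trans (sp3_mono fun p z s _ => h p z s)

theorem le_sp3 {G : List V → V → List V → ℝ} (h : ∀ p z s, 0 ≤ G p z s) (p : List V) (z : V)
    (s : List V) : G p z s ≤ sp3 G (p ++ z :: s) := by
  induction p generalizing G with
  | nil => exact le_add_of_nonneg_right (sp3_nonneg (fun _ _ _ => h _ _ _) _)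
  | cons a p ih =>
    exact (ih (G := fun p b s => G (a :: p) b s) fun _ _ _ => h _ _ _).trans
      (le_add_of_nonneg_left (h _ _ _))

theorem sp3_sum {ι : Type} (I : Finset ι) (G : ι → List V → V → List V → ℝ) (l : List V) :
    sp3 (fun p z s => ∑ i ∈ I, G i p z s) l = ∑ i ∈ I, sp3 (G i) l := by
  induction l generalizing G with
  | nil => simp [sp3]
  | cons a l ih => simp only [sp3, sum_add_distrib]; rw [ih fun i p b s => G i (a :: p) b s]

theorem sp3_ls (φ : V → ℝ) (l : List V) : sp3 (fun _ z _ => φ z) l = ls φ l := by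
  induction l with
  | nil => rfl
  | cons a l ih => simp only [sp3, ih, ls_cons]

theorem sp3_append (G : List V → V → List V → ℝ) (a b : List V) : sp3 G (a ++ b) =
    sp3 (fun p z s => G p z (s ++ b)) a + sp3 (fun p z s => G (a ++ p) z s) b := by
  induction a generalizing G with
  | nil => simp [sp3]
  | cons c a ih => simp only [sp3, List.cons_append, ih, add_assoc]

theorem sp3_rev (G : List V → V → List V → ℝ) (l : List V) :
    sp3 G l.reverse = sp3 (fun p z s => G s.reverse z p.reverse) l := by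
  induction l generalizing G with
  | nil => rfl
  | cons a l ih =>
    rw [List.reverse_cons, sp3_append, ih]
    simp [sp3, add_comm]

theorem sp3_fs (W : V → ℝ) (a : ℝ) (l : List V) :
    fs W a l = sp3 (fun p z _ => (W z / (a + ls W p)) ^ 2) l := by
  induction l generalizing a with
  | nil => rfl
  | cons z l ih => simp only [fs, sp3, ls_nil, add_zero, ls_cons, ih, add_assoc]

theorem sp3_fs_rev (W : V → ℝ) (a : ℝ) (l : List V) :
    fs W a l.reverse = sp3 (fun _ z s => (W z / (a + ls W s)) ^ 2) l := by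
  rw [sp3_fs, sp3_rev]; simp only [ls_reverse]

theorem sp2_left (G : List V → List V → ℝ) (l : List V) :
    sp2 G l = G [] l + sp3 (fun p z s => G (p ++ [z]) s) l := by
  induction l generalizing G with
  | nil => simp [sp2, sp3]
  | cons a l ih => simp only [sp2, sp3, ih, List.nil_append, List.cons_append]

theorem sp2_right (G : List V → List V → ℝ) (l : List V) :
    sp2 G l = sp3 (fun p z s => G p (z :: s)) l + G l [] := by
  induction l generalizing G with
  | nil => simp [sp2, sp3]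
  | cons a l ih => simp only [sp2, sp3, ih, add_assoc]

theorem sp2_mono {G G' : List V → List V → ℝ} {l : List V}
    (h : ∀ p s, l = p ++ s → G p s ≤ G' p s) : sp2 G l ≤ sp2 G' l := by
  rw [sp2_right, sp2_right]
  exact add_le_add (sp3_mono fun p z s e => h _ _ e) (h _ _ (by simp))

theorem sp2_congr {G G' : List V → List V → ℝ} {l : List V}
    (h : ∀ p s, l = p ++ s → G p s = G' p s) : sp2 G l = sp2 G' l :=   le_antisymm (sp2_mono fun p s e => (h p s e).le) (sp2_mono fun p s e => (h p s e).ge)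

theorem sp2_add (G G' : List V → List V → ℝ) (l : List V) :
    sp2 (fun p s => G p s + G' p s) l = sp2 G l + sp2 G' l := by
  simp only [sp2_right]
  rw [sp3_add]; ring

theorem mul_sp2 (c : ℝ) (G : List V → List V → ℝ) (l : List V) :
    c * sp2 G l = sp2 (fun p s => c * G p s) l := by
  simp only [sp2_right]
  rw [mul_add, mul_sp3]

theorem sp2_nonneg {G : List V → List V → ℝ} (h : ∀ p s, 0 ≤ G p s) (l : List V) :
    0 ≤ sp2 G l := by
  rw [sp2_right]
  exact add_nonneg (sp3_nonneg (fun _ _ _ => h _ _) _) (h _ _)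

theorem le_sp2 {G : List V → List V → ℝ} (h : ∀ p s, 0 ≤ G p s) (p s : List V) :
    G p s ≤ sp2 G (p ++ s) := by
  rw [sp2_right]
  rcases s with _ | ⟨z, s⟩
  · rw [List.append_nil]
    exact le_add_of_nonneg_left (sp3_nonneg (fun _ _ _ => h _ _) _)
  · exact (le_sp3 (G := fun p z s => G p (z :: s)) (fun _ _ _ => h _ _) p z s).trans
      (le_add_of_nonneg_right (h _ _))


theorem qw_nonneg {Q : V → V → ℝ} (h : ∀ x y, 0 ≤ Q x y) (x : V) (l : List V) (y : V) :
    0 ≤ qw Q x l y := by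
  induction l generalizing x with
  | nil => exact h _ _
  | cons z l ih => exact mul_nonneg (h _ _) (ih _)

theorem pw_nonneg {Q : V → V → ℝ} (h : ∀ x y, 0 ≤ Q x y) (x : V) (l : List V) :
    0 ≤ pw Q x l := by
  induction l generalizing x with
  | nil => exact zero_le_one
  | cons z l ih => exact mul_nonneg (h _ _) (ih _)

theorem sw_nonneg {Q : V → V → ℝ} (h : ∀ x y, 0 ≤ Q x y) (l : List V) (y : V) :
    0 ≤ sw Q l y := by
  cases l with
  | nil => exact zero_le_one
  | cons z l => exact qw_nonneg h _ _ _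

theorem qm_nonneg {Q c : V → V → ℝ} (h : ∀ x y, 0 ≤ Q x y) (hc : ∀ x y, 0 ≤ c x y) (x : V)
    (l : List V) (y : V) : 0 ≤ qm Q c x l y := by
  induction l generalizing x with
  | nil => exact hc _ _
  | cons z l ih =>
    exact add_nonneg (mul_nonneg (hc _ _) (qw_nonneg h _ _ _)) (mul_nonneg (h _ _) (ih _))

theorem qw_append (Q : V → V → ℝ) (x : V) (p : List V) (z : V) (s : List V) (y : V) :
    qw Q x (p ++ z :: s) y = qw Q x p z * qw Q z s y := by
  induction p generalizing x with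
  | nil => rfl
  | cons a p ih => simp only [List.cons_append, qw, ih, mul_assoc]

theorem pw_snoc (Q : V → V → ℝ) (x : V) (p : List V) (z : V) :
    pw Q x (p ++ [z]) = qw Q x p z := by
  induction p generalizing x with
  | nil => simp [pw, qw]
  | cons a p ih => simp only [List.cons_append, pw, qw, ih]

theorem lst_snoc (x : V) (p : List V) (z : V) : lst x (p ++ [z]) = z := by
  induction p generalizing x with
  | nil => rfl
  | cons a p ih => exact ih a

theorem qw_split (Q : V → V → ℝ) (x : V) (p s : List V) (y : V) :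
    qw Q x (p ++ s) y = pw Q x p * Q (lst x p) (hd s y) * sw Q s y := by
  induction p generalizing x with
  | nil => cases s <;> simp [pw, lst, hd, sw, qw]
  | cons a p ih => simp only [List.cons_append, qw, pw, lst, ih, mul_assoc]

theorem qm_eq (Q c : V → V → ℝ) (x : V) (l : List V) (y : V) :
    qm Q c x l y = sp2 (fun p s => pw Q x p * c (lst x p) (hd s y) * sw Q s y) l := by
  induction l generalizing x with
  | nil => simp [qm, sp2, pw, lst, hd, sw]
  | cons a l ih =>
    simp only [qm, sp2, pw, lst, hd, sw, ih, one_mul, mul_assoc]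
    rw [mul_sp2]

theorem fs_nonneg (W : V → ℝ) (a : ℝ) (l : List V) : 0 ≤ fs W a l := by
  induction l generalizing a with
  | nil => exact le_rfl
  | cons z l ih => exact add_nonneg (sq_nonneg _) (ih _)

theorem fs_append (W : V → ℝ) (a : ℝ) (p s : List V) :
    fs W a (p ++ s) = fs W a p + fs W (a + ls W p) s := by
  induction p generalizing a with
  | nil => simp [fs]
  | cons z p ih => simp only [List.cons_append, fs, ih, ls_cons, add_assoc]

theorem ph_nonneg {r : ℝ} : 0 ≤ ph r := le_min (by positivity) (by positivity)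

theorem ph_mono {r r' : ℝ} (h0 : 0 ≤ r) (h : r ≤ r') : ph r ≤ ph r' :=   min_le_min (pow_le_pow_left₀ h0 h _) (pow_le_pow_left₀ h0 h _)

theorem ph_of_one_le {r : ℝ} (h : 1 ≤ r) : ph r = r ^ 4 :=   min_eq_left (pow_le_pow_right₀ h (by norm_num))


/-- CHARGE for function valued uses, dual form -/
theorem charge' [Fintype V] {A : Type} (T : Finset A) (c k β : A → ℝ) (M : A → V → ℝ)
    (hc : ∀ a ∈ T, 0 ≤ c a) (hM : ∀ a ∈ T, ∀ u, 0 ≤ M a u)
    (h : ∀ a ∈ T, 0 < c a → ∑ u, M a u * ∑ b ∈ T, ind (k a ≤ k b) * (c b * M b u) ≤ β a)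
    {δ : ℝ} (hδ : 0 ≤ δ) (h2 : 2 * ∑ a ∈ T, c a * β a ≤ δ ^ 2) (φ : V → ℝ)
    (hφ : ∑ u, φ u ^ 2 ≤ 1) : ∑ a ∈ T, c a * ∑ u, M a u * φ u ≤ δ := by
  set P : A → A → ℝ := fun a b => ∑ u, c a * M a u * (c b * M b u) with hP
  have P0 : ∀ a ∈ T, ∀ b ∈ T, 0 ≤ P a b := fun a ha b hb => sum_nonneg fun u _ =>
    mul_nonneg (mul_nonneg (hc a ha) (hM a ha u)) (mul_nonneg (hc b hb) (hM b hb u))
  have Ps : ∀ a b, P a b = P b a := fun a b => sum_congr rfl fun u _ => mul_comm _ _
  have e1 : ∑ u, (∑ a ∈ T, c a * M a u) ^ 2 = ∑ a ∈ T, ∑ b ∈ T, P a b := by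
    simp only [sq, sum_mul_sum, hP]
    rw [sum_comm]
    exact sum_congr rfl fun a _ => sum_comm
  have e2 : ∑ a ∈ T, ∑ b ∈ T, ind (k a ≤ k b) * P a b ≤ ∑ a ∈ T, c a * β a := by
    refine sum_le_sum fun a ha => ?_
    have : ∑ b ∈ T, ind (k a ≤ k b) * P a b =
        c a * ∑ u, M a u * ∑ b ∈ T, ind (k a ≤ k b) * (c b * M b u) := by
      simp only [hP, mul_sum]
      rw [sum_comm]
      exact sum_congr rfl fun u _ => sum_congr rfl fun b _ => by ring
    rw [this]
    rcases (hc a ha).eq_or_lt with e | e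
    · rw [← e]; simp only [zero_mul, Std.le_refl]
    · exact mul_le_mul_of_nonneg_left (h a ha e) e.le
  have e3 : ∑ a ∈ T, ∑ b ∈ T, ind (k b ≤ k a) * P a b =
      ∑ a ∈ T, ∑ b ∈ T, ind (k a ≤ k b) * P a b := by
    rw [sum_comm]
    exact sum_congr rfl fun a _ => sum_congr rfl fun b _ => by rw [Ps]
  have e4 : ∑ u, (∑ a ∈ T, c a * M a u) ^ 2 ≤ δ ^ 2 := by
    rw [e1]
    calc _ ≤ ∑ a ∈ T, ∑ b ∈ T, (ind (k a ≤ k b) * P a b + ind (k b ≤ k a) * P a b) :=
          sum_le_sum fun a ha => sum_le_sum fun b hb => by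
            have := P0 a ha b hb
            have := mul_nonneg (ind_nonneg (k a ≤ k b)) this
            have := mul_nonneg (ind_nonneg (k b ≤ k a)) (P0 a ha b hb)
            rcases le_total (k a) (k b) with h | h <;> rw [ind_of h] <;> linarith
      _ ≤ _ := by simp only [sum_add_distrib]; linarith
  have := cs φ _ zero_le_one hδ (by simpa only [one_pow] using hφ) e4
  rw [one_mul] at this
  refine le_trans (le_of_eq ?_) this
  simp only [mul_sum]
  rw [sum_comm]
  exact sum_congr rfl fun u _ => sum_congr rfl fun a _ => by ring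


namespace Ker

variable [Fintype V] (K : Ker V)

@[simp] theorem P_nil : K.P [] = 0 := rfl
@[simp] theorem P_cons (z : V) (l : List V) : K.P (z :: l) = K.W z + K.P l := ls_cons _ _ _
@[simp] theorem P_append (p s : List V) : K.P (p ++ s) = K.P p + K.P s := ls_append _ _ _
@[simp] theorem P_reverse (l : List V) : K.P l.reverse = K.P l := ls_reverse _ _
theorem P_nonneg (l : List V) : 0 ≤ K.P l := ls_nonneg (fun u => (K.Wpos u).le) l
theorem qw0 (x : V) (l : List V) (y : V) : 0 ≤ qw K.Q x l y := qw_nonneg K.Q0 x l y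
/-- a time before the end is covered by a vertex -/
theorem exists_cover {l : List V} {t : ℝ} (h0 : 0 ≤ t) (h : t < K.P l) :
    ∃ p z s, l = p ++ z :: s ∧ K.P p ≤ t ∧ t < K.P p + K.W z := by
  induction l generalizing t with
  | nil => exact absurd h (by simpa only [P_nil, not_lt] using h0)
  | cons z l ih =>
    by_cases ht : t < K.W z
    · exact ⟨[], z, l, rfl, by simpa only [P_nil] using h0, by simpa using ht⟩
    · obtain ⟨a, u, b, e, h1, h2⟩ := ih (t := t - K.W z) (by linarith) (by simp at h; linarith)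
      exact ⟨z :: a, u, b, by rw [e]; rfl, by simp; linarith, by simp; linarith⟩

/-- of two splits the one with the smaller clock comes first -/
theorem split_lt {p p' s s' : List V} {z z' : V} (h : p ++ z :: s = p' ++ z' :: s')
    (hlt : K.P p < K.P p') : ∃ m, p' = p ++ z :: m ∧ s = m ++ z' :: s' := by
  rcases List.append_eq_append_iff.1 h with ⟨m, rfl, e⟩ | ⟨m, rfl, e⟩
  · rcases m with _ | ⟨a, m⟩
    · simp at hlt
    · obtain ⟨rfl, rfl⟩ := List.cons.inj e
      exact ⟨m, rfl, rfl⟩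
  · rw [P_append] at hlt
    linarith [K.P_nonneg m]

theorem fwd_left {R : ℝ} {x : V} {p s : List V} (h : K.fwd R x (p ++ s)) : K.fwd R x p := by
  unfold fwd at h ⊢
  rw [fs_append] at h
  linarith [fs_nonneg K.W (K.W x + ls K.W p) s]

theorem bwd_right {R : ℝ} {y : V} {p s : List V} (h : K.bwd R y (p ++ s)) : K.bwd R y s := by
  unfold bwd at h
  rw [List.reverse_append] at h
  exact K.fwd_left h

theorem fwd_le {R : ℝ} (hR : 0 ≤ R) {x z : V} {p s : List V} (h : K.fwd R x (p ++ z :: s)) :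
    K.W z ≤ R * (K.W x + K.P p) := by
  unfold fwd at h
  rw [fs_append] at h
  simp only [fs] at h
  have h1 : 0 < K.W x + K.P p := by linarith only [K.Wpos x, K.P_nonneg p]
  rw [← div_le_iff₀ h1]
  refine abs_le_of_sq_le_sq' ?_ hR |>.2
  unfold P
  linarith [fs_nonneg K.W (K.W x) p, fs_nonneg K.W (K.W x + ls K.W p + K.W z) s]

theorem bwd_le {R : ℝ} (hR : 0 ≤ R) {y z : V} {p s : List V} (h : K.bwd R y (p ++ z :: s)) :
    K.W z ≤ R * (K.W y + K.P s) := by
  unfold bwd at h
  rw [List.reverse_append, List.reverse_cons, List.append_assoc] at h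
  simpa using K.fwd_le hR h


theorem Z_nonneg (L : ℕ) (Φ : List V → Prop) (x y : V) : 0 ≤ K.Z L Φ x y :=   sum_nonneg fun _ _ => mul_nonneg (ind_nonneg _) (K.qw0 _ _ _)

theorem Z_mono (L : ℕ) {Φ Ψ : List V → Prop} (h : ∀ l, Φ l → Ψ l) (x y : V) :
    K.Z L Φ x y ≤ K.Z L Ψ x y :=   sum_le_sum fun l _ => mul_le_mul_of_nonneg_right (ind_mono (h l)) (K.qw0 _ _ _)

theorem Z_mono_len {L L' : ℕ} (h : L ≤ L') (Φ : List V → Prop) (x y : V) :
    K.Z L Φ x y ≤ K.Z L' Φ x y :=   sum_lists_mono h fun _ => mul_nonneg (ind_nonneg _) (K.qw0 _ _ _)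

theorem Z_or (L : ℕ) {Φ Ψ Ψ' : List V → Prop} (h : ∀ l, Φ l → Ψ l ∨ Ψ' l) (x y : V) :
    K.Z L Φ x y ≤ K.Z L Ψ x y + K.Z L Ψ' x y := by
  rw [Z, Z, Z, ← sum_add_distrib]
  refine sum_le_sum fun l _ => ?_
  rw [← add_mul]
  exact mul_le_mul_of_nonneg_right ((ind_mono (h l)).trans (ind_or_le _ _)) (K.qw0 _ _ _)

theorem Z_empty (L : ℕ) {Φ : List V → Prop} (h : ∀ l, ¬ Φ l) (x y : V) : K.Z L Φ x y = 0 :=   sum_eq_zero fun l _ => by rw [ind_not (h l), zero_mul]

theorem Z_pos {L : ℕ} {Φ : List V → Prop} {x y : V} (h : 0 < K.Z L Φ x y) :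
    ∃ l, Φ l ∧ 0 < qw K.Q x l y := by
  by_contra hc
  push Not at hc
  exact absurd (sum_nonpos fun l _ => ind_mul_le le_rfl (hc l)) (not_le.2 h)

theorem Z_zero (Φ : List V → Prop) (x y : V) : K.Z 0 Φ x y = ind (Φ []) * K.Q x y :=   sum_lists_zero _

theorem Z_succ (L : ℕ) (Φ : List V → Prop) (x y : V) : K.Z (L + 1) Φ x y =
    ind (Φ []) * K.Q x y + ∑ z, K.Q x z * K.Z L (fun l => Φ (z :: l)) z y := by
  rw [Z, sum_lists_cons]
  simp only [Z, qw, mul_sum, mul_left_comm]

theorem Z_succ' (L : ℕ) (Φ : List V → Prop) (x y : V) : K.Z (L + 1) Φ x y =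
    ind (Φ []) * K.Q x y + ∑ z, K.Z L (fun l => Φ (l ++ [z])) x z * K.Q z y := by
  rw [Z, sum_lists_snoc]
  simp only [Z, qw, qw_append, sum_mul, mul_assoc]

/-- CUT -/
theorem Z_cut (L : ℕ) {Φ : List V → Prop} (Ψ : List V → V → List V → Prop)
    (h : ∀ l, Φ l → ∃ p z s, l = p ++ z :: s ∧ Ψ p z s) (x y : V) : K.Z L Φ x y ≤
    ∑ p ∈ lists V L, ∑ z, qw K.Q x p z * K.Z L (fun s => Ψ p z s) z y := by
  have h0 : ∀ a z b, 0 ≤ qw K.Q x a z * (ind (Ψ a z b) * qw K.Q z b y) := fun a z b =>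
    mul_nonneg (K.qw0 _ _ _) (mul_nonneg (ind_nonneg _) (K.qw0 _ _ _))
  have := sum_sp3_le L _ h0
  simp only [Z, mul_sum]
  refine le_trans (sum_le_sum fun l _ => ?_) this
  refine ind_mul_le (sp3_nonneg h0 l) fun hl => ?_
  obtain ⟨a, z, b, rfl, h1⟩ := h l hl
  refine le_trans ?_ (le_sp3 h0 a z b)
  rw [ind_of h1, one_mul, qw_append]

theorem Z_cut' (L : ℕ) {Φ : List V → Prop} (Φ₁ Φ₂ : V → List V → Prop)
    (h : ∀ l, Φ l → ∃ p z s, l = p ++ z :: s ∧ Φ₁ z p ∧ Φ₂ z s) (x y : V) :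
    K.Z L Φ x y ≤ ∑ z, K.Z L (Φ₁ z) x z * K.Z L (Φ₂ z) z y := by
  refine (K.Z_cut L (fun a z b => Φ₁ z a ∧ Φ₂ z b) h x y).trans (le_of_eq ?_)
  rw [sum_comm]
  refine sum_congr rfl fun z _ => ?_
  simp only [Z, ind_and]
  rw [sum_mul_sum]
  simp only [mul_sum]
  exact sum_congr rfl fun a _ => sum_congr rfl fun b _ => by ring


@[simp] theorem rev_W : K.rev.W = K.W := rfl
@[simp] theorem rev_P (l : List V) : K.rev.P l = K.P l := rfl
theorem rev_rev : K.rev.rev = K := by
  obtain ⟨Q, W, a, b, c, d⟩ := K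
  simp only [rev, mk.injEq, and_true]
  funext x y
  have := (one_pos.trans_le (b x)).ne'
  have := (one_pos.trans_le (b y)).ne'
  field_simp

theorem qw_rev (x : V) (l : List V) (y : V) :
    qw K.rev.Q y l.reverse x = K.W x ^ 40 * qw K.Q x l y / K.W y ^ 40 := by
  induction l generalizing x with
  | nil => rfl
  | cons z l ih =>
    have := (K.Wpos z).ne'
    rw [List.reverse_cons, qw_append, ih]
    simp only [qw, rev]; field_simp

theorem Z_rev (L : ℕ) (Φ : List V → Prop) (x y : V) :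
    K.rev.Z L Φ y x = K.W x ^ 40 * K.Z L (fun l => Φ l.reverse) x y / K.W y ^ 40 := by
  rw [Z, Z, ← sum_lists_rev, mul_sum, sum_div]
  exact sum_congr rfl fun l _ => by rw [qw_rev]; ring

theorem rev_fwd (R : ℝ) (y : V) (l : List V) : K.rev.fwd R y l.reverse ↔ K.bwd R y l := Iff.rfl
theorem rev_bwd (R : ℝ) (x : V) (l : List V) : K.rev.bwd R x l.reverse ↔ K.fwd R x l := by
  simp [fwd, bwd]

theorem rev_GG (R g D T : ℝ) (x y : V) (l : List V) :
    K.rev.GG R g D T y x l.reverse ↔ K.GG R g D T x y l := by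
  simp only [GG, rev_P, P_reverse, List.mem_reverse, rev_W, rev_fwd, rev_bwd]
  tauto

theorem rev_le_iff (L : ℕ) (Φ : List V → Prop) (x y : V) (c a : ℝ) :
    K.rev.Z L Φ y x ≤ c * (K.W x / a) ^ 40 ↔
      K.Z L (fun l => Φ l.reverse) x y ≤ c * (K.W y / a) ^ 40 := by
  have hx := pow_pos (K.Wpos x) 40
  have hy := pow_pos (K.Wpos y) 40
  rw [Z_rev, div_le_iff₀ hy, ← mul_le_mul_iff_right₀ hx (b := K.Z L _ x y), div_pow, div_pow]
  exact iff_of_eq (by congr 1; ring)

theorem BC.rev {K : Ker V} {L : ℕ} {e : ℝ} (h : K.BC L e) : K.rev.BC L e := by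
  intro x z g s h0 h1 h2 h3
  refine (K.rev_le_iff L _ z x _ _).2 ?_
  simpa only [P_reverse, rev_P] using h z x g s h0 h2 h1 h3

theorem nvb_of_rev {L : ℕ} {R η T : ℝ} (h : K.rev.NVf L R η T) : K.NVb L R η T := fun x y a ha => by
  simpa only [P_reverse, rev_P, rev_fwd] using (K.rev_le_iff L _ x y _ _).1 (h y x a ha)

theorem Calm.rev {K : Ker V} {L : ℕ} {R η e T : ℝ} (h : K.Calm L R η e T) :
    K.rev.Calm L R η e T := by
  refine ⟨h.R1, h.η0, h.η1, h.e0, h.bc.rev, fun x y a ha => (K.rev_le_iff L _ y x _ _).2 ?_,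
    K.rev.nvb_of_rev (K.rev_rev.symm ▸ h.nf)⟩
  simpa only [P_reverse, rev_P, rev_fwd] using h.nb y x a ha

/-- SufSmall in forward terms -/
theorem small_rev {L : ℕ} {R T be : ℝ} (h : K.rev.Small L R T be) (z y : V) (sc : ℝ)
    (h0 : 0 < sc) (hz : K.W z ≤ R * sc) :
    K.W z ^ 40 * K.Z L (fun l => sc ≤ K.W y + K.P l ∧ K.P l < T ∧ K.bwd R y l) z y ≤
      be * (K.W z / sc) ^ 2 * K.W y ^ 40 := by
  have := h y z sc h0 hz
  rw [Z_rev, div_le_iff₀ (pow_pos (K.Wpos y) 40)] at this
  simpa only [ge_iff_le, rev_W, P_reverse, rev_P, rev_fwd] using this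


end Ker

theorem Sys.c_nonneg [Fintype V] {D : V → V → Prop} (s : Sys D) {φ : V → ℝ} (h : ∀ u, 0 ≤ φ u)
    (z t : V) : 0 ≤ s.c φ z t :=   sum_nonneg fun u _ => mul_nonneg (s.m0 _ _ _) (h u)


/-- WALK: a path of positive weight gives a walk of `D` of at most average length -/
theorem Sys.walk [Fintype V] {D : V → V → Prop} (s : Sys D) {φ : V → ℝ} (h : ∀ u, 0 ≤ φ u)
    (x : V) (l : List V) (y : V) (hp : 0 < qw s.Q x l y) :
    ∃ l', List.IsChain D (x :: (l' ++ [y])) ∧
      ls φ l' * qw s.Q x l y ≤ ls φ l * qw s.Q x l y + qm s.Q (s.c φ) x l y := by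
  induction l generalizing x with
  | nil => simpa only [qw, ls_nil, zero_mul, qm, c, zero_add] using s.M1 φ h x y hp
  | cons z l ih =>
    simp only [qw] at hp
    have h1 : 0 < s.Q x z := (s.Q0 x z).lt_of_ne fun e => by rw [← e] at hp; simp at hp
    have h2 : 0 < qw s.Q z l y := (mul_pos_iff_of_pos_left h1).1 hp
    obtain ⟨a, a1, a2⟩ := s.M1 φ h x z h1
    obtain ⟨b, b1, b2⟩ := ih z h2
    refine ⟨a ++ z :: b, ?_, ?_⟩
    · rw [List.append_assoc, List.cons_append, List.isChain_cons_split]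
      exact ⟨a1, b1⟩
    · simp only [ls_append, ls_cons, qw, qm, Sys.c] at *
      linarith only [mul_le_mul_of_nonneg_right a2 h2.le, mul_le_mul_of_nonneg_left b2 h1.le]


end Pool.Agent.MP_114209_co.H79
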