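import Pool.Agent.MP_114209_co.H79.Base

attribute [-instance] AddQuantale.instAddLeftMono IdemSemiring.toCanonicallyOrderedAdd
  covariant_swap_mul_of_covariant_mul NumberField.to_charZero AddQuantale.instAddRightMono
  LinearOrderedCommMonoidWithZero.toPosMulStrictMono RKHS.instFunLike Quantale.instMulRightMono
  IsOrderedMonoid.toMulLeftMono Quantale.instMulLeftMono IdemSemiring.toMulLeftMono
  Group.IsPerfect.subsingleton_of_isMulCommutative AddGroupWithOne.toAddGroup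
  Fintype.decidableExistsFintype CanonicallyOrderedAdd.toMulLeftMono instCoeTCOfCoe
  NonUnitalNonAssocRing.toAddCommGroup instCoeTOfCoeDep

/-! Section 3: kernels. -/

namespace Pool.Agent.MP_114209_co.H79

open Finset

variable {V : Type} [Fintype V]

namespace Ker

variable (K : Ker V)

theorem k3a_one (x : V) (c : ℝ) (f : V → ℝ) (hc : 0 ≤ c) (hf : ∀ z, f z ≤ c) :
    ∑ z, K.Q x z * f z ≤ c := by
  refine (sum_le_sum fun z _ => mul_le_mul_of_nonneg_left (hf z) (K.Q0 x z)).trans ?_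
  rw [← sum_mul]; exact mul_le_of_le_one_left hc (K.row x)

theorem occf (L : ℕ) (x : V) (s wb : ℝ) (hs : 0 ≤ s) (hw : 0 ≤ wb) :
    ∑ z, K.Z L (fun l => K.P l ≤ s) x z * min (K.W z) wb ≤ s + wb := by
  induction L generalizing s x with
  | zero =>
    simp only [Z_zero, P_nil, ind_of hs, one_mul]
    exact K.k3a_one x _ _ (by linarith) fun z => (min_le_right _ _).trans (by linarith)
  | succ L ih =>
    simp only [Z_succ, P_nil, ind_of hs, one_mul, add_mul, sum_add_distrib, sum_mul, mul_assoc]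
    rw [sum_comm, ← sum_add_distrib]
    simp only [← mul_sum, ← mul_add]
    refine K.k3a_one x _ _ (by linarith) fun u => ?_
    by_cases h : K.W u ≤ s
    · have := ih u (s - K.W u) (by linarith)
      simp only [P_cons, ← le_sub_iff_add_le']
      linarith [min_le_left (K.W u) wb]
    · rw [sum_eq_zero fun z _ => by
        rw [K.Z_empty _ fun l hl => h (by rw [P_cons] at hl; linarith [K.P_nonneg l]), zero_mul]]
      linarith [min_le_right (K.W u) wb]


theorem occb (L : ℕ) (z : V) (s wb : ℝ) (hs : 0 ≤ s) (hw : 0 ≤ wb) :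
    ∑ x, K.W x ^ 40 * min (K.W x) wb * K.Z L (fun l => K.P l ≤ s) x z ≤
      (s + wb) * K.W z ^ 40 := by
  have := K.rev.occf L z s wb hs hw
  simp only [Z_rev, P_reverse, rev_P, rev_W, div_mul_eq_mul_div] at this
  rw [← sum_div, div_le_iff₀ (pow_pos (K.Wpos z) 40)] at this
  simpa only [mul_right_comm] using this


/-- a family of paths none of which extends another one has weight at most one -/
theorem anti (L : ℕ) (Φ : V → List V → Prop) (x : V)
    (h : ∀ p z s y, Φ z p → Φ y (p ++ z :: s) → qw K.Q z s y = 0) :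
    ∑ y, K.Z L (Φ y) x y ≤ 1 := by
  induction L generalizing Φ x with
  | zero =>
    simp only [Z_zero, mul_comm _ (K.Q _ _)]
    exact K.k3a_one x _ _ zero_le_one fun _ => ind_le_one _
  | succ L ih =>
    simp only [Z_succ, sum_add_distrib, mul_comm _ (K.Q _ _)]
    rw [sum_comm, ← sum_add_distrib]
    simp only [← mul_sum, ← mul_add]
    refine K.k3a_one x _ _ zero_le_one fun u => ?_
    by_cases hu : Φ u []
    · rw [ind_of hu, sum_eq_zero, add_zero]
      intro y _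
      refine sum_eq_zero fun l _ => ?_
      by_cases hl : Φ y (u :: l)
      · rw [h [] u l y hu hl, mul_zero]
      · rw [ind_not hl, zero_mul]
    · rw [ind_not hu, zero_add]
      exact ih (fun y l => Φ y (u :: l)) u fun p z s y a b => h (u :: p) z s y a b

theorem cov (L : ℕ) (x : V) (t : ℝ) :
    ∑ z, K.Z L (fun l => K.P l ≤ t ∧ t < K.P l + K.W z) x z ≤ 1 :=   K.anti L (fun y l => K.P l ≤ t ∧ t < K.P l + K.W y) x fun p z s y a b => by
    have := b.1
    simp only [P_append, P_cons] at this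
    linarith [a.2, K.P_nonneg s]


theorem qw_of_row {z : V} (h : ∀ u, K.Q z u = 0) (s : List V) (y : V) : qw K.Q z s y = 0 := by
  cases s <;> simp only [qw, h, zero_mul]

theorem Z_of_row {x : V} (h : ∀ u, K.Q x u = 0) (L : ℕ) (Φ : List V → Prop) (y : V) :
    K.Z L Φ x y = 0 :=   sum_eq_zero fun l _ => by rw [K.qw_of_row h, mul_zero]


theorem abs_A (A : Finset V) (hA : ∀ x ∈ A, ∀ u, K.Q x u = 0) (L : ℕ) (Φ : V → List V → Prop)
    (x : V) : ind (x ∈ A) + ∑ t ∈ A, K.Z L (Φ t) x t ≤ 1 := by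
  by_cases hx : x ∈ A
  · rw [ind_of hx, sum_eq_zero fun t _ => K.Z_of_row (hA x hx) _ _ _, add_zero]
  rw [ind_not hx, zero_add]
  refine le_trans ?_ (K.anti L (fun y l => y ∈ A ∧ Φ y l) x
    fun p z s y a _ => K.qw_of_row (hA z a.1) s y)
  exact le_trans (sum_le_sum fun t ht => K.Z_mono L (fun l h => ⟨ht, h⟩) x t)
    (sum_le_sum_of_subset_of_nonneg (subset_univ A) fun _ _ _ => K.Z_nonneg _ _ _ _)


theorem green (μ lam : V → ℝ) (hμ : ∀ u, 0 ≤ μ u) (hl : ∀ u, 0 ≤ lam u)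
    (h : ∀ u, μ u + ∑ x, lam x * K.Q x u ≤ lam u) (L : ℕ) (Φ : V → List V → Prop) (z : V) :
    μ z + ∑ c, μ c * K.Z L (Φ c) c z ≤ lam z := by
  have key : ∀ L z, μ z + ∑ c, μ c * K.Z L (fun _ => True) c z ≤ lam z := by
    intro L
    induction L with
    | zero =>
      intro z
      simp only [Z_zero, ind_of trivial, one_mul]
      refine le_trans (add_le_add le_rfl (sum_le_sum fun c _ =>
        mul_le_mul_of_nonneg_right ?_ (K.Q0 _ _))) (h z)
      exact le_trans (le_add_of_nonneg_right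
        (sum_nonneg fun x _ => mul_nonneg (hl x) (K.Q0 _ _))) (h c)
    | succ L ih =>
      intro z
      simp only [Z_succ', ind_of trivial, one_mul, mul_add, sum_add_distrib, mul_sum, ← mul_assoc]
      rw [sum_comm, ← sum_add_distrib]
      simp only [← sum_mul, ← add_mul]
      exact le_trans (add_le_add le_rfl (sum_le_sum fun c _ =>
        mul_le_mul_of_nonneg_right (ih c) (K.Q0 _ _))) (h z)
  exact le_trans (add_le_add le_rfl (sum_le_sum fun c _ =>
    mul_le_mul_of_nonneg_left (K.Z_mono _ (fun _ _ => trivial) _ _) (hμ c))) (key L z)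


theorem Sur_nonneg [DecidableEq V] (L : ℕ) (A : Finset V) (s : ℝ) (x : V) : 0 ≤ K.Sur L A s x :=
  sum_nonneg fun _ _ => K.Z_nonneg _ _ _ _

theorem cons [DecidableEq V] (A : Finset V) (w0 : ℝ) (hw : 0 ≤ w0)
    (hrow : ∀ x ∉ A, 1 - w0 * K.W x ≤ ∑ u, K.Q x u) (L : ℕ) (s : ℝ) (hs : 0 ≤ s)
    (hL : s < L + 1) (x : V) (hx : x ∉ A) :
    1 - w0 * (K.W x + s) ≤ ∑ t ∈ A, K.Z L (fun l => K.P l ≤ s) x t + K.Sur L A s x := by
  induction L generalizing s x with
  | zero =>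
    have e : ∀ y, ind (s < K.W y) = 1 := fun y => ind_of (by have := K.W1 y; simp at hL; linarith)
    simp only [Sur, Z_zero, P_nil, ind_and, ind_of hs, zero_add, e, one_mul, sum_add_sum_compl]
    linarith only [hrow x hx, mul_nonneg hw hs]
  | succ L ih =>
    by_cases h1 : 1 - w0 * s ≤ 0
    · have := K.Sur_nonneg (L + 1) A s x
      have := sum_nonneg fun t (_ : t ∈ A) => K.Z_nonneg (L + 1) (fun l => K.P l ≤ s) x t
      nlinarith [mul_nonneg hw (K.Wpos x).le]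
    have e1 : ∑ t ∈ A, K.Q x t = ∑ u, K.Q x u * ind (u ∈ A) := by
      rw [← sum_add_sum_compl A, sum_eq_zero (s := Aᶜ) fun u hu => by
        rw [ind_not (mem_compl.1 hu), mul_zero], add_zero]
      exact sum_congr rfl fun u hu => by rw [ind_of hu, mul_one]
    have e2 : ∑ y ∈ Aᶜ, ind (s < K.W y) * K.Q x y = ∑ u, K.Q x u * ind (u ∉ A ∧ s < K.W u) := by
      rw [← sum_add_sum_compl A, sum_eq_zero (s := A) fun u hu => by
        rw [ind_not fun h => h.1 hu, mul_zero], zero_add]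
      exact sum_congr rfl fun u hu => by rw [ind_and, ind_of (mem_compl.1 hu), one_mul, mul_comm]
    simp only [Sur, Z_succ, P_nil, ind_and, ind_of hs, zero_add, one_mul, sum_add_distrib]
    rw [e1, e2, sum_comm, sum_comm (s := Aᶜ)]
    simp only [← sum_add_distrib, ← mul_sum, ← mul_add]
    have : (1 - w0 * K.W x) * (1 - w0 * s) ≤ ∑ u, K.Q x u * (1 - w0 * s) := by
      rw [← sum_mul]; exact mul_le_mul_of_nonneg_right (hrow x hx) (by linarith)
    refine le_trans (by linarith only [mul_nonneg (mul_nonneg hw (K.Wpos x).le) (mul_nonneg hw hs)])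
      (this.trans (sum_le_sum fun u _ => mul_le_mul_of_nonneg_left ?_ (K.Q0 _ _)))
    have n1 := sum_nonneg fun t (_ : t ∈ A) => K.Z_nonneg L (fun l => K.P (u :: l) ≤ s) u t
    have n2 := sum_nonneg fun t (_ : t ∈ Aᶜ) =>
      K.Z_nonneg L (fun l => K.P (u :: l) ≤ s ∧ s < K.P (u :: l) + K.W t) u t
    have n3 := ind_nonneg (u ∈ A)
    have n4 := ind_nonneg (u ∉ A ∧ s < K.W u)
    have n5 := mul_nonneg hw hs
    by_cases hu : u ∈ A
    · rw [ind_of hu]; linarith only [n1, n2, n4, n5]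
    by_cases hs' : s < K.W u
    · rw [ind_of (And.intro hu hs')]; linarith only [n1, n2, n3, n5]
    have := ih (s - K.W u) (by linarith) (by have := K.W1 u; push_cast at hL; linarith only [this, hL]) u hu
    simp only [Sur, le_sub_iff_add_le', sub_lt_iff_lt_add', ← add_assoc] at this
    simp only [P_cons]
    have e : K.W u + s - K.W u = s := by ring
    rw [← add_sub_assoc, e] at this
    linarith only [n3, n4, this]


theorem k3b_nv {L : ℕ} {R η : ℝ} (hη : 0 ≤ η) (j : ℕ) (h : ∀ i < j, ¬ K.Vf L R η (2 ^ i)) :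
    K.NVf L R η (2 ^ j) := by
  intro x y a ha
  have key : ∀ j : ℕ, (∀ i < j, ¬ K.Vf L R η (2 ^ i)) → a < 2 * 2 ^ j →
      K.Z L (fun l => a ≤ K.P l ∧ K.P l < 2 ^ j ∧ K.fwd R x l) x y ≤
        η * (2 * (2 * K.W y / a) ^ 40 - 2 * (K.W y / 2 ^ j) ^ 40) := by
    have pos : ∀ j : ℕ, a < 2 * 2 ^ j →
        0 ≤ η * (2 * (2 * K.W y / a) ^ 40 - 2 * (K.W y / 2 ^ j) ^ 40) := fun j hj => by
      have := K.Wpos y
      have : (K.W y / 2 ^ j) ^ 40 ≤ (2 * K.W y / a) ^ 40 := pow_le_pow_left₀ (by positivity) (by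
        rw [div_le_div_iff₀ (by positivity) ha]; nlinarith only [hj, this]) _
      exact mul_nonneg hη (by linarith)
    intro j
    induction j with
    | zero =>
      intro _ hj
      rw [K.Z_empty]
      · exact pos 0 hj
      · rintro (_ | ⟨z, l⟩) ⟨h1, h2, -⟩
        · simp at h1; linarith
        · have := K.W1 z; have := K.P_nonneg l
          simp at h2; linarith
    | succ j ih =>
      intro h hj
      by_cases hj' : a < 2 * 2 ^ j
      · have h1 := ih (fun i hi => h i (by omega)) hj'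
        have h2 := h j (by omega)
        simp only [Vf, not_exists, not_lt] at h2
        refine (K.Z_or L (Ψ := fun l => a ≤ K.P l ∧ K.P l < 2 ^ j ∧ K.fwd R x l)
          (Ψ' := fun l => 2 ^ j ≤ K.P l ∧ K.P l < 2 * 2 ^ j ∧ K.fwd R x l) (fun l hl => ?_) x y).trans
          ((add_le_add h1 (h2 x y)).trans ?_)
        · rcases lt_or_ge (K.P l) (2 ^ j) with e | e
          · exact Or.inl ⟨hl.1, e, hl.2.2⟩
          · exact Or.inr ⟨e, by rw [← pow_succ']; exact hl.2.1, hl.2.2⟩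
        · have e : (K.W y / 2 ^ (j + 1)) ^ 40 = (K.W y / 2 ^ j) ^ 40 / 2 ^ 40 := by
            rw [← div_pow, div_div, ← pow_succ]
          have : 0 ≤ (K.W y / 2 ^ j) ^ 40 := by positivity
          rw [e, ← mul_add]
          exact mul_le_mul_of_nonneg_left (by linarith only [this]) hη
      · rw [K.Z_empty]
        · exact pos _ hj
        · rintro l ⟨h1, h2, -⟩
          rw [pow_succ'] at h2; linarith
  by_cases hj : a < 2 * 2 ^ j
  · refine (key j h hj).trans ?_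
    have : 0 ≤ (K.W y / 2 ^ j) ^ 40 := by positivity
    rw [mul_div_assoc, mul_pow]
    nlinarith only [hη, this]
  · rw [K.Z_empty]
    · positivity
    · rintro l ⟨h1, h2, -⟩
      have : (0 : ℝ) < 2 ^ j := by positivity
      linarith

theorem nvsum (L : ℕ) (R η T : ℝ) (hη : 0 ≤ η)
    (h : ∀ j : ℕ, (2 : ℝ) ^ j < T → ¬ K.Vf L R η (2 ^ j)) : K.NVf L R η T := by
  have ex : ∃ j : ℕ, T ≤ 2 ^ j := (pow_unbounded_of_one_lt T one_lt_two).imp fun _ h => h.le
  intro x y a ha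
  exact (K.Z_mono L (fun l hl => ⟨hl.1, hl.2.1.trans_le (Nat.find_spec ex), hl.2.2⟩) x y).trans
    (K.k3b_nv hη (Nat.find ex) (fun i hi => h i (not_le.1 (Nat.find_min ex hi))) x y a ha)


end Ker

theorem Ker.Z_le_clock (K : Ker V) (L : ℕ) {s : ℝ} (hs : 0 ≤ s) (x z : V) :
    K.Z L (fun l => K.P l ≤ s) x z ≤ 1 + s / K.W z := by
  have h := K.Wpos z
  have := (single_le_sum (f := fun u => K.Z L (fun l => K.P l ≤ s) x u * min (K.W u) (K.W z))
    (fun u _ => mul_nonneg (K.Z_nonneg _ _ _ _) (le_min (K.Wpos u).le h.le)) (mem_univ z)).trans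
    (K.occf L x s _ hs h.le)
  rw [min_self, ← le_div_iff₀ h, add_div, div_self h.ne'] at this
  linarith

/-- first step form with a common continuation -/
theorem Ker.Z_first (K : Ker V) (L : ℕ) {s : ℝ} (hs : 0 ≤ s) (z : V) : ∃ Y : V → ℝ, (∀ u, 0 ≤ Y u) ∧
    (∀ x, K.Z L (fun l => K.P l ≤ s) x z = ∑ u, K.Q x u * Y u) ∧
    ∀ u, Y u ≤ ind (z = u) + K.Z L (fun l => K.P l ≤ s) u z := by
  have e : ∀ x, ∑ u, K.Q x u * ind (z = u) = K.Q x z := fun x => by
    simp only [mul_comm (K.Q x _)]; exact sum_ind_eq z _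
  rcases L with _ | L
  · refine ⟨fun u => ind (z = u), fun _ => ind_nonneg _, fun x => ?_,
      fun u => le_add_of_nonneg_right (K.Z_nonneg _ _ _ _)⟩
    rw [e, Ker.Z_zero, Ker.P_nil, ind_of hs, one_mul]
  · refine ⟨fun u => ind (z = u) + K.Z L (fun l => K.P (u :: l) ≤ s) u z,
      fun _ => add_nonneg (ind_nonneg _) (K.Z_nonneg _ _ _ _), fun x => ?_,
      fun u => add_le_add le_rfl ((K.Z_mono _ (fun l hl => ?_) _ _).trans (K.Z_mono_len (Nat.le_succ L) _ _ _))⟩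
    · simp only [mul_add, sum_add_distrib, e, Ker.Z_succ, Ker.P_nil, ind_of hs, one_mul]
    · rw [Ker.P_cons] at hl; linarith [K.Wpos u]

theorem Sys.bc0 {D : V → V → Prop} (s : Sys D) (L : ℕ) (x z : V) (t Y : ℝ) (ht : 0 ≤ t)
    (hY0 : 0 ≤ Y) (hY : ∀ u ∉ s.A, ind (u = z) + s.toKer.Z L (fun l => s.toKer.P l ≤ t) u z ≤ Y) :
    s.W x ^ 40 * s.toKer.Z L (fun l => s.toKer.P l ≤ t) x z ≤
      s.e * (s.W x ^ 40 * (Y + 1) + (1 + t / s.W x) * s.W z ^ 40) := by
  obtain ⟨F, F0, F1, F2⟩ := s.Z_first L ht z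
  have hx := s.Wpos x
  have hL := pow_pos hx 40
  have m0 : ∀ x', 0 ≤ min 1 (s.W x' / s.W x) := fun x' =>
    le_min zero_le_one (div_pos (s.Wpos _) hx).le
  have key : ∀ u, s.W x ^ 40 * (s.Q x u * F u) ≤ s.W x ^ 40 * (ind (z = u) * s.e) +
      s.W x ^ 40 * (s.pr x u * Y) +
      s.e * ∑ x', min 1 (s.W x' / s.W x) * (s.W x' ^ 40 * (s.Q x' u * F u)) := fun u => by
    have n1 : 0 ≤ s.W x ^ 40 * (ind (z = u) * s.e) :=
      mul_nonneg hL.le (mul_nonneg (ind_nonneg _) s.e0)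
    have n2 : 0 ≤ s.W x ^ 40 * (s.pr x u * Y) := mul_nonneg hL.le (mul_nonneg (s.pr0 _ _) hY0)
    have n3 : 0 ≤ s.e * ∑ x', min 1 (s.W x' / s.W x) * (s.W x' ^ 40 * (s.Q x' u * F u)) :=
      mul_nonneg s.e0 (sum_nonneg fun x' _ => mul_nonneg (m0 _)
        (mul_nonneg (pow_pos (s.Wpos _) 40).le (mul_nonneg (s.Q0 _ _) (F0 _))))
    by_cases hu : u ∈ s.A
    · have := F2 u
      rw [s.Z_of_row (s.rowA u hu), add_zero] at this
      have : s.Q x u * F u ≤ ind (z = u) * s.e := by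
        rw [mul_comm]; exact mul_le_mul this (s.S6a _ _) (s.Q0 _ _) (ind_nonneg _)
      linarith [mul_le_mul_of_nonneg_left this hL.le]
    · have a := mul_le_mul_of_nonneg_right (s.S6b x u hu) (F0 u)
      have b := mul_le_mul_of_nonneg_left
        (mul_le_mul_of_nonneg_left ((F2 u).trans ((ind_congr eq_comm ▸ hY u hu :))) (s.pr0 x u)) hL.le
      simp only [add_mul, mul_assoc, sum_mul] at a
      linarith
  rw [F1, mul_sum]
  refine (sum_le_sum fun u _ => key u).trans ?_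
  simp only [sum_add_distrib, ← mul_sum, ← sum_mul]
  rw [sum_comm]
  simp only [← mul_sum, ← F1]
  have a1 : ∑ u, ind (z = u) = 1 := by simpa only [mul_one] using sum_ind_eq z fun _ => 1
  have a2 := mul_le_mul_of_nonneg_left (mul_le_mul_of_nonneg_right (s.S6c x) hY0) hL.le
  have a3 : ∑ x', min 1 (s.W x' / s.W x) * (s.W x' ^ 40 * s.Z L (fun l => s.P l ≤ t) x' z) ≤
      (1 + t / s.W x) * s.W z ^ 40 := by
    have := div_le_div_of_nonneg_right (s.occb L z t _ ht hx.le) hx.le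
    rw [sum_div] at this
    refine le_trans (le_of_eq (sum_congr rfl fun x' _ => ?_)) (this.trans (le_of_eq ?_))
    · rw [← div_self hx.ne', min_div_div_right hx.le, min_comm]; ring
    · field_simp; ring
  rw [a1]
  linarith only [mul_le_mul_of_nonneg_left a3 s.e0, a2]


theorem Sys.bc {D : V → V → Prop} (s : Sys D) (L : ℕ) : s.toKer.BC L s.e := by
  intro x z g t hg hx hz ht
  have x0 := s.Wpos x
  have z0 := s.Wpos z
  have := s.bc0 L x z t (2 + t / s.W z) ht (by positivity) fun u _ => by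
    linarith [ind_le_one (u = z), s.Z_le_clock L ht u z]
  rw [← mul_le_mul_iff_right₀ (pow_pos x0 40)]
  refine this.trans ?_
  have a1 : t / s.W z ≤ t / g := by gcongr
  have a2 : t / s.W x ≤ t / g := by gcongr
  have a3 : 1 ≤ (s.W z / g) ^ 40 := one_le_pow₀ ((one_le_div hg).2 hz)
  have a4 : s.W z ^ 40 ≤ s.W x ^ 40 * (s.W z / g) ^ 40 := by
    rw [← mul_pow, mul_div_assoc', mul_comm, mul_div_assoc]
    exact pow_le_pow_left₀ z0.le (le_mul_of_one_le_right z0.le ((one_le_div hg).2 hx)) _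
  have he := s.e0
  calc _ ≤ s.e * (s.W x ^ 40 * (s.W z / g) ^ 40 * (2 + t / g + 1) +
        (1 + t / g) * (s.W x ^ 40 * (s.W z / g) ^ 40)) := by
        gcongr
        exact le_mul_of_one_le_right (pow_pos x0 40).le a3
    _ = _ := by ring


theorem k3c_one {a : ℝ} (ha : 1 ≤ a) (n : ℕ) :
    ∑ k ∈ range n, 1 / (max a k) ^ 2 ≤ if (n : ℝ) ≤ a + 1 then n / a ^ 2 else 4 / a - 1 / (n - 1) := by
  have a0 : 0 < a := by linarith
  induction n with
  | zero => rw [if_pos (by simp only [CharP.cast_eq_zero]; linarith)]; simp only [range_zero, one_div, sum_empty, CharP.cast_eq_zero, zero_div, Std.le_refl]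
  | succ n ih =>
    rw [sum_range_succ]
    push_cast
    by_cases h1 : (n : ℝ) + 1 ≤ a + 1
    · rw [if_pos h1, max_eq_left (by linarith only [h1])]
      rw [if_pos (by linarith only [h1])] at ih
      rw [add_div]; linarith
    · rw [if_neg h1, max_eq_right (by linarith only [h1])]
      have n1 : 1 < (n : ℝ) := by linarith only [ha, h1]
      have e : (n : ℝ) + 1 - 1 = n := by ring
      rw [e]
      by_cases h2 : (n : ℝ) ≤ a + 1
      · rw [if_pos h2] at ih
        have b1 : (n : ℝ) / a ^ 2 ≤ 2 / a := by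
          rw [div_le_div_iff₀ (by positivity) a0]; nlinarith only [ha, h2]
        have b2 : 1 / (n : ℝ) ≤ 1 / a := one_div_le_one_div_of_le a0 (by linarith only [h1])
        have b3 : 1 / (n : ℝ) ^ 2 ≤ 1 / a := one_div_le_one_div_of_le a0 (by nlinarith only [ha, h1])
        have : 4 / a = 2 / a + 1 / a + 1 / a := by ring
        linarith
      · rw [if_neg h2] at ih
        have : 1 / (n : ℝ) ^ 2 ≤ 1 / (n - 1) - 1 / n := by
          rw [div_sub_div _ _ (by linarith only [ha, h2]) (by linarith only [ha, h2]), div_le_div_iff₀ (by positivity)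
            (by nlinarith only [ha, h2])]
          linarith only [ha, h2]
        linarith

theorem k3c_two {a : ℝ} (ha : 1 ≤ a) (S : Finset ℕ) :
    ∑ k ∈ S, 1 / (max a k) ^ 2 ≤ 4 / a := by
  have a0 : 0 < a := by linarith
  obtain ⟨n, hn⟩ := S.exists_nat_subset_range
  refine (sum_le_sum_of_subset_of_nonneg hn fun _ _ _ => by positivity).trans
    ((k3c_one ha n).trans ?_)
  split_ifs with h
  · rw [div_le_div_iff₀ (by positivity) a0]; nlinarith only [ha, h]
  · have : 0 ≤ 1 / ((n : ℝ) - 1) := by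
      apply one_div_nonneg.2; linarith
    linarith

/-- CNT -/
theorem cnt_int {w R : ℝ} (hw : 1 ≤ w) (hR : 1 ≤ R) (c : ℝ) (S : Finset ℤ) :
    ∑ t ∈ S, min (R ^ 2) ((w / max 1 |c - t|) ^ 2) ≤ 8 * R * w := by
  set a := max 1 (w / R) with ha
  have a1 : 1 ≤ a := le_max_left _ _
  have a0 : 0 < a := by linarith
  have key : ∀ (t : ℤ) (k : ℕ), (k : ℝ) ≤ |c - t| →
      min (R ^ 2) ((w / max 1 |c - t|) ^ 2) ≤ w ^ 2 * (1 / (max a k) ^ 2) := fun t k hk => by
    have m0 : 0 < max a k := lt_max_of_lt_left a0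
    rw [mul_one_div, ← div_pow]
    by_cases h : max a k ≤ max 1 |c - t|
    · exact (min_le_right _ _).trans (pow_le_pow_left₀ (by positivity)
        (div_le_div_of_nonneg_left (by linarith only [hw]) m0 h) 2)
    · refine (min_le_left _ _).trans (pow_le_pow_left₀ (by linarith) ?_ 2)
      rw [not_le, max_lt_iff] at h
      have h3 : max a (k : ℝ) = w / R := by
        rcases le_total a k with e | e
        · rw [max_eq_right e] at h; linarith only [h.2, hk]
        · rw [max_eq_left e] at h ⊢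
          rcases le_total 1 (w / R) with e' | e'
          · exact max_eq_right e'
          · rw [ha, max_eq_left e'] at h; linarith only [h.1]
      rw [h3]
      apply le_of_eq; field_simp
  have half : ∀ (T : Finset ℤ) (k : ℤ → ℕ), Set.InjOn k T → (∀ t ∈ T, (k t : ℝ) ≤ |c - t|) →
      ∑ t ∈ T, min (R ^ 2) ((w / max 1 |c - t|) ^ 2) ≤ 4 * R * w := fun T k hi hk => by
    refine (sum_le_sum fun t ht => key t (k t) (hk t ht)).trans ?_
    rw [← mul_sum, ← sum_image (f := fun n : ℕ => 1 / (max a n) ^ 2) hi]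
    refine (mul_le_mul_of_nonneg_left (k3c_two a1 _) (by positivity)).trans ?_
    have : w / R ≤ a := le_max_right _ _
    rw [div_le_iff₀ (by linarith only [hR])] at this
    rw [mul_div_assoc', div_le_iff₀ a0]
    nlinarith only [hw, this]
  rw [← sum_filter_add_sum_filter_not S (fun t => ⌈c⌉ ≤ t)]
  have h1 := half (S.filter fun t => ⌈c⌉ ≤ t) (fun t => (t - ⌈c⌉).toNat)
    (fun s hs t ht e => by
      have := (mem_filter.1 hs).2; have := (mem_filter.1 ht).2
      simp only at e; omega)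
    (fun t ht => by
      have h := (mem_filter.1 ht).2
      have : (((t - ⌈c⌉).toNat : ℤ) : ℝ) = t - ⌈c⌉ := by
        rw [Int.toNat_of_nonneg (by omega)]; push_cast; ring
      rw [Int.cast_natCast] at this
      rw [this, abs_sub_comm]
      exact le_trans (by linarith only [Int.le_ceil c]) (le_abs_self _))
  have h2 := half (S.filter fun t => ¬ ⌈c⌉ ≤ t) (fun t => (⌈c⌉ - 1 - t).toNat)
    (fun s hs t ht e => by
      have := (mem_filter.1 hs).2; have := (mem_filter.1 ht).2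
      simp only at e; omega)
    (fun t ht => by
      have h := (mem_filter.1 ht).2
      have : (((⌈c⌉ - 1 - t).toNat : ℤ) : ℝ) = ⌈c⌉ - 1 - t := by
        rw [Int.toNat_of_nonneg (by omega)]; push_cast; ring
      rw [Int.cast_natCast] at this
      rw [this]
      exact le_trans (by linarith only [Int.ceil_lt_add_one c]) (le_abs_self _))
  linarith

theorem cnt_nat {w R : ℝ} (hw : 1 ≤ w) (hR : 1 ≤ R) (c : ℝ) (S : Finset ℕ) :
    ∑ t ∈ S, min (R ^ 2) ((w / max 1 |c - t|) ^ 2) ≤ 8 * R * w := by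
  have := cnt_int hw hR c (S.image Nat.cast)
  rwa [sum_image fun _ _ _ _ h => Nat.cast_injective h] at this

theorem cnt_grid (R w c : ℝ) (hR : 1 ≤ R) (hw : 1 ≤ w) (m : ℕ) :
    ∑ i ∈ range m, min (R ^ 2) ((w / max 1 |c - i|) ^ 2) ≤ 8 * R * w :=   cnt_nat hw hR c _


theorem cnt_cover (c w t0 : ℝ) (hw : 1 ≤ w) (m : ℕ) :
    ∑ i ∈ range m, ind (c ≤ t0 + i ∧ t0 + i < c + w) ≤ 2 * w := by
  classical
  have e : ∑ i ∈ range m, ind (c ≤ t0 + i ∧ t0 + i < c + w) =
      (((range m).filter fun i : ℕ => c ≤ t0 + i ∧ t0 + i < c + w).card : ℝ) := by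
    rw [card_filter]; push_cast
    exact sum_congr rfl fun i _ => by unfold ind; congr
  rw [e]
  have h : ((range m).filter fun i : ℕ => c ≤ t0 + i ∧ t0 + i < c + w).card ≤
      (Ico ⌈c - t0⌉ ⌈c + w - t0⌉).card := by
    refine card_le_card_of_injOn (fun i : ℕ => (i : ℤ)) (fun i hi => ?_)
      fun _ _ _ _ h => Nat.cast_injective h
    have := (mem_filter.1 hi).2
    simp only [coe_Ico, Set.mem_Ico, Int.ceil_le, Int.lt_ceil, Int.cast_natCast]
    constructor <;> linarith only [this.1, this.2]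
  have h1 := Int.le_ceil (c - t0)
  have h2 := Int.ceil_lt_add_one (c + w - t0)
  have h3 : ⌈c - t0⌉ ≤ ⌈c + w - t0⌉ := Int.ceil_mono (by linarith only [hw])
  have h4 : (((Ico ⌈c - t0⌉ ⌈c + w - t0⌉).card : ℤ) : ℝ) = ⌈c + w - t0⌉ - ⌈c - t0⌉ := by
    rw [Int.card_Ico_of_le _ _ h3]; push_cast; ring
  have h5 := (Nat.cast_le (α := ℝ)).2 h
  rw [Int.cast_natCast] at h4
  linarith only [hw, h1, h2, h4, h5]


namespace Ker

variable (K : Ker V)

theorem mass_le (lo hi : ℝ) (h : lo ≤ hi) (l : List V) :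
    sp3 (fun p z _ => ind (lo ≤ K.P p ∧ K.P p + K.W z ≤ hi) * K.W z) l ≤ hi - lo := by
  induction l generalizing lo hi with
  | nil => simpa [sp3] using h
  | cons z l ih =>
    simp only [sp3, P_nil, P_cons, zero_add]
    by_cases hz : lo ≤ 0 ∧ K.W z ≤ hi
    · have := ih 0 (hi - K.W z) (by linarith [hz.2])
      rw [ind_of hz]
      refine le_trans (add_le_add le_rfl ((sp3_mono fun p a _ _ =>
        mul_le_mul_of_nonneg_right (ind_mono fun q => ?_) (K.Wpos a).le).trans this))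
        (by linarith [hz.1])
      exact ⟨K.P_nonneg p, by linarith [q.2]⟩
    · have := ih (lo - K.W z) (hi - K.W z) (by linarith)
      rw [ind_not hz, zero_mul, zero_add]
      refine le_trans ((sp3_mono fun p a _ _ =>
        mul_le_mul_of_nonneg_right (ind_mono fun q => ?_) (K.Wpos a).le).trans this) (by linarith)
      exact ⟨by linarith [q.1], by linarith [q.2]⟩


omit [Fintype V] in
theorem k3c_min {r : ℝ} (hr : 0 ≤ r) {G : List V → V → List V → ℝ} (hG : ∀ p z s, 0 ≤ G p z s)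
    (l : List V) : min r (sp3 G l) ≤ sp3 (fun p z s => min r (G p z s)) l := by
  induction l generalizing G with
  | nil => exact min_le_right _ _
  | cons a l ih =>
    have h1 := ih (G := fun p z s => G (a :: p) z s) fun _ _ _ => hG _ _ _
    have h2 := sp3_nonneg (G := fun p z s => G (a :: p) z s) (fun _ _ _ => hG _ _ _) l
    have h3 := hG [] a l
    simp only [sp3]
    refine le_trans ?_ (add_le_add le_rfl h1)
    simp only [min_def]
    split_ifs <;> linarith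

theorem k3c_sum (R lo hi : ℝ) (m : ℕ) (hR : 1 ≤ R) (h : lo ≤ hi) (l : List V)
    (B : ℕ → Prop) (c : List V → V → ℝ)
    (hB : ∀ i < m, B i → R ^ 2 ≤ sp3 (fun p z _ => ind (lo ≤ K.P p ∧ K.P p + K.W z ≤ hi) *
      min (R ^ 2) ((K.W z / max 1 |c p z - i|) ^ 2)) l) :
    ∑ i ∈ range m, ind (B i) ≤ 8 * (hi - lo) / R := by
  have R0 : 0 < R := by linarith
  have : ∑ i ∈ range m, ind (B i) * R ^ 2 ≤ 8 * R * (hi - lo) := by
    refine (sum_le_sum fun i hi => ind_mul_le (sp3_nonneg (fun _ _ _ =>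
      mul_nonneg (ind_nonneg _) (by positivity)) l) (hB i (mem_range.1 hi))).trans ?_
    rw [← sp3_sum]
    refine le_trans ?_ (mul_le_mul_of_nonneg_left (K.mass_le lo hi h l) (by positivity))
    rw [mul_sp3]
    refine sp3_mono fun p z s _ => ?_
    rw [← mul_sum, mul_left_comm]
    exact mul_le_mul_of_nonneg_left (cnt_grid R _ _ hR (K.W1 z) m) (ind_nonneg _)
  rw [← sum_mul] at this
  rw [le_div_iff₀ R0]
  nlinarith only [hR, this]

theorem k3c_term {R a d w : ℝ} (hw : 0 ≤ w) (h1 : 1 ≤ a) (h2 : |d| ≤ a) :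
    min (R ^ 2) ((w / a) ^ 2) ≤ min (R ^ 2) ((w / max 1 |d|) ^ 2) :=
  min_le_min le_rfl (pow_le_pow_left₀ (by positivity)
    (div_le_div_of_nonneg_left hw (by positivity) (max_le h1 h2)) 2)

theorem cnt_badF (R lo hi t0 : ℝ) (m : ℕ) (hR : 1 ≤ R) (hlo : lo ≤ t0) (h : lo ≤ hi)
    (l : List V) : ∑ i ∈ range m, ind (K.BadF R hi (t0 + i) l) ≤ 8 * (hi - lo) / R := by
  refine K.k3c_sum R lo hi m hR h l _ (fun p _ => K.P p - t0) ?_
  rintro i - ⟨p, z, n, s, rfl, h1, h2, h3, h4⟩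
  have n0 : ∀ (p : List V) (z : V), 0 ≤ ind (lo ≤ K.P p ∧ K.P p + K.W z ≤ hi) *
      min (R ^ 2) ((K.W z / max 1 |K.P p - t0 - i|) ^ 2) :=
    fun _ _ => mul_nonneg (ind_nonneg _) (by positivity)
  rw [fwd, not_le, sp3_fs] at h4
  have h5 := k3c_min (sq_nonneg R) (fun p' u _ => sq_nonneg (K.W u / (K.W z + ls K.W p'))) n
  rw [min_eq_left h4.le] at h5
  rw [sp3_append]
  simp only [sp3, sp3_append]
  refine le_add_of_nonneg_of_le (sp3_nonneg (fun _ _ _ => n0 _ _) _) (le_add_of_nonneg_of_le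
    (n0 _ _) (le_add_of_le_of_nonneg (h5.trans (sp3_mono fun a u b e => ?_))
      (sp3_nonneg (fun _ _ _ => n0 _ _) _)))
  have := K.P_nonneg a
  have := K.P_nonneg b
  have := K.W1 z
  have : (0 : ℝ) ≤ i := Nat.cast_nonneg i
  rw [e] at h3
  simp only [P_append, P_cons] at h3 ⊢
  rw [ind_of ⟨by linarith, by linarith⟩, one_mul]
  refine k3c_term (K.Wpos u).le (by change _ ≤ _ + K.P a; linarith) ?_
  change _ ≤ _ + K.P a
  rw [abs_le]; constructor <;> linarith


theorem cnt_badB (R lo hi t0 : ℝ) (m : ℕ) (hR : 1 ≤ R) (hhi : t0 + m ≤ hi + 1) (h : lo ≤ hi)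
    (l : List V) : ∑ i ∈ range m, ind (K.BadB R lo (t0 + i) l) ≤ 8 * (hi - lo) / R := by
  refine K.k3c_sum R lo hi m hR h l _ (fun p z => K.P p + K.W z - t0) ?_
  rintro i him ⟨p, n, z, s, rfl, h1, h2, h3, h4⟩
  have n0 : ∀ (p : List V) (z : V), 0 ≤ ind (lo ≤ K.P p ∧ K.P p + K.W z ≤ hi) *
      min (R ^ 2) ((K.W z / max 1 |K.P p + K.W z - t0 - i|) ^ 2) :=
    fun _ _ => mul_nonneg (ind_nonneg _) (by positivity)
  rw [bwd, not_le, sp3_fs_rev] at h4
  have h5 := k3c_min (sq_nonneg R) (fun _ u s' => sq_nonneg (K.W u / (K.W z + ls K.W s'))) n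
  rw [min_eq_left h4.le] at h5
  rw [sp3_append, sp3_append]
  refine le_add_of_nonneg_of_le (sp3_nonneg (fun _ _ _ => n0 _ _) _)
    (le_add_of_le_of_nonneg (h5.trans (sp3_mono fun a u b e => ?_))
      (sp3_nonneg (fun _ _ _ => n0 _ _) _))
  have := K.P_nonneg a
  have := K.P_nonneg b
  have := K.W1 z
  have : (i : ℝ) + 1 ≤ m := by exact_mod_cast him
  rw [e] at h1 h2
  simp only [P_append, P_cons] at h1 h2 ⊢
  rw [ind_of ⟨by linarith, by linarith⟩, one_mul]
  refine k3c_term (K.Wpos u).le (by change _ ≤ _ + K.P b; linarith) ?_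
  change _ ≤ _ + K.P b
  rw [abs_le]; constructor <;> linarith


end Ker

end Pool.Agent.MP_114209_co.H79

/-! Section 4 (a), (b): a violation gives points with heavy good kernels. -/

namespace Pool.Agent.MP_114209_co.H79

open Finset

variable {V : Type} [Fintype V]

omit [Fintype V] in
theorem k4a1_pos {p p' s s' : List V} {z z' : V} (h : p ++ z :: s = p' ++ z' :: s') :
    (∃ m, s = m ++ z' :: s') ∨ (∃ m, s' = m ++ z :: s) ∨ p = p' ∧ z = z' := by
  rcases List.append_eq_append_iff.1 h with ⟨m, rfl, e⟩ | ⟨m, rfl, e⟩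
  · rcases m with _ | ⟨a, m⟩
    · exact Or.inr (Or.inr ⟨by simp, (List.cons.inj e).1⟩)
    · exact Or.inl ⟨m, (List.cons.inj e).2⟩
  · rcases m with _ | ⟨a, m⟩
    · exact Or.inr (Or.inr ⟨by simp, (List.cons.inj e).1.symm⟩)
    · exact Or.inr (Or.inl ⟨m, (List.cons.inj e).2⟩)

namespace Ker

variable (K : Ker V)

theorem k4a1_ex (L n : ℕ) (Φ : ℕ → List V → Prop) (x y : V) :
    K.Z L (fun l => ∃ j < n, Φ j l) x y ≤ ∑ j ∈ range n, K.Z L (Φ j) x y := by
  induction n with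
  | zero => exact (K.Z_empty L (by simp) x y).le
  | succ n ih =>
    rw [sum_range_succ]
    refine (K.Z_or L (Ψ := fun l => ∃ j < n, Φ j l) (Ψ' := Φ n) ?_ x y).trans (by linarith)
    rintro l ⟨j, hj, h⟩
    rcases Nat.lt_succ_iff_lt_or_eq.1 hj with hj | rfl
    exacts [Or.inl ⟨j, hj, h⟩, Or.inr h]

theorem k4a1_cut {T : ℝ} {p s : List V} {z : V} (h : K.P (p ++ z :: s) < T) :
    K.P p ≤ T ∧ K.P s < T := by
  have h1 := K.P_nonneg p
  have h2 := K.P_nonneg s
  have h3 := K.Wpos z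
  rw [P_append, P_cons] at h
  exact ⟨by linarith, by linarith⟩

theorem start_coarse (L : ℕ) (e T N : ℝ) (hbc : K.BC L e) (he : 0 ≤ e) (hT : 0 < T) (hN : 1 ≤ N)
    (x y : V) (hx : T / N ≤ K.W x) :
    K.Z L (fun l => K.P l < 2 * T ∧ ∃ z ∈ l, T / N ≤ K.W z) x y ≤
      e * (4 + 4 * N) * (2 * N + 1) * N ^ 40 * (K.W y / T) ^ 40 := by
  have hN0 : 0 < N := one_pos.trans_le hN
  have hg : 0 < T / N := div_pos hT hN0
  have hc : 0 ≤ e * (4 + 4 * N) * (N / T) ^ 41 := by positivity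
  refine (K.Z_cut' L (fun z p => K.P p ≤ 2 * T ∧ T / N ≤ K.W z) (fun _ s => K.P s ≤ 2 * T)
    ?_ x y).trans ?_
  · rintro l ⟨h1, z, hz, h2⟩
    obtain ⟨p, s, rfl⟩ := List.append_of_mem hz
    exact ⟨p, z, s, rfl, ⟨(K.k4a1_cut h1).1, h2⟩, (K.k4a1_cut h1).2.le⟩
  refine le_trans (sum_le_sum fun z _ => ?_) (((mul_sum _ _ _).symm.le.trans
    (mul_le_mul_of_nonneg_left (K.occb L y (2 * T) (T / N) (by positivity) hg.le) hc)).trans
      (le_of_eq ?_))
  · rw [← mul_assoc]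
    refine mul_le_mul_of_nonneg_right ?_ (K.Z_nonneg _ _ _ _)
    have hz0 := K.Wpos z
    by_cases hz : T / N ≤ K.W z
    · refine ((K.Z_mono L (fun l hl => hl.1) x z).trans
        (hbc x z (T / N) (2 * T) hg hx hz (by positivity))).trans (le_of_eq ?_)
      rw [min_eq_right hz]
      field_simp
      ring
    · rw [K.Z_empty L (fun l hl => hz hl.2)]
      have : 0 ≤ min (K.W z) (T / N) := le_min hz0.le hg.le
      positivity
  · field_simp

theorem two_coarse (L : ℕ) (e T N : ℝ) (hbc : K.BC L e) (he : 0 ≤ e) (hT : 0 < T) (hN : 1 ≤ N)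
    (x y : V) : K.Z L (fun l => K.P l < 2 * T ∧ ∃ p z m z' s, l = p ++ z :: (m ++ z' :: s) ∧
      T / N ≤ K.W z ∧ T / N ≤ K.W z') x y ≤
    e * (4 + 4 * N) * (2 * N + 1) ^ 2 * N ^ 40 * (K.W y / T) ^ 40 := by
  have hN0 : 0 < N := one_pos.trans_le hN
  have hg : 0 < T / N := div_pos hT hN0
  have hy := K.Wpos y
  have hc : 0 ≤ e * (4 + 4 * N) * (2 * N + 1) * N ^ 40 * (K.W y / T) ^ 40 * (N / T) := by
    positivity
  refine (K.Z_cut' L (fun z p => K.P p ≤ 2 * T ∧ T / N ≤ K.W z)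
    (fun _ s => K.P s < 2 * T ∧ ∃ z ∈ s, T / N ≤ K.W z) ?_ x y).trans ?_
  · rintro l ⟨h1, p, z, m, z', s, rfl, h2, h3⟩
    exact ⟨p, z, _, rfl, ⟨(K.k4a1_cut h1).1, h2⟩, (K.k4a1_cut h1).2, z', by simp, h3⟩
  refine le_trans (sum_le_sum fun z _ => ?_) (((mul_sum _ _ _).symm.le.trans
    (mul_le_mul_of_nonneg_left (K.occf L x (2 * T) (T / N) (by positivity) hg.le) hc)).trans
      (le_of_eq ?_))
  · by_cases hz : T / N ≤ K.W z
    · refine (mul_le_mul (K.Z_mono L (fun l hl => hl.1) x z)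
        (K.start_coarse L e T N hbc he hT hN z y hz) (K.Z_nonneg _ _ _ _)
        (K.Z_nonneg _ _ _ _)).trans (le_of_eq ?_)
      rw [min_eq_right hz]
      field_simp
    · rw [K.Z_empty L (fun l hl => hz hl.2), zero_mul]
      exact mul_nonneg hc (mul_nonneg (K.Z_nonneg _ _ _ _) (le_min (K.Wpos z).le hg.le))
  · field_simp

theorem window (R : ℕ) (hR : 1 ≤ R) (T g : ℝ) (hT : 0 < T) (hg : 4 * R * g ≤ T) (x : V)
    (l : List V) (h1 : T ≤ K.P l) (h2 : K.P l < 2 * T) (hf : K.fwd R x l)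
    (h3 : ¬ ∃ p z m z' s, l = p ++ z :: (m ++ z' :: s) ∧ g ≤ K.W z ∧ g ≤ K.W z')
    (h4 : ¬ (g ≤ K.W x ∧ ∃ z ∈ l, g ≤ K.W z)) :
    ∃ j : ℕ, j < 16 * R ∧ K.Win g (j * (T / (8 * R))) (T / (8 * R)) l := by
  have hR' : (1 : ℝ) ≤ R := by exact_mod_cast hR
  have hw : R * (T / (8 * R)) = T / 8 := by field_simp
  have hw0 : 0 < T / (8 * R) := by positivity
  generalize T / (8 * R) = w at *
  have hw1 : w ≤ T / 8 := by nlinarith only [hR', hw, hw0]
  by_cases h0 : ∃ p z s, l = p ++ z :: s ∧ K.P p ≤ w ∧ g ≤ K.W z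
  · obtain ⟨p, z, s, rfl, hp, hz⟩ := h0
    have hx : K.W x < g := not_le.1 fun hx => h4 ⟨hx, z, by simp, hz⟩
    have h5 := K.fwd_le (by positivity) hf
    have h6 : K.W z ≤ 3 * T / 8 := by nlinarith only [hg, hw, hp, hx, h5]
    have h7 : ((4 * R : ℕ) : ℝ) * w = T / 2 := by push_cast; linarith only [hw]
    refine ⟨4 * R, by omega, by linarith only [hw0, hw1, h1, h7], fun p' z' s' e _ h9 => not_le.1 fun hz' => ?_⟩
    rcases k4a1_pos e with ⟨m, rfl⟩ | ⟨m, rfl⟩ | ⟨rfl, rfl⟩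
    · exact h3 ⟨p, z, m, z', s', rfl, hz, hz'⟩
    · exact h3 ⟨p', z', m, z, s, e, hz', hz⟩
    · linarith only [hw1, hp, h6, h7, h9]
  · refine ⟨0, by omega, by push_cast; linarith only [h1, hw0, hw1], fun p z s e h8 _ => not_le.1 fun hz => ?_⟩
    exact h0 ⟨p, z, s, e, by simpa using h8, hz⟩

theorem partA (R : ℕ) (hR : 1 ≤ R) (L : ℕ) (e η T N : ℝ) (hbc : K.BC L e) (he : 0 ≤ e)
    (hT : 0 < T) (hN : 4 * R ≤ N)
    (hs : e * (4 + 4 * N) * ((2 * N + 1) ^ 2 + (2 * N + 1)) * N ^ 40 ≤ η / 2)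
    (hv : K.Vf L R η T) : ∃ (x y : V) (a : ℝ), 0 ≤ a ∧ η * (K.W y / T) ^ 40 / (32 * R) <
      K.Z L (fun l => K.P l < 2 * T ∧ K.Win (T / N) a (T / (8 * R)) l) x y := by
  obtain ⟨x, y, hv⟩ := hv
  have hR' : (1 : ℝ) ≤ R := by exact_mod_cast hR
  have hN1 : 1 ≤ N := by linarith only [hN, hR']
  have hN0 : 0 < N := one_pos.trans_le hN1
  have hg : 4 * R * (T / N) ≤ T := by
    rw [← mul_div_assoc, div_le_iff₀ hN0]
    nlinarith only [hT, hN]
  have hy : 0 ≤ (K.W y / T) ^ 40 := by have := K.Wpos y; positivity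
  by_contra hc
  push Not at hc
  have a1 := K.two_coarse L e T N hbc he hT hN1 x y
  have a2 : K.Z L (fun l => K.P l < 2 * T ∧ T / N ≤ K.W x ∧ ∃ z ∈ l, T / N ≤ K.W z) x y ≤
      e * (4 + 4 * N) * (2 * N + 1) * N ^ 40 * (K.W y / T) ^ 40 := by
    by_cases hx : T / N ≤ K.W x
    · exact (K.Z_mono L (fun l hl => ⟨hl.1, hl.2.2⟩) x y).trans
        (K.start_coarse L e T N hbc he hT hN1 x y hx)
    · rw [K.Z_empty L (fun l hl => hx hl.2.1)]
      positivity
  have a3 := (K.k4a1_ex L (16 * R) (fun j l => K.P l < 2 * T ∧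
    K.Win (T / N) (j * (T / (8 * R))) (T / (8 * R)) l) x y).trans
    (sum_le_card_nsmul _ _ _ fun j _ => hc x y _ (by positivity))
  have a4 := mul_le_mul_of_nonneg_right hs hy
  have a5 : (range (16 * R)).card • (η * (K.W y / T) ^ 40 / (32 * R)) =
      η / 2 * (K.W y / T) ^ 40 := by
    rw [card_range, nsmul_eq_mul]
    push_cast
    field_simp
    ring
  refine absurd (hv.trans_le ((K.Z_or L ?_ x y).trans (add_le_add a1
    ((K.Z_or L (fun l hl => hl) x y).trans (add_le_add a2 a3))))) (not_lt.2 (by rw [a5]; linarith only [a4]))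
  rintro l ⟨h1, h2, hf⟩
  by_cases h3 : ∃ p z m z' s, l = p ++ z :: (m ++ z' :: s) ∧ T / N ≤ K.W z ∧ T / N ≤ K.W z'
  · exact Or.inl ⟨h2, h3⟩
  by_cases h4 : T / N ≤ K.W x ∧ ∃ z ∈ l, T / N ≤ K.W z
  · exact Or.inr (Or.inl ⟨h2, h4⟩)
  obtain ⟨j, hj, hw⟩ := K.window R hR T _ hT hg x l h1 h2 hf h3 h4
  exact Or.inr (Or.inr ⟨j, hj, h2, hw⟩)

end Ker

end Pool.Agent.MP_114209_co.H79

namespace Pool.Agent.MP_114209_co.H79

open Finset

variable {V : Type} [Fintype V]

namespace Ker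

variable (K : Ker V)

/-- the piece between the covers of `t` and `t'` is good but light, or returns to its end -/
def Bad2 (L : ℕ) (R g D T ζ t t' : ℝ) (l : List V) : Prop :=
  ∃ p x m y s, l = p ++ x :: (m ++ y :: s) ∧ K.P p ≤ t ∧ t < K.P p + K.W x ∧
    K.P p + K.W x + K.P m ≤ t' ∧ t' < K.P p + K.W x + K.P m + K.W y ∧ K.W y < g ∧
    K.GG R g D T x y m ∧ (K.Z L (K.GG R g D T x y) x y ≤ ζ * K.W y ^ 40 ∨ y ∈ m)

end Ker

end Pool.Agent.MP_114209_co.H79

namespace Pool.Agent.MP_114209_co.H79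

open Finset

variable {V : Type} [Fintype V]

theorem choose_times (n m : ℕ) (hm : 0 < m) (β1 : ℕ → ℕ → ℝ) (β2 : ℕ → ℕ → ℕ → ℕ → ℝ)
    (δ1 δ2 : ℝ) (hδ2 : 0 ≤ δ2) (h1 : ∀ k ≤ n, ∑ i ∈ range m, β1 k i ≤ m * δ1)
    (h2 : ∀ a k, a < k → k ≤ n → ∀ j < m, ∑ i ∈ range m, β2 a k j i ≤ m * δ2) :
    ∃ τ : ℕ → ℕ, (∀ k, τ k < m) ∧
      ∑ k ∈ range (n + 1), (β1 k (τ k) + ∑ a ∈ range k, β2 a k (τ a) (τ k)) ≤
        (n + 1) * δ1 + (n + 1) ^ 2 * δ2 := by
  have key : ∀ N ≤ n + 1, ∃ τ : ℕ → ℕ, (∀ k, τ k < m) ∧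
      ∑ k ∈ range N, (β1 k (τ k) + ∑ a ∈ range k, β2 a k (τ a) (τ k)) ≤
        N * δ1 + (N : ℝ) ^ 2 * δ2 := by
    intro N
    induction N with
    | zero => exact fun _ => ⟨fun _ => 0, fun _ => hm, by simp⟩
    | succ N ih =>
      intro hN
      obtain ⟨τ, hτ, hs⟩ := ih (by omega)
      have hb : ∑ i ∈ range m, (β1 N i + ∑ a ∈ range N, β2 a N (τ a) i) ≤
          ∑ _i ∈ range m, (δ1 + N * δ2) := by
        have e2 : ∑ a ∈ range N, ∑ i ∈ range m, β2 a N (τ a) i ≤ ∑ _a ∈ range N, m * δ2 :=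
          sum_le_sum fun a ha => h2 a N (mem_range.1 ha) (by omega) _ (hτ a)
        have e1 := h1 N (by omega)
        rw [sum_add_distrib, sum_comm]
        simp only [sum_const, card_range, nsmul_eq_mul] at e2 ⊢
        linarith only [e1, e2]
      obtain ⟨i, hi, hle⟩ := exists_le_of_sum_le ⟨0, mem_range.2 hm⟩ hb
      have hu : ∀ a ∈ range N, Function.update τ N i a = τ a := fun a ha =>
        Function.update_of_ne (mem_range.1 ha).ne _ _
      refine ⟨Function.update τ N i, fun k => ?_, ?_⟩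
      · by_cases hk : k = N
        · rw [hk, Function.update_self]; exact mem_range.1 hi
        · rw [Function.update_of_ne hk]; exact hτ k
      · have e1 : ∑ k ∈ range N, (β1 k (Function.update τ N i k) + ∑ a ∈ range k,
            β2 a k (Function.update τ N i a) (Function.update τ N i k)) =
            ∑ k ∈ range N, (β1 k (τ k) + ∑ a ∈ range k, β2 a k (τ a) (τ k)) :=
          sum_congr rfl fun k hk => by
            rw [hu k hk]
            congr 1
            exact sum_congr rfl fun a ha => by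
              rw [hu a (mem_range.2 ((mem_range.1 ha).trans (mem_range.1 hk)))]
        have e2 : ∑ a ∈ range N, β2 a N (Function.update τ N i a) i =
            ∑ a ∈ range N, β2 a N (τ a) i := sum_congr rfl fun a ha => by rw [hu a ha]
        rw [sum_range_succ, e1, Function.update_self, e2]
        have : (0 : ℝ) ≤ N * δ2 := by positivity
        push_cast
        linarith only [hδ2, hs, hle, this]
  simpa only [Nat.cast_add, Nat.cast_one] using key (n + 1) le_rfl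

namespace Ker

variable (K : Ker V)

theorem k4a2_const (L : ℕ) (a : Prop) (Φ : List V → Prop) (x y : V) :
    K.Z L (fun l => a ∧ Φ l) x y = ind a * K.Z L Φ x y := by
  simp only [Z, ind_and, mul_sum, mul_assoc]

theorem k4a2_inner (L : ℕ) (g T ζ c t0 : ℝ) (m : ℕ) (hζ : 0 ≤ ζ) (hg : 0 ≤ g) (hT : 0 ≤ T)
    (x y0 : V) (M : V → List V → Prop) (hM : ∀ y, K.Z L (M y) x y ≤ ζ * K.W y ^ 40) :
    ∑ i ∈ range m, K.Z L (fun s => ∃ p y s', s = p ++ y :: s' ∧
      (c + K.P p ≤ t0 + i ∧ t0 + i < c + K.P p + K.W y) ∧ (K.W y < g ∧ M y p) ∧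
        K.P s' ≤ 2 * T) x y0 ≤ 2 * ζ * (2 * T + g) * K.W y0 ^ 40 := by
  have hZ := fun y => K.Z_nonneg L (fun l => K.P l ≤ 2 * T) y y0
  calc _ ≤ ∑ i ∈ range m, ∑ p ∈ lists V L, ∑ y, qw K.Q x p y *
        (ind (c + K.P p ≤ t0 + i ∧ t0 + i < c + K.P p + K.W y) * (ind (K.W y < g ∧ M y p) *
          K.Z L (fun l => K.P l ≤ 2 * T) y y0)) := by
        refine sum_le_sum fun i _ => (K.Z_cut L (fun p y s' =>
          (c + K.P p ≤ t0 + i ∧ t0 + i < c + K.P p + K.W y) ∧ (K.W y < g ∧ M y p) ∧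
            K.P s' ≤ 2 * T) (fun l hl => hl) x y0).trans (le_of_eq ?_)
        simp only [k4a2_const]
    _ = ∑ y, ∑ p ∈ lists V L, qw K.Q x p y * (ind (K.W y < g ∧ M y p) *
          K.Z L (fun l => K.P l ≤ 2 * T) y y0) *
          ∑ i ∈ range m, ind (c + K.P p ≤ t0 + i ∧ t0 + i < c + K.P p + K.W y) := by
        rw [sum_comm, sum_comm (s := univ)]
        refine sum_congr rfl fun p _ => ?_
        rw [sum_comm]
        refine sum_congr rfl fun y _ => ?_
        rw [mul_sum]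
        exact sum_congr rfl fun i _ => by ring
    _ ≤ ∑ y, 2 * ζ * (K.W y ^ 40 * min (K.W y) g * K.Z L (fun l => K.P l ≤ 2 * T) y y0) := by
        refine sum_le_sum fun y _ => ?_
        have hm : 0 ≤ min (K.W y) g := le_min (K.Wpos y).le hg
        calc _ ≤ ∑ p ∈ lists V L, ind (M y p) * qw K.Q x p y *
              (2 * min (K.W y) g * K.Z L (fun l => K.P l ≤ 2 * T) y y0) := by
              refine sum_le_sum fun p _ => ?_
              have h1 := cnt_cover (c + K.P p) (K.W y) t0 (K.W1 y) m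
              have h2 := K.qw0 x p y
              have h3 := hZ y
              by_cases h : K.W y < g ∧ M y p
              · rw [ind_of h, ind_of h.2, min_eq_left h.1.le]
                have := mul_le_mul_of_nonneg_left h1 (mul_nonneg h2 h3)
                linarith
              · have := ind_nonneg (M y p)
                rw [ind_not h, zero_mul, mul_zero, zero_mul]
                positivity
          _ ≤ ζ * K.W y ^ 40 * (2 * min (K.W y) g * K.Z L (fun l => K.P l ≤ 2 * T) y y0) := by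
              rw [← sum_mul]
              have h3 := hZ y
              exact mul_le_mul_of_nonneg_right (hM y) (by positivity)
          _ = _ := by ring
    _ ≤ _ := by
        rw [← mul_sum, mul_assoc (2 * ζ)]
        exact mul_le_mul_of_nonneg_left (K.occb L y0 (2 * T) g (by positivity) hg) (by positivity)

theorem bad2_sum (L : ℕ) (R g D T ζ t t0 : ℝ) (m : ℕ) (hζ : 0 ≤ ζ) (hg : 0 ≤ g) (hT : 0 ≤ T)
    (hret : ∀ x y, K.Z L (fun l => K.GG R g D T x y l ∧ y ∈ l) x y ≤ ζ * K.W y ^ 40)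
    (x0 y0 : V) :
    ∑ i ∈ range m, K.Z L (fun l => K.P l < 2 * T ∧ K.Bad2 L R g D T ζ t (t0 + i) l) x0 y0 ≤
      2 * ζ * (2 * T + g) * K.W y0 ^ 40 := by
  let M : V → V → List V → Prop := fun x y p =>
    K.GG R g D T x y p ∧ (K.Z L (K.GG R g D T x y) x y ≤ ζ * K.W y ^ 40 ∨ y ∈ p)
  have hM : ∀ x y, K.Z L (M x y) x y ≤ ζ * K.W y ^ 40 := fun x y => by
    by_cases h : K.Z L (K.GG R g D T x y) x y ≤ ζ * K.W y ^ 40
    · exact (K.Z_mono L (fun l hl => hl.1) x y).trans h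
    · exact (K.Z_mono L (fun l hl => ⟨hl.1, hl.2.resolve_left h⟩) x y).trans (hret x y)
  have hB : 0 ≤ 2 * ζ * (2 * T + g) * K.W y0 ^ 40 := by have := K.Wpos y0; positivity
  let Ψ : ℕ → List V → V → List V → Prop := fun i p x s => ∃ p' y s', s = p' ++ y :: s' ∧
    (K.P p + K.W x + K.P p' ≤ t0 + i ∧ t0 + i < K.P p + K.W x + K.P p' + K.W y) ∧
      (K.W y < g ∧ M x y p') ∧ K.P s' ≤ 2 * T
  calc _ ≤ ∑ i ∈ range m, ∑ p ∈ lists V L, ∑ x, qw K.Q x0 p x *
        (ind (K.P p ≤ t ∧ t < K.P p + K.W x) * K.Z L (Ψ i p x) x y0) := by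
        refine sum_le_sum fun i _ => (K.Z_cut L (fun p x s =>
          (K.P p ≤ t ∧ t < K.P p + K.W x) ∧ Ψ i p x s) ?_ x0 y0).trans (le_of_eq ?_)
        · rintro l ⟨hl, p, x, p', y, s, rfl, a1, a2, a3, a4, a5, a6, a7⟩
          refine ⟨p, x, _, rfl, ⟨a1, a2⟩, p', y, s, rfl, ⟨a3, a4⟩, ⟨a5, a6, a7⟩, ?_⟩
          have := K.P_nonneg p; have := K.P_nonneg p'; have := K.Wpos x; have := K.Wpos y
          simp only [P_append, P_cons] at hl
          linarith
        · simp only [k4a2_const]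
    _ = ∑ x, ∑ p ∈ lists V L, ind (K.P p ≤ t ∧ t < K.P p + K.W x) * qw K.Q x0 p x *
          ∑ i ∈ range m, K.Z L (Ψ i p x) x y0 := by
        rw [sum_comm, sum_comm (s := univ)]
        refine sum_congr rfl fun p _ => ?_
        rw [sum_comm]
        refine sum_congr rfl fun x _ => ?_
        rw [mul_sum]
        exact sum_congr rfl fun i _ => by ring
    _ ≤ ∑ x, ∑ p ∈ lists V L, ind (K.P p ≤ t ∧ t < K.P p + K.W x) * qw K.Q x0 p x *
          (2 * ζ * (2 * T + g) * K.W y0 ^ 40) :=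
        sum_le_sum fun x _ => sum_le_sum fun p _ => mul_le_mul_of_nonneg_left
          (K.k4a2_inner L g T ζ _ t0 m hζ hg hT x y0 (M x) (hM x))
          (mul_nonneg (ind_nonneg _) (K.qw0 _ _ _))
    _ ≤ _ := by
        simp only [← sum_mul]
        exact mul_le_of_le_one_left hB (K.cov L x0 t)

end Ker

end Pool.Agent.MP_114209_co.H79

namespace Pool.Agent.MP_114209_co.H79

open Finset

variable {V : Type} [Fintype V]

namespace Ker

variable (K : Ker V)

theorem good_path (L n : ℕ) (R g D T ζ a w b : ℝ) (t : ℕ → ℝ) (l : List V) (ha : 0 ≤ a)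
    (hw : w < T) (hb : D + 2 * g ≤ b) (hD : 0 ≤ D) (hl : K.Win g a w l)
    (ht : ∀ k ≤ n, a ≤ t k ∧ t k < a + w) (htt : ∀ j k, j < k → k ≤ n → t j + b ≤ t k)
    (h1 : ∀ k ≤ n, ¬ K.BadF R (a + w) (t k) l ∧ ¬ K.BadB R a (t k) l)
    (h2 : ∀ j k, j < k → k ≤ n → ¬ K.Bad2 L R g D T ζ (t j) (t k) l) :
    ∃ x : ℕ → V, (∀ j k, 1 ≤ j → j < k → k ≤ n → x j ≠ x k) ∧ ∀ j k, j < k → k ≤ n →
      ζ * K.W (x k) ^ 40 < K.Z L (K.GG R g D T (x j) (x k)) (x j) (x k) := by
  have c : ∀ k, ∃ p z s, k ≤ n → l = p ++ z :: s ∧ K.P p ≤ t k ∧ t k < K.P p + K.W z := fun k => by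
    by_cases h : k ≤ n
    · obtain ⟨p, z, s, e⟩ := K.exists_cover (ha.trans (ht k h).1) ((ht k h).2.trans_le hl.1)
      exact ⟨p, z, s, fun _ => e⟩
    · obtain ⟨p, z, s, -⟩ := K.exists_cover (ha.trans (ht 0 n.zero_le).1)
        ((ht 0 n.zero_le).2.trans_le hl.1)
      exact ⟨p, z, s, fun e => absurd e h⟩
  choose p x s c using c
  have f : ∀ k ≤ n, K.W (x k) < g := fun k h =>
    hl.2 _ _ _ (c k h).1 ((c k h).2.1.trans (ht k h).2.le) ((ht k h).1.trans_lt (c k h).2.2)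
  have key : ∀ j k, j < k → k ≤ n → ∃ m, p k = p j ++ x j :: m ∧ x k ∉ m ∧
      ζ * K.W (x k) ^ 40 < K.Z L (K.GG R g D T (x j) (x k)) (x j) (x k) := by
    intro j k jk hk
    have hj := jk.le.trans hk
    obtain ⟨e, a1, a2⟩ := c j hj
    obtain ⟨e', b1, b2⟩ := c k hk
    have := htt j k jk hk
    have := f j hj
    have := f k hk
    have := K.Wpos (x j)
    have := ht j hj
    have := ht k hk
    obtain ⟨m, e1, e2⟩ := K.split_lt (e.symm.trans e') (by linarith)
    have e3 : K.P (p k) = K.P (p j) + K.W (x j) + K.P m := by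
      rw [e1]; simp only [P, ls_append, ls_cons]; ring
    rw [e2] at e
    have G : K.GG R g D T (x j) (x k) m := by
      refine ⟨by linarith, by linarith, fun z hz => ?_, ?_, ?_⟩
      · obtain ⟨m1, m2, rfl⟩ := List.append_of_mem hz
        have := K.P_nonneg m1
        have := K.P_nonneg m2
        have := K.Wpos z
        refine hl.2 (p j ++ x j :: m1) z (m2 ++ x k :: s k) (by simpa using e) ?_ ?_ <;>
          simp only [P, ls_append, ls_cons] at * <;> linarith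
      · by_contra h
        exact (h1 j hj).1 ⟨_, _, m, _, e, a1, a2, by linarith only [b1, this, e3], h⟩
      · by_contra h
        refine (h1 k hk).2 ⟨p j ++ [x j], m, x k, s k, by simpa using e, ?_, ?_, ?_, h⟩ <;>
          simp only [P, ls_append, ls_cons, ls_nil] at * <;> linarith
    have := fun h => h2 j k jk hk ⟨_, _, m, _, _, e, a1, a2, by linarith only [b1, e3], by linarith only [b2, e3], f k hk, G, h⟩
    exact ⟨m, e1, fun h => this (.inr h), lt_of_not_ge fun h => this (.inl h)⟩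
  refine ⟨x, fun j k j1 jk hk e => ?_, fun j k jk hk => (key j k jk hk).choose_spec.2.2⟩
  obtain ⟨m, e1, n1, -⟩ := key 0 k (by omega) hk
  obtain ⟨m', e2, -⟩ := key j k jk hk
  obtain ⟨m'', e3, -⟩ := key 0 j j1 (jk.le.trans hk)
  rw [e2, e3, List.append_assoc, List.append_cancel_left_eq, List.cons_append, List.cons.injEq] at e1
  exact n1 (e1.2 ▸ by simp [e])

end Ker

end Pool.Agent.MP_114209_co.H79

namespace Pool.Agent.MP_114209_co.H79

open Finset

variable {V : Type} [Fintype V]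

namespace Ker

variable (K : Ker V)

theorem k4a4_sum {ι : Type} (s : Finset ι) (L : ℕ) (x y : V) {G : List V → Prop}
    (H : ι → List V → Prop) (h : ∀ l, G l → ∃ i ∈ s, H i l) :
    K.Z L G x y ≤ ∑ i ∈ s, K.Z L (H i) x y := by
  unfold Z
  rw [sum_comm]
  refine sum_le_sum fun l _ => ?_
  rw [← sum_mul]
  refine mul_le_mul_of_nonneg_right ?_ (K.qw0 x l y)
  have := ind_mul_le (p := G l) (a := 1) (sum_nonneg fun i (_ : i ∈ s) => ind_nonneg (H i l))
    fun hl => by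
      obtain ⟨i, hi, h2⟩ := h l hl
      exact (ind_of h2).ge.trans (single_le_sum (fun i _ => ind_nonneg (H i l)) hi)
  rwa [mul_one] at this

theorem k4a4_avg (m L : ℕ) (x y : V) (G : List V → Prop) (H : ℕ → List V → Prop) {c : ℝ}
    (h : ∀ l, ∑ i ∈ range m, ind (H i l) ≤ c) :
    ∑ i ∈ range m, K.Z L (fun l => G l ∧ H i l) x y ≤ c * K.Z L G x y := by
  unfold Z
  rw [sum_comm, mul_sum]
  refine sum_le_sum fun l _ => ?_
  simp only [ind_and]
  rw [← sum_mul, ← mul_sum, ← mul_assoc, mul_comm c]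
  exact mul_le_mul_of_nonneg_right (mul_le_mul_of_nonneg_left (h l) (ind_nonneg _)) (K.qw0 x l y)

theorem partB (L n : ℕ) (R T g a ζ : ℝ) (hR : 512 * ((n : ℝ) + 1) ^ 2 ≤ R) (hT : 0 < T)
    (hg : g = T / (128 * R * (n + 1))) (ha : 0 ≤ a) (hζ : 0 ≤ ζ)
    (hret : ∀ x y, K.Z L (fun l => K.GG R g (4 * g) T x y l ∧ y ∈ l) x y ≤ ζ * K.W y ^ 40)
    (x0 y0 : V) (hF : 400 * R * ((n : ℝ) + 1) ^ 3 * ζ * K.W y0 ^ 40 <
      K.Z L (fun l => K.P l < 2 * T ∧ K.Win g a (T / (8 * R)) l) x0 y0) :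
    ∃ t : Fin n → V, Function.Injective t ∧ ∀ j k, j < k →
      ζ * K.W (t k) ^ 40 < K.Z L (K.GG R g (4 * g) T (t j) (t k)) (t j) (t k) := by
  have hn : (1 : ℝ) ≤ (n : ℝ) + 1 := le_add_of_nonneg_left (Nat.cast_nonneg n)
  set ν : ℝ := (n : ℝ) + 1 with hν
  have hR1 : 512 ≤ R := by nlinarith
  have hR0 : 0 < R := by linarith only [hR1]
  have hg0 : 0 < g := by rw [hg]; positivity
  have hTg : T = 128 * R * ν * g := by rw [hg]; field_simp
  have hw : T / (8 * R) = 16 * ν * g := by rw [hTg]; field_simp; ring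
  rw [hw] at hF
  set w : ℝ := 16 * ν * g with hwd
  have hw0 : 0 < w := by positivity
  have hwT : w < T := by rw [hTg, hwd]; nlinarith only [hT, hR1, hTg]
  set G : List V → Prop := fun l => K.P l < 2 * T ∧ K.Win g a w l with hG
  set F : ℝ := K.Z L G x0 y0 with hFd
  set Y : ℝ := ζ * K.W y0 ^ 40 with hY
  have hY0 : 0 ≤ Y := mul_nonneg hζ (pow_pos (K.Wpos y0) 40).le
  have hF' : 400 * R * ν ^ 3 * Y < F := by rw [hY, ← mul_assoc]; exact hF
  have hF0 : 0 < F := lt_of_le_of_lt (by positivity) hF'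
  set m : ℕ := ⌈8 * g⌉₊ with hm
  have hm1 : 8 * g ≤ m := Nat.le_ceil _
  have hm2 : (m : ℝ) < 8 * g + 1 := Nat.ceil_lt_add_one (by positivity)
  have hm0 : 0 < m := Nat.ceil_pos.2 (by positivity)
  have hk : ∀ k : ℕ, k ≤ n → 0 ≤ 16 * g * k ∧ 16 * g * k + 16 * g ≤ w := fun k h => by
    have : (k : ℝ) ≤ n := by exact_mod_cast h
    exact ⟨by positivity, by rw [hwd, hν]; nlinarith only [hg0, this]⟩
  obtain ⟨τ, τm, hτ⟩ := choose_times n m hm0
    (fun k i => K.Z L (fun l => G l ∧ K.BadF R (a + w) (a + 16 * g * k + i) l) x0 y0 +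
      K.Z L (fun l => G l ∧ K.BadB R a (a + 16 * g * k + i) l) x0 y0)
    (fun j k i i' => K.Z L (fun l => K.P l < 2 * T ∧
      K.Bad2 L R g (4 * g) T ζ (a + 16 * g * j + i) (a + 16 * g * k + i') l) x0 y0)
    (32 * ν * F / R) (65 * R * ν * Y) (by positivity)
    (fun k hkn => by
      obtain ⟨k0, k1⟩ := hk k hkn
      rw [sum_add_distrib]
      have e1 := K.k4a4_avg m L x0 y0 G _ fun l =>
        K.cnt_badF R a (a + w) (a + 16 * g * k) m (by linarith only [hR1]) (by linarith only [k0]) (by linarith only [hg0, k0, k1]) l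
      have e2 := K.k4a4_avg m L x0 y0 G _ fun l =>
        K.cnt_badB R a (a + w) (a + 16 * g * k) m (by linarith only [hR1]) (by linarith only [hg0, hm2, k1]) (by linarith only [hg0, k0, k1]) l
      refine (add_le_add e1 e2).trans ?_
      have : 8 * (a + w - a) / R * F + 8 * (a + w - a) / R * F = 8 * g * (32 * ν * F / R) := by
        rw [hwd]; ring
      rw [this]
      exact mul_le_mul_of_nonneg_right hm1 (by positivity))
    (fun j k _ _ i _ => by
      refine (K.bad2_sum L R g (4 * g) T ζ _ (a + 16 * g * k) m hζ hg0.le hT.le hret x0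
        y0).trans ?_
      have h1 : 2 * T + g ≤ 260 * R * ν * g := by
        rw [hTg]; nlinarith [mul_le_mul hR1 hn zero_le_one hR0.le]
      calc 2 * ζ * (2 * T + g) * K.W y0 ^ 40 = 2 * Y * (2 * T + g) := by rw [hY]; ring
        _ ≤ 2 * Y * (260 * R * ν * g) := by gcongr
        _ = 8 * g * (65 * R * ν * Y) := by ring
        _ ≤ _ := mul_le_mul_of_nonneg_right hm1 (by positivity))
  set t : ℕ → ℝ := fun k => a + 16 * g * k + τ k with ht
  have τ1 : ∀ k, 0 ≤ (τ k : ℝ) ∧ (τ k : ℝ) < 8 * g := fun k => by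
    have : ((τ k + 1 : ℕ) : ℝ) ≤ m := by exact_mod_cast τm k
    push_cast at this
    exact ⟨Nat.cast_nonneg _, by linarith only [hm2, this]⟩
  obtain ⟨l, hl, h1, h2⟩ : ∃ l, G l ∧
      (∀ k ≤ n, ¬ K.BadF R (a + w) (t k) l ∧ ¬ K.BadB R a (t k) l) ∧
      ∀ j k, j < k → k ≤ n → ¬ K.Bad2 L R g (4 * g) T ζ (t j) (t k) l := by
    by_contra hc
    have hle : F ≤ _ := K.k4a4_sum (range (n + 1)) L x0 y0 (G := G)
      (fun k l => G l ∧ ((K.BadF R (a + w) (t k) l ∨ K.BadB R a (t k) l) ∨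
        ∃ j ∈ range k, K.Bad2 L R g (4 * g) T ζ (t j) (t k) l)) fun l hl => by
      by_contra h
      refine hc ⟨l, hl, fun k hkn => ⟨fun e => ?_, fun e => ?_⟩, fun j k hj hkn e => ?_⟩
      · exact h ⟨k, mem_range.2 (by omega), hl, Or.inl (Or.inl e)⟩
      · exact h ⟨k, mem_range.2 (by omega), hl, Or.inl (Or.inr e)⟩
      · exact h ⟨k, mem_range.2 (by omega), hl, Or.inr ⟨j, mem_range.2 hj, e⟩⟩
    have := hle.trans ((sum_le_sum fun k _ => ?_).trans hτ)
    · have e1 : ν * (32 * ν * F / R) ≤ F / 16 := by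
        rw [← mul_div_assoc, div_le_div_iff₀ hR0 (by norm_num)]
        linarith only [mul_le_mul_of_nonneg_right hR hF0.le]
      have e2 : ν ^ 2 * (65 * R * ν * Y) = 65 * (R * ν ^ 3 * Y) := by ring
      have e3 : 0 ≤ R * ν ^ 3 * Y := by positivity
      linarith only [hF, hF0, this, e1]
    · refine (K.Z_or L (Ψ := fun l => G l ∧ (K.BadF R (a + w) (t k) l ∨ K.BadB R a (t k) l))
        (Ψ' := fun l => G l ∧ ∃ j ∈ range k, K.Bad2 L R g (4 * g) T ζ (t j) (t k) l)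
        (fun l h => h.2.imp (fun e => ⟨h.1, e⟩) fun e => ⟨h.1, e⟩) x0 y0).trans (add_le_add ?_ ?_)
      · exact K.Z_or L (fun l h => h.2.imp (fun e => ⟨h.1, e⟩) fun e => ⟨h.1, e⟩) x0 y0
      · exact K.k4a4_sum (range k) L x0 y0 _ fun l ⟨h, j, hj, e⟩ => ⟨j, hj, h.1, e⟩
  obtain ⟨x, x1, x2⟩ := K.good_path L n R g (4 * g) T ζ a w (8 * g) t l ha hwT (by linarith only [hg0])
    (by linarith only [hg0]) hl.2
    (fun k hkn => by
      obtain ⟨k0, k1⟩ := hk k hkn
      obtain ⟨k2, k3⟩ := τ1 k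
      exact ⟨by simp only [ht]; linarith only [k0], by simp only [ht]; linarith only [hg0, k1, k3]⟩)
    (fun j k hj _ => by
      have : (j : ℝ) + 1 ≤ k := by exact_mod_cast hj
      have := τ1 j
      have := τ1 k
      simp only [ht]
      nlinarith) h1 h2
  refine ⟨fun k => x (k + 1), fun j k e => ?_, fun j k h => x2 _ _ (by omega) (by omega)⟩
  by_contra hne
  rcases lt_or_gt_of_ne hne with h | h
  · exact x1 (j + 1) (k + 1) (by omega) (by omega) (by omega) e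
  · exact x1 (k + 1) (j + 1) (by omega) (by omega) (by omega) e.symm

end Ker

end Pool.Agent.MP_114209_co.H79

/-! Section 4 (c): a heavy good kernel gives a link. -/

namespace Pool.Agent.MP_114209_co.H79

open Finset

variable {V : Type} [Fintype V]

namespace Ker

variable {K : Ker V} {L : ℕ} {R η e T : ℝ}

theorem k4c1_zb (K : Ker V) (L : ℕ) (x z : V) :
    K.Z L (fun l => K.P l ≤ K.W x) x z ≤ 2 * (K.W z / K.W x) ^ 40 := by
  have hx := K.Wpos x
  have h := le_trans (single_le_sum (f := fun u => K.W u ^ 40 * min (K.W u) (K.W x) *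
    K.Z L (fun l => K.P l ≤ K.W x) u z) (fun u _ => mul_nonneg (mul_nonneg
      (pow_pos (K.Wpos u) _).le (le_min (K.Wpos u).le hx.le)) (K.Z_nonneg _ _ _ _)) (mem_univ x))
    (K.occb L z (K.W x) (K.W x) hx.le hx.le)
  rw [min_self] at h
  rw [div_pow, ← mul_div_assoc, le_div_iff₀ (pow_pos hx _)]
  refine le_of_mul_le_mul_left ?_ hx
  linarith

theorem k4c1_zf (K : Ker V) (L : ℕ) (t y : V) : K.Z L (fun l => K.P l ≤ K.W y) t y ≤ 2 := by
  have hy := K.Wpos y
  have h := le_trans (single_le_sum (f := fun u => K.Z L (fun l => K.P l ≤ K.W y) t u *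
    min (K.W u) (K.W y)) (fun u _ => mul_nonneg (K.Z_nonneg _ _ _ _)
      (le_min (K.Wpos u).le hy.le)) (mem_univ y)) (K.occf L t (K.W y) (K.W y) hy.le hy.le)
  rw [min_self] at h
  refine le_of_mul_le_mul_right ?_ hy
  linarith

theorem k4c1_pow {a b : ℝ} (h0 : 0 ≤ a) (h : a ≤ b) : a ^ 40 ≤ b ^ 38 * a ^ 2 := by
  rw [show (40 : ℕ) = 38 + 2 from rfl, pow_add]
  exact mul_le_mul_of_nonneg_right (pow_le_pow_left₀ h0 h 38) (sq_nonneg a)

theorem k4c1_half (w : ℝ) {a : ℝ} (ha : 0 < a) : (w / (a / 2)) ^ 40 = 2 ^ 40 * (w / a) ^ 40 := by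
  rw [← mul_pow]; congr 1; field_simp

/-- a kernel with a lower bound on the scale: long clock or large base -/
theorem k4c1_or (K : Ker V) (L : ℕ) (Φ : List V → Prop) (x y : V) (w a b : ℝ) (hb : 0 ≤ b)
    (h : a / 2 < w → K.Z L (fun l => K.P l ≤ w) x y ≤ b) :
    K.Z L (fun l => a ≤ w + K.P l ∧ Φ l) x y ≤ K.Z L (fun l => a / 2 ≤ K.P l ∧ Φ l) x y + b := by
  refine (K.Z_or L (Ψ := fun l => a / 2 ≤ K.P l ∧ Φ l) (Ψ' := fun l => a / 2 < w ∧ K.P l ≤ w)
    (fun l hl => ?_) x y).trans (add_le_add le_rfl ?_)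
  · by_cases h1 : a / 2 ≤ K.P l
    · exact Or.inl ⟨h1, hl.2⟩
    · exact Or.inr ⟨by linarith [hl.1], by linarith only [hl.1, h1]⟩
  · by_cases h1 : a / 2 < w
    · exact (K.Z_mono L (fun l hl => hl.2) x y).trans (h h1)
    · rw [K.Z_empty L fun l hl => h1 hl.1]; exact hb

theorem k4c1_sum (L : ℕ) (Φ : List V → Prop) (z : V) (f : V → List V → ℝ) :
    ∑ u, ∑ l ∈ lists V L, ind (u = z ∧ Φ l) * f u l = ∑ l ∈ lists V L, ind (Φ l) * f z l := by
  rw [← sum_ind_eq z fun u => ∑ l ∈ lists V L, ind (Φ l) * f u l]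
  refine sum_congr rfl fun u _ => ?_
  rw [mul_sum]
  exact sum_congr rfl fun l _ => by rw [ind_and, ind_congr eq_comm, mul_assoc]

theorem ss (hC : K.Calm L R η e T) {r : ℝ} (hr0 : 0 < r) (hr1 : r ≤ 1) (x z : V)
    (h : K.W z ≤ 2 * R * K.W x) : K.Z L (fun l => K.P l ≤ K.W x) x z ≤
      (2 * r ^ 38 + 6 * e * (2 * R) ^ 38 / r ^ 41) * (K.W z / K.W x) ^ 2 := by
  have hx := K.Wpos x
  have hz := K.Wpos z
  have he := hC.e0
  have hR := hC.R1
  have h0 : 0 < K.W z / K.W x := div_pos hz hx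
  rw [add_mul]
  by_cases hc : K.W z / K.W x ≤ r
  · have := k4c1_pow h0.le hc
    have h2 : 0 ≤ 6 * e * (2 * R) ^ 38 / r ^ 41 * (K.W z / K.W x) ^ 2 := by positivity
    linarith [K.k4c1_zb L x z]
  · have h1 := hC.bc x z (r * K.W x) (K.W x) (by positivity) (mul_le_of_le_one_left hx.le hr1)
      ((lt_div_iff₀ hx).1 (not_le.1 hc)).le hx.le
    have h2 := k4c1_pow h0.le ((div_le_iff₀ hx).2 h)
    have e1 : e * (4 + 2 * K.W x / (r * K.W x)) * (K.W z / (r * K.W x)) ^ 40 =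
        e * (4 * r + 2) / r ^ 41 * (K.W z / K.W x) ^ 40 := by field_simp
    have h3 : e * (4 * r + 2) / r ^ 41 ≤ 6 * e / r ^ 41 :=
      div_le_div_of_nonneg_right (by nlinarith only [hr1, he]) (by positivity)
    have h4 := mul_le_mul h3 h2 (by positivity) (by positivity)
    have h5 : 0 ≤ 2 * r ^ 38 * (K.W z / K.W x) ^ 2 := by positivity
    have e2 : 6 * e / r ^ 41 * ((2 * R) ^ 38 * (K.W z / K.W x) ^ 2) =
        6 * e * (2 * R) ^ 38 / r ^ 41 * (K.W z / K.W x) ^ 2 := by ring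
    linarith

theorem presmall (hC : K.Calm L R η e T) {r be : ℝ} (hr0 : 0 < r) (hr1 : r ≤ 1)
    (hbe : 8 * r ^ 38 + 24 * e * (2 * R) ^ 38 / r ^ 41 + 2 * 4 ^ 40 * η * R ^ 38 ≤ be) :
    K.Small L R T be := by
  intro x z sc hsc hz
  have hx := K.Wpos x
  have hw := K.Wpos z
  have he := hC.e0
  have hR := hC.R1
  have hη := hC.η0
  set β := 2 * r ^ 38 + 6 * e * (2 * R) ^ 38 / r ^ 41 with hβ
  have β0 : 0 ≤ β := by positivity
  have h1 := K.k4c1_or L (fun l => K.P l < T ∧ K.fwd R x l) x z (K.W x) sc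
    (β * (4 * (K.W z / sc) ^ 2)) (by positivity) fun h => by
      refine (ss hC hr0 hr1 x z (by nlinarith only [hsc, hz, hw, h])).trans (mul_le_mul_of_nonneg_left ?_ β0)
      rw [show 4 * (K.W z / sc) ^ 2 = (K.W z / (sc / 2)) ^ 2 by field_simp; norm_num]
      exact pow_le_pow_left₀ (by positivity)
        (div_le_div_of_nonneg_left hw.le (by positivity) h.le) 2
  have h2 := hC.nf x z (sc / 2) (by positivity)
  rw [k4c1_half _ hsc] at h2
  have h3 := mul_le_mul_of_nonneg_left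
    (k4c1_pow (div_pos hw hsc).le ((div_le_iff₀ hsc).2 hz)) hη
  have h4 := mul_le_mul_of_nonneg_right hbe (sq_nonneg (K.W z / sc))
  have e1 : (8 * r ^ 38 + 24 * e * (2 * R) ^ 38 / r ^ 41 + 2 * 4 ^ 40 * η * R ^ 38) *
      (K.W z / sc) ^ 2 = β * (4 * (K.W z / sc) ^ 2) +
        2 * 4 ^ 40 * (η * (R ^ 38 * (K.W z / sc) ^ 2)) := by rw [hβ]; ring
  have e2 : 2 * 2 ^ 40 * η * (2 ^ 40 * (K.W z / sc) ^ 40) =
      2 * 4 ^ 40 * (η * (K.W z / sc) ^ 40) := by ring
  linarith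

theorem k4c1_fin {η X A B : ℝ} (h1 : η ≤ 1) (hX : 0 ≤ X) (hA : A ≤ X)
    (hB : B ≤ 2 * 2 ^ 40 * η * (2 ^ 40 * X) + 2 * (2 ^ 40 * X)) : A + B ≤ 5 * 4 ^ 40 * X := by
  have := mul_le_mul_of_nonneg_right h1 hX
  linarith

theorem prebig (hC : K.Calm L R η e T) (x z : V) (a : ℝ) (ha : 0 < a) :
    ∑ p ∈ lists V L, ind (lst x p = z ∧ a ≤ K.W x + K.P p.dropLast ∧ K.P p.dropLast < T ∧
      K.fwd R x p.dropLast) * pw K.Q x p ≤ 5 * 4 ^ 40 * (K.W z / a) ^ 40 := by
  have hw := K.Wpos z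
  have hX : 0 ≤ (K.W z / a) ^ 40 := by positivity
  refine (sum_lists_snoc_le L _ fun l => mul_nonneg (ind_nonneg _) (pw_nonneg K.Q0 x l)).trans
    (k4c1_fin hC.η1 hX (ind_mul_le hX fun h => ?_) ?_)
  · obtain ⟨rfl, h, -⟩ := h
    exact one_le_pow₀ ((one_le_div ha).2 (by simpa [lst] using h))
  · simp only [lst_snoc, pw_snoc, List.dropLast_concat]
    rw [k4c1_sum L _ z fun u l => qw K.Q x l u, ← k4c1_half _ ha]
    refine (K.k4c1_or L (fun l => K.P l < T ∧ K.fwd R x l) x z (K.W x) a _ (by positivity)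
      fun h => (K.k4c1_zb L x z).trans ?_).trans
        (add_le_add (hC.nf x z (a / 2) (by positivity)) le_rfl)
    have := K.Wpos x
    exact mul_le_mul_of_nonneg_left (pow_le_pow_left₀ (by positivity)
      (div_le_div_of_nonneg_left hw.le (by positivity) h.le) 40) zero_le_two

theorem sufbig (hC : K.Calm L R η e T) (t y : V) (a : ℝ) (ha : 0 < a) :
    ∑ s ∈ lists V L, ind (hd s y = t ∧ a ≤ K.W y + K.P s.tail ∧ K.P s.tail < T ∧
      K.bwd R y s.tail) * sw K.Q s y ≤ 5 * 4 ^ 40 * (K.W y / a) ^ 40 := by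
  have hw := K.Wpos y
  have hX : 0 ≤ (K.W y / a) ^ 40 := by positivity
  refine (sum_lists_cons_le L _ fun l => mul_nonneg (ind_nonneg _) (sw_nonneg K.Q0 l y)).trans
    (k4c1_fin hC.η1 hX (ind_mul_le hX fun h => ?_) ?_)
  · exact one_le_pow₀ ((one_le_div ha).2 (by simpa using h.2.1))
  · simp only [hd, sw, List.tail_cons]
    rw [k4c1_sum L _ t fun u l => qw K.Q u l y, ← k4c1_half _ ha]
    refine (K.k4c1_or L (fun l => K.P l < T ∧ K.bwd R y l) t y (K.W y) a _ (by positivity)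
      fun h => (K.k4c1_zf L t y).trans ?_).trans
        (add_le_add (hC.nb t y (a / 2) (by positivity)) le_rfl)
    exact le_mul_of_one_le_right zero_le_two
      (one_le_pow₀ ((one_le_div (by positivity)).2 h.le))

theorem k4c1_th (η w : ℝ) {D : ℝ} (hD : 0 < D) :
    2 * 2 ^ 40 * η * (w / (D / 4)) ^ 40 = Th η D * w ^ 40 := by
  rw [Th, mul_assoc _ ((4 / D) ^ 40), ← mul_pow]; congr 2; field_simp

theorem th_f (hC : K.Calm L R η e T) {D : ℝ} (hD : 0 < D) (x y : V) :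
    K.Z L (fun l => D / 4 ≤ K.P l ∧ K.P l < T ∧ K.fwd R x l) x y ≤ Th η D * K.W y ^ 40 :=
  (hC.nf x y (D / 4) (by positivity)).trans (k4c1_th η _ hD).le

theorem th_b (hC : K.Calm L R η e T) {D : ℝ} (hD : 0 < D) (x y : V) :
    K.Z L (fun l => D / 4 ≤ K.P l ∧ K.P l < T ∧ K.bwd R y l) x y ≤ Th η D * K.W y ^ 40 :=
  (hC.nb x y (D / 4) (by positivity)).trans (k4c1_th η _ hD).le

theorem k4c1_cut (K : Ker V) (L : ℕ) {Φ : List V → Prop} (A B : List V → Prop) (x z y : V)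
    (h : ∀ l, Φ l → ∃ p s, l = p ++ z :: s ∧ A p ∧ B s) :
    K.Z L Φ x y ≤ K.Z L A x z * K.Z L B z y := by
  refine (K.Z_cut' L (fun u p => u = z ∧ A p) (fun _ => B) (fun l hl => ?_) x y).trans (le_of_eq ?_)
  · obtain ⟨p, s, a, b, c⟩ := h l hl
    exact ⟨p, z, s, a, ⟨rfl, b⟩, c⟩
  · rw [sum_eq_single z (fun u _ hu => by rw [K.Z_empty L fun l hl => hu hl.1, zero_mul])
      (by simp only [mem_univ, not_true_eq_false, true_and, mul_eq_zero, IsEmpty.forall_iff])]
    simp only [true_and]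

theorem ret (hC : K.Calm L R η e T) {be g D : ℝ} (hS : K.Small L R T be)
    (hS' : K.rev.Small L R T be) (hbe : 0 ≤ be) (hD : 0 < D) (hg : 4 * g ≤ D) (x y : V) :
    K.Z L (fun l => K.GG R g D T x y l ∧ y ∈ l) x y ≤
      2 * be * R ^ 2 * (Th η D * K.W y ^ 40) := by
  have hw := K.Wpos y
  have hR := hC.R1
  have hR0 : 0 < R := one_pos.trans_le hR
  set A1 : List V → Prop := fun p => K.W y / R ≤ K.W x + K.P p ∧ K.P p < T ∧ K.fwd R x p
  set B1 : List V → Prop := fun s => D / 4 ≤ K.P s ∧ K.P s < T ∧ K.bwd R y s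
  set A2 : List V → Prop := fun p => D / 4 ≤ K.P p ∧ K.P p < T ∧ K.fwd R x p
  set B2 : List V → Prop := fun s => K.W y ≤ K.W y + K.P s ∧ K.P s < T ∧ K.bwd R y s
  have h0 := K.Z_or L (Φ := fun l => K.GG R g D T x y l ∧ y ∈ l)
    (Ψ := fun l => ∃ p s, l = p ++ y :: s ∧ A1 p ∧ B1 s)
    (Ψ' := fun l => ∃ p s, l = p ++ y :: s ∧ A2 p ∧ B2 s) (fun l hl => by
      obtain ⟨⟨a1, a2, a3, a4, a5⟩, hy⟩ := hl
      have a6 := a3 y hy
      obtain ⟨p, s, rfl⟩ := List.append_of_mem hy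
      rw [P_append, P_cons] at a1 a2
      have p0 := K.P_nonneg p
      have s0 := K.P_nonneg s
      have b5 : K.bwd R y s := K.bwd_right (p := p ++ [y]) (by simpa using a5)
      by_cases hs : D / 4 ≤ K.P s
      · exact Or.inl ⟨p, s, rfl, ⟨by rw [div_le_iff₀' hR0]; exact K.fwd_le hR0.le a4, by linarith only [hw, a2, s0],
          K.fwd_left a4⟩, hs, by linarith only [hw, a2, p0], b5⟩
      · exact Or.inr ⟨p, s, rfl, ⟨by linarith, by linarith, K.fwd_left a4⟩, by linarith only [s0],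
          by linarith, b5⟩) x y
  have t0 : 0 ≤ Th η D * K.W y ^ 40 := (K.Z_nonneg _ _ _ _).trans (th_f hC hD x y)
  have h1 : K.Z L A1 x y ≤ be * R ^ 2 := by
    refine (hS x y (K.W y / R) (by positivity) (le_of_eq (by field_simp))).trans (le_of_eq ?_)
    field_simp
  have h2 : K.Z L B2 y y ≤ be * R ^ 2 := by
    have := K.small_rev hS' y y (K.W y) hw (le_mul_of_one_le_left hw.le hR)
    rw [div_self hw.ne', one_pow, mul_one, mul_comm be] at this
    exact (le_of_mul_le_mul_left this (pow_pos hw _)).trans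
      (le_mul_of_one_le_right hbe (one_le_pow₀ hR))
  have h3 := (K.k4c1_cut L A1 B1 x y y fun l hl => hl).trans
    (mul_le_mul h1 (th_b hC hD y y) (K.Z_nonneg _ _ _ _) (by positivity))
  have h4 := (K.k4c1_cut L A2 B2 x y y fun l hl => hl).trans
    (mul_le_mul (th_f hC hD x y) h2 (K.Z_nonneg _ _ _ _) t0)
  linarith

end Ker

end Pool.Agent.MP_114209_co.H79

namespace Pool.Agent.MP_114209_co.H79

open Finset

variable {V : Type} [Fintype V]

namespace Ker

variable {K : Ker V} {L : ℕ} {R η e T : ℝ}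

theorem k4c2_sum (L : ℕ) (w : List V → ℝ) (F : List V → V → List V → ℝ) :
    ∑ a ∈ lists V L ×ˢ ((univ : Finset V) ×ˢ lists V L),
      ind (a.1.length + a.2.2.length + 1 ≤ L) * (w (a.1 ++ a.2.1 :: a.2.2) * F a.1 a.2.1 a.2.2) =
    ∑ l ∈ lists V L, w l * sp3 F l := by
  have h : ∀ l, w l * sp3 F l = sp3 (fun p z s => w (p ++ z :: s) * F p z s) l := fun l => by
    rw [mul_sp3]; exact sp3_congr fun p z s hl => by rw [hl]
  simp only [h, sum_sp3, sum_product]

theorem k4c2_gen (K : Ker V) (L : ℕ) (G : List V → Prop) (A : List V → List V → Prop)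
    (key : List V → List V → ℝ) (β : List V → V → List V → ℝ) (x y : V) (φ : V → ℝ)
    (hφ : ∑ u, φ u ^ 2 ≤ 1) {δ C : ℝ} (hδ0 : 0 ≤ δ) (hβ : ∀ p z s, 0 ≤ β p z s)
    (h1 : ∀ p z s, G (p ++ z :: s) → ∃ Φ Ψ : List V → Prop,
      (∀ p' s', G (p' ++ z :: s') → A p' s' → key p s ≤ key p' s' → Φ p' ∧ Ψ s') ∧
      K.Z L Φ x z * K.Z L Ψ z y ≤ β p z s)
    (h2 : ∀ l, G l → sp3 β l ≤ C) (hδ : 2 * C * K.Z L G x y ≤ δ ^ 2) :
    ∑ l ∈ lists V L, ind (G l) * qw K.Q x l y * sp3 (fun p z s => ind (A p s) * φ z) l ≤ δ := by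
  have w0 : ∀ l, 0 ≤ ind (G l) * qw K.Q x l y := fun l => mul_nonneg (ind_nonneg _) (K.qw0 x l y)
  have hc := charge' (lists V L ×ˢ ((univ : Finset V) ×ˢ lists V L))
    (fun a => ind (a.1.length + a.2.2.length + 1 ≤ L) * ((ind (G (a.1 ++ a.2.1 :: a.2.2)) *
      qw K.Q x (a.1 ++ a.2.1 :: a.2.2) y) * ind (A a.1 a.2.2)))
    (fun a => key a.1 a.2.2) (fun a => β a.1 a.2.1 a.2.2) (fun a u => ind (a.2.1 = u))
    (fun a _ => mul_nonneg (ind_nonneg _) (mul_nonneg (w0 _) (ind_nonneg _)))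
    (fun a _ u => ind_nonneg _) ?_ hδ0 ?_ φ hφ
  · rw [← k4c2_sum L (fun l => ind (G l) * qw K.Q x l y)]
    refine le_of_eq_of_le (sum_congr rfl fun a _ => ?_) hc
    rw [sum_ind_eq]; ring
  · rintro ⟨p, z, s⟩ - ha
    have hG : G (p ++ z :: s) := by
      by_contra hn
      simp only [ind_not hn, zero_mul, mul_zero, lt_self_iff_false] at ha
    obtain ⟨Φ, Ψ, h3, h4⟩ := h1 p z s hG
    rw [sum_ind_eq]
    refine le_trans ?_ h4
    simp only [Z, sum_product, sum_mul_sum]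
    refine sum_le_sum fun p' _ => ?_
    rw [sum_eq_single z (fun u _ hu => sum_eq_zero fun s' _ => by
      rw [ind_not hu, mul_zero, mul_zero]) (by simp only [mem_univ, not_true_eq_false, Order.add_one_le_iff, IsEmpty.forall_iff])]
    refine sum_le_sum fun s' _ => ?_
    have q1 := mul_nonneg (mul_nonneg (ind_nonneg (Φ p')) (K.qw0 x p' z))
      (mul_nonneg (ind_nonneg (Ψ s')) (K.qw0 z s' y))
    refine ind_mul_le q1 fun a1 => ?_
    rw [ind_of rfl, mul_one]
    refine ind_mul_le q1 fun _ => ?_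
    rw [mul_comm]
    refine ind_mul_le q1 fun a2 => ind_mul_le q1 fun a3 => ?_
    obtain ⟨b1, b2⟩ := h3 p' s' a3 a2 a1
    rw [ind_of b1, ind_of b2, qw_append, one_mul, one_mul]
  · refine le_trans ?_ hδ
    rw [mul_assoc 2 C]
    refine mul_le_mul_of_nonneg_left ?_ zero_le_two
    have h5 := k4c2_sum L (fun l => ind (G l) * qw K.Q x l y) fun p z s => ind (A p s) * β p z s
    refine le_of_eq_of_le ((sum_congr rfl fun a _ => ?_).trans h5) ?_
    · ring
    · rw [Z, mul_sum]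
      refine sum_le_sum fun l _ => ?_
      by_cases hl : G l
      · rw [mul_comm C]
        exact mul_le_mul_of_nonneg_left ((sp3_mono fun p z s _ =>
          ind_mul_le (hβ p z s) fun _ => le_rfl).trans (h2 l hl)) (w0 l)
      · simp [ind_not hl]

theorem k4c2_parts {R g D T : ℝ} {x y z : V} {p s : List V}
    (h : K.GG R g D T x y (p ++ z :: s)) :
    (K.P p < T ∧ K.fwd R x p) ∧ K.P s < T ∧ K.bwd R y s := by
  obtain ⟨-, a2, -, a4, a5⟩ := h
  rw [P_append, P_cons] at a2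
  have p0 := K.P_nonneg p
  have s0 := K.P_nonneg s
  have := K.Wpos z
  exact ⟨⟨by linarith, K.fwd_left a4⟩, by linarith,
    K.bwd_right (p := p ++ [z]) (by simpa using a5)⟩

theorem rst1 (hC : K.Calm L R η e T) {be g D : ℝ} (hS : K.Small L R T be) (hbe : 0 ≤ be)
    (hD : 0 < D) (x y : V) (φ : V → ℝ) (hφ : ∑ u, φ u ^ 2 ≤ 1) {δ : ℝ} (hδ0 : 0 ≤ δ)
    (hδ : 2 * be * R ^ 2 * (Th η D * K.W y ^ 40) * K.Z L (K.GG R g D T x y) x y ≤ δ ^ 2) :
    ∑ l ∈ lists V L, ind (K.GG R g D T x y l) * qw K.Q x l y *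
      sp3 (fun _ z s => ind (D / 4 ≤ K.P s) * φ z) l ≤ δ := by
  have t0 : 0 ≤ Th η D * K.W y ^ 40 := (K.Z_nonneg _ _ _ _).trans (th_f hC hD x y)
  have hR0 : 0 ≤ R := zero_le_one.trans hC.R1
  refine K.k4c2_gen L _ (fun _ s => D / 4 ≤ K.P s) (fun p _ => K.W x + K.P p)
    (fun p z _ => be * (Th η D * K.W y ^ 40) * (K.W z / (K.W x + ls K.W p)) ^ 2) x y φ hφ
    (C := be * (Th η D * K.W y ^ 40) * R ^ 2) hδ0 (fun p z s => by positivity)
    (fun p z s h => ⟨fun l => K.W x + K.P p ≤ K.W x + K.P l ∧ K.P l < T ∧ K.fwd R x l,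
      fun l => D / 4 ≤ K.P l ∧ K.P l < T ∧ K.bwd R y l, fun p' s' a1 a2 a3 =>
      ⟨⟨a3, (k4c2_parts a1).1⟩, a2, (k4c2_parts a1).2⟩, ?_⟩) (fun l h => ?_) (by linarith)
  · have h1 := hS x z (K.W x + K.P p) (add_pos_of_pos_of_nonneg (K.Wpos x) (K.P_nonneg p))
      (K.fwd_le hR0 h.2.2.2.1)
    refine (mul_le_mul h1 (th_b hC hD z y) (K.Z_nonneg _ _ _ _) (by positivity)).trans
      (le_of_eq ?_)
    rw [P]; ring
  · rw [← mul_sp3, ← sp3_fs]
    exact mul_le_mul_of_nonneg_left h.2.2.2.1 (by positivity)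

theorem rst2 (hC : K.Calm L R η e T) {be g D : ℝ} (hS : K.rev.Small L R T be) (hbe : 0 ≤ be)
    (hD : 0 < D) (x y : V) (φ : V → ℝ) (hφ : ∑ u, φ u ^ 2 ≤ 1) {δ : ℝ} (hδ0 : 0 ≤ δ)
    (hδ : 2 * be * R ^ 2 * (Th η D * K.W y ^ 40) * K.Z L (K.GG R g D T x y) x y ≤ δ ^ 2) :
    ∑ l ∈ lists V L, ind (K.GG R g D T x y l) * qw K.Q x l y *
      sp3 (fun p z _ => ind (D / 4 ≤ K.P p) * φ z) l ≤ δ := by
  have t0 : 0 ≤ Th η D * K.W y ^ 40 := (K.Z_nonneg _ _ _ _).trans (th_f hC hD x y)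
  have t1 : 0 ≤ Th η D := nonneg_of_mul_nonneg_left t0 (pow_pos (K.Wpos y) _)
  have hR0 : 0 ≤ R := zero_le_one.trans hC.R1
  refine K.k4c2_gen L _ (fun p _ => D / 4 ≤ K.P p) (fun _ s => K.W y + K.P s)
    (fun _ z s => be * (Th η D * K.W y ^ 40) * (K.W z / (K.W y + ls K.W s)) ^ 2) x y φ hφ
    (C := be * (Th η D * K.W y ^ 40) * R ^ 2) hδ0 (fun p z s => by positivity)
    (fun p z s h => ⟨fun l => D / 4 ≤ K.P l ∧ K.P l < T ∧ K.fwd R x l,
      fun l => K.W y + K.P s ≤ K.W y + K.P l ∧ K.P l < T ∧ K.bwd R y l, fun p' s' a1 a2 a3 =>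
      ⟨⟨a2, (k4c2_parts a1).1⟩, a3, (k4c2_parts a1).2⟩, ?_⟩) (fun l h => ?_) (by linarith)
  · have h1 := K.small_rev hS z y (K.W y + K.P s)
      (add_pos_of_pos_of_nonneg (K.Wpos y) (K.P_nonneg s)) (K.bwd_le hR0 h.2.2.2.2)
    refine (mul_le_mul_of_nonneg_right (th_f hC hD x z) (K.Z_nonneg _ _ _ _)).trans ?_
    rw [mul_assoc]
    refine (mul_le_mul_of_nonneg_left h1 t1).trans (le_of_eq ?_)
    rw [P]; ring
  · rw [← mul_sp3, ← sp3_fs_rev]
    exact mul_le_mul_of_nonneg_left h.2.2.2.2 (by positivity)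

end Ker

end Pool.Agent.MP_114209_co.H79

namespace Pool.Agent.MP_114209_co.H79

open Finset

variable {V : Type} [Fintype V]

theorem ph_bound {R r y0 : ℝ} (hR : 1 ≤ R) (hr : 0 < r) (hy0 : 0 < y0) (hy : y0 ≤ R) :
    min (R ^ 40) ((r ^ 2 * y0) ^ 40) ≤ R ^ 40 * y0 ^ 2 * ph r := by
  have h1 : 1 ≤ R ^ 40 := one_le_pow₀ hR
  rw [ph, mul_min_of_nonneg _ _ (by positivity)]
  refine le_min ?_ ((min_le_right _ _).trans ?_)
  · have e : R ^ 40 * y0 ^ 2 * r ^ 4 = R ^ 40 * (r ^ 2 * y0) ^ 2 := by ring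
    rw [e]
    rcases le_total (r ^ 2 * y0) 1 with h | h
    · exact (min_le_right _ _).trans ((pow_le_pow_of_le_one (by positivity) h (by norm_num)).trans
        (le_mul_of_one_le_left (by positivity) h1))
    · exact (min_le_left _ _).trans (le_mul_of_one_le_right (by positivity) (one_le_pow₀ h))
  · calc _ = y0 ^ 38 * y0 ^ 2 * r ^ 80 := by ring
      _ ≤ R ^ 40 * y0 ^ 2 * r ^ 80 := by
        gcongr
        exact (pow_le_pow_left₀ hy0.le hy 38).trans (pow_le_pow_right₀ hR (by norm_num))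

namespace Ker

variable {K : Ker V} {L : ℕ} {R η e T : ℝ}

theorem k4c3_suf (hC : K.Calm L R η e T) {D : ℝ} (hD : 0 < D) (t y : V) :
    ∑ r ∈ lists V L, ind (hd r y = t ∧ D / 4 ≤ K.P r.tail ∧ K.P r.tail < T ∧
      K.bwd R y r.tail) * sw K.Q r y ≤ Th η D * K.W y ^ 40 := by
  refine (sum_lists_cons_le L _ fun l =>
    mul_nonneg (ind_nonneg _) (sw_nonneg K.Q0 _ _)).trans ?_
  rw [ind_not (fun h => by have := h.2.1; simp only [List.tail_nil, P_nil] at this; linarith only [hD, this]), zero_mul, zero_add]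
  refine le_trans (le_of_eq ?_) (th_b hC hD t y)
  rw [← sum_ind_eq t fun u => K.Z L (fun l => D / 4 ≤ K.P l ∧ K.P l < T ∧ K.bwd R y l) u y]
  refine sum_congr rfl fun u _ => ?_
  rw [Z, mul_sum]
  refine sum_congr rfl fun l _ => ?_
  rw [hd, sw, List.tail_cons, ind_and, ind_congr (eq_comm (a := u)), mul_assoc]

theorem k4c3_cut (hR : 1 ≤ R) {g D : ℝ} (hD : 0 < D) {x y : V} {p r : List V}
    (hG : K.GG R g D T x y (p ++ r)) :
    K.W (lst x p) ≤ R * (K.W x + K.P p.dropLast) ∧ K.P p.dropLast < T ∧ K.fwd R x p.dropLast ∧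
      K.P r.tail < T ∧ K.bwd R y r.tail := by
  obtain ⟨-, hT, -, hf, hb⟩ := hG
  have hx := K.Wpos x
  have hp := K.P_nonneg p
  have hr := K.P_nonneg r
  rw [P_append] at hT
  have h2 : K.P r.tail < T ∧ K.bwd R y r.tail := by
    cases r with
    | nil => exact ⟨by simp at hT ⊢; linarith, K.bwd_right hb⟩
    | cons t r =>
      have e2 : p ++ t :: r = (p ++ [t]) ++ r := by simp
      have := K.Wpos t
      simp only [P_cons, List.tail_cons] at hT ⊢
      exact ⟨by linarith only [hp, this, hT], K.bwd_right (e2 ▸ hb)⟩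
  rcases List.eq_nil_or_concat p with rfl | ⟨p0, z, rfl⟩
  · refine ⟨?_, by simp at hT ⊢; linarith, K.fwd_left (s := r) hf, h2⟩
    simp only [lst, List.dropLast_nil, P_nil, add_zero]; nlinarith only [hR, hx]
  simp only [List.concat_eq_append, List.dropLast_concat, lst_snoc] at *
  have e1 : p0 ++ [z] ++ r = p0 ++ z :: r := by simp
  have := K.Wpos z
  simp only [P_append, P_cons, P_nil] at hT
  exact ⟨K.fwd_le (by linarith only [hR]) (e1 ▸ hf), by linarith, K.fwd_left (e1 ▸ hf), h2⟩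

end Ker

variable {Dg : V → V → Prop} (s : Sys Dg) {L : ℕ} {R η e T : ℝ}

theorem k4c3_num {R sc w w' : ℝ} (hR : 1 ≤ R) (hsc : 0 < sc) (hw : 0 < w) (hw' : 0 < w')
    (h : w ≤ R * sc) : (w' / max (sc * w / w') (w' / R)) ^ 40 ≤
      R ^ 40 * (w / sc) ^ 2 * ph (w' / w) := by
  have hR0 : 0 < R := by linarith
  have hA : 0 < max (sc * w / w') (w' / R) := lt_max_of_lt_right (by positivity)
  refine le_trans (le_min ?_ ?_) (ph_bound hR (div_pos hw' hw)
    (div_pos hw hsc) ((div_le_iff₀ hsc).2 h))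
  · refine pow_le_pow_left₀ (by positivity) ((div_le_iff₀ hA).2 ?_) _
    calc w' = R * (w' / R) := by field_simp
      _ ≤ _ := mul_le_mul_of_nonneg_left (le_max_right _ _) hR0.le
  · refine pow_le_pow_left₀ (by positivity) ((div_le_iff₀ hA).2 ?_) _
    calc w' = (w' / w) ^ 2 * (w / sc) * (sc * w / w') := by field_simp
      _ ≤ _ := mul_le_mul_of_nonneg_left (le_max_left _ _) (by positivity)

theorem k4c3_tot (hC : s.toKer.Calm L R η e T) {g D : ℝ} (hD : 0 < D) (x y z u : V) {sc : ℝ}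
    (hsc : 0 < sc) (hz : s.W z ≤ R * sc) :
    ∑ b ∈ lists V L ×ˢ lists V L,
      ind (sc * s.W z ≤ (s.W x + s.toKer.P b.1.dropLast) * s.W (lst x b.1)) *
      (ind (b.1.length + b.2.length ≤ L) * (ind (s.toKer.GG R g D T x y (b.1 ++ b.2)) *
        (ind (D / 4 ≤ s.toKer.P b.2.tail) * (pw s.Q x b.1 * sw s.Q b.2 y))) *
        s.m (lst x b.1) (hd b.2 y) u) ≤
      Th η D * s.W y ^ 40 * (5 * 4 ^ 40 * R ^ 40) * (s.W z / sc) ^ 2 *
        ∑ z', ph (s.W z' / s.W z) * ∑ t', s.m z' t' u := by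
  have hR := hC.R1
  have hR0 : 0 < R := by linarith
  have hy := s.toKer.Wpos y
  have hTh : 0 ≤ Th η D := by have := hC.η0; unfold Th; positivity
  set A : V → ℝ := fun z' => max (sc * s.W z / s.W z') (s.W z' / R) with hA
  have hA0 : ∀ z', 0 < A z' := fun z' => by
    have := s.toKer.Wpos z'
    exact lt_max_of_lt_right (by positivity)
  set f : V → List V → ℝ := fun z' p => ind (lst x p = z' ∧ A z' ≤ s.W x + s.toKer.P p.dropLast ∧
    s.toKer.P p.dropLast < T ∧ s.toKer.fwd R x p.dropLast) * pw s.Q x p with hf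
  set h : V → List V → ℝ := fun t' r => ind (hd r y = t' ∧
    D / 4 ≤ s.toKer.P r.tail ∧ s.toKer.P r.tail < T ∧ s.toKer.bwd R y r.tail) *
      sw s.Q r y with hh
  have f0 : ∀ z' p, 0 ≤ f z' p := fun _ _ => mul_nonneg (ind_nonneg _) (pw_nonneg s.Q0 _ _)
  have h0 : ∀ t' r, 0 ≤ h t' r := fun _ _ => mul_nonneg (ind_nonneg _) (sw_nonneg s.Q0 _ _)
  have F0 : ∀ z' t' p r, 0 ≤ f z' p * h t' r * s.m z' t' u := fun _ _ _ _ =>
    mul_nonneg (mul_nonneg (f0 _ _) (h0 _ _)) (s.m0 _ _ _)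
  calc _ ≤ ∑ b ∈ lists V L ×ˢ lists V L, ∑ z', ∑ t', f z' b.1 * h t' b.2 * s.m z' t' u := by
        refine sum_le_sum fun b _ => ?_
        refine le_trans ?_ (single_le_sum (f := fun z' => ∑ t', f z' b.1 * h t' b.2 *
          s.m z' t' u) (fun z' _ => sum_nonneg fun t' _ => F0 _ _ _ _) (mem_univ (lst x b.1)))
        refine le_trans ?_ (single_le_sum (f := fun t' => f (lst x b.1) b.1 *
          h t' b.2 * s.m (lst x b.1) t' u) (fun t' _ => F0 _ _ _ _)
          (mem_univ (hd b.2 y)))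
        rw [← mul_assoc]
        refine mul_le_mul_of_nonneg_right ?_ (s.m0 _ _ _)
        simp only [hf, hh]
        rw [mul_mul_mul_comm, ← ind_and, ← mul_assoc, ← mul_assoc, ← mul_assoc, ← ind_and,
          ← ind_and, ← ind_and]
        refine mul_le_mul_of_nonneg_right (ind_mono fun ⟨⟨⟨hk, _⟩, hG⟩, h4⟩ => ?_)
          (mul_nonneg (pw_nonneg s.Q0 _ _) (sw_nonneg s.Q0 _ _))
        obtain ⟨a1, a2, a3, a5, a6⟩ := Ker.k4c3_cut hR hD hG
        refine ⟨⟨trivial, ?_, a2, a3⟩, trivial, h4, a5, a6⟩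
        have hw := s.toKer.Wpos (lst x b.1)
        refine max_le ?_ ?_
        · rwa [div_le_iff₀ hw]
        · rwa [div_le_iff₀ hR0, mul_comm]
    _ = ∑ z', ∑ t', (∑ p ∈ lists V L, f z' p) * (∑ r ∈ lists V L, h t' r) * s.m z' t' u := by
        rw [sum_comm]
        refine sum_congr rfl fun z' _ => ?_
        rw [sum_comm]
        refine sum_congr rfl fun t' _ => ?_
        rw [sum_mul_sum, sum_product, sum_mul]
        simp only [sum_mul]
    _ ≤ _ := by
        rw [mul_sum]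
        refine sum_le_sum fun z' _ => ?_
        rw [← mul_assoc, mul_sum]
        refine sum_le_sum fun t' _ => mul_le_mul_of_nonneg_right ?_ (s.m0 _ _ _)
        have hw := s.toKer.Wpos z'
        have := hA0 z'
        refine (mul_le_mul (Ker.prebig hC x z' (A z') (hA0 z')) (Ker.k4c3_suf hC hD t' y)
          (sum_nonneg fun r _ => h0 _ _) (by positivity)).trans ?_
        have := mul_le_mul_of_nonneg_left (k4c3_num hR hsc (s.toKer.Wpos z) hw hz)
          (show 0 ≤ Th η D * s.W y ^ 40 * (5 * 4 ^ 40) by positivity)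
        refine le_trans (le_of_eq ?_) (this.trans (le_of_eq ?_))
        · simp only [hA]; ring
        · ring

theorem Sys.mid1 (hC : s.toKer.Calm L R η e T) {g D : ℝ} (hD : 0 < D) (x y : V) (φ : V → ℝ)
    (hφ : ∑ u, φ u ^ 2 ≤ 1) {δ : ℝ} (hδ0 : 0 ≤ δ)
    (hδ : Cm R * s.eps * (Th η D * s.W y ^ 40) * s.toKer.Z L (s.toKer.GG R g D T x y) x y ≤
      δ ^ 2) :
    ∑ l ∈ lists V L, ind (s.toKer.GG R g D T x y l) * sp2 (fun p r =>
      ind (D / 4 ≤ s.toKer.P r.tail) *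
        (pw s.Q x p * s.c φ (lst x p) (hd r y) * sw s.Q r y)) l ≤ δ := by
  have hR := hC.R1
  have hTh : 0 ≤ Th η D := by have := hC.η0; unfold Th; positivity
  have hy := s.toKer.Wpos y
  have hx := s.toKer.Wpos x
  have he := s.eps0
  set C : ℝ := Th η D * s.W y ^ 40 * (5 * 4 ^ 40 * R ^ 40) with hCd
  have hC0 : 0 ≤ C := by positivity
  have key : ∀ G : List V → List V → ℝ,
      ∑ l ∈ lists V L, ind (s.toKer.GG R g D T x y l) * sp2 G l =
        ∑ a ∈ lists V L ×ˢ lists V L, ind (a.1.length + a.2.length ≤ L) *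
          (ind (s.toKer.GG R g D T x y (a.1 ++ a.2)) * G a.1 a.2) := fun G => by
    rw [sum_product, ← sum_sp2 L fun p r => ind (s.toKer.GG R g D T x y (p ++ r)) * G p r]
    refine sum_congr rfl fun l _ => ?_
    rw [mul_sp2]
    exact sp2_congr fun p r e => by rw [e]
  have c0 : ∀ a : List V × List V, 0 ≤ ind (a.1.length + a.2.length ≤ L) *
      (ind (s.toKer.GG R g D T x y (a.1 ++ a.2)) * (ind (D / 4 ≤ s.toKer.P a.2.tail) *
        (pw s.Q x a.1 * sw s.Q a.2 y))) := fun a =>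
    mul_nonneg (ind_nonneg _) (mul_nonneg (ind_nonneg _) (mul_nonneg (ind_nonneg _)
      (mul_nonneg (pw_nonneg s.Q0 _ _) (sw_nonneg s.Q0 _ _))))
  have main := charge' (lists V L ×ˢ lists V L) (fun a => ind (a.1.length + a.2.length ≤ L) *
      (ind (s.toKer.GG R g D T x y (a.1 ++ a.2)) * (ind (D / 4 ≤ s.toKer.P a.2.tail) *
        (pw s.Q x a.1 * sw s.Q a.2 y))))
    (fun a => (s.W x + s.toKer.P a.1.dropLast) * s.W (lst x a.1))
    (fun a => C * s.eps * ((s.W (lst x a.1) / (s.W x + s.toKer.P a.1.dropLast)) ^ 2 *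
      s.Q (lst x a.1) (hd a.2 y)))
    (fun a u => s.m (lst x a.1) (hd a.2 y) u) (fun a _ => c0 a) (fun a _ u => s.m0 _ _ _)
    (fun a _ ha => ?_) hδ0 ?_ φ hφ
  · rw [key]
    refine le_trans (le_of_eq (sum_congr rfl fun a _ => ?_)) main
    simp only [Sys.c]; ring
  · have hG : s.toKer.GG R g D T x y (a.1 ++ a.2) := by
      by_contra h; simp [ind_not h] at ha
    have hsc : 0 < s.W x + s.toKer.P a.1.dropLast := by linarith only [s.toKer.P_nonneg a.1.dropLast, hx]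
    refine (sum_le_sum fun u _ => mul_le_mul_of_nonneg_left
      (k4c3_tot s hC hD x y (lst x a.1) u hsc (Ker.k4c3_cut hR hD hG).1) (s.m0 _ _ _)).trans ?_
    have := mul_le_mul_of_nonneg_left (s.M3 (lst x a.1) (hd a.2 y))
      (mul_nonneg hC0 (sq_nonneg (s.W (lst x a.1) / (s.W x + s.toKer.P a.1.dropLast))))
    refine le_trans (le_of_eq ?_) (this.trans (le_of_eq (by ring)))
    rw [mul_sum]
    exact sum_congr rfl fun u _ => by rw [hCd]; ring
  · refine le_trans ?_ hδ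
    have h1 := key fun p r => qw s.Q x (p ++ r) y * (ind (D / 4 ≤ s.toKer.P r.tail) *
      (s.W (lst x p) / (s.W x + s.toKer.P p.dropLast)) ^ 2)
    have h2 : ∑ l ∈ lists V L, ind (s.toKer.GG R g D T x y l) * sp2 (fun p r =>
        qw s.Q x (p ++ r) y * (ind (D / 4 ≤ s.toKer.P r.tail) *
          (s.W (lst x p) / (s.W x + s.toKer.P p.dropLast)) ^ 2)) l ≤
        (1 + R ^ 2) * s.toKer.Z L (s.toKer.GG R g D T x y) x y := by
      rw [Ker.Z, mul_sum]
      refine sum_le_sum fun l _ => ?_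
      by_cases hG : s.toKer.GG R g D T x y l
      · rw [ind_of hG, one_mul, one_mul, mul_comm, sp2_congr (G' := fun p r => qw s.Q x l y *
          (ind (D / 4 ≤ s.toKer.P r.tail) * (s.W (lst x p) / (s.W x + s.toKer.P p.dropLast)) ^ 2))
          (fun p r e => by rw [e]), ← mul_sp2]
        refine mul_le_mul_of_nonneg_left ?_ (s.toKer.qw0 _ _ _)
        rw [sp2_left]
        refine add_le_add ?_ (le_trans ?_ hG.2.2.2.1)
        · refine ind_mul_le zero_le_one fun _ => ?_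
          simp [lst, hx.ne']
        rw [sp3_fs]
        refine sp3_mono fun p z r _ => ?_
        rw [lst_snoc, List.dropLast_concat]
        exact mul_le_of_le_one_left (sq_nonneg _) (ind_le_one _)
      · simp [ind_not hG]
    have hZ := s.toKer.Z_nonneg L (s.toKer.GG R g D T x y) x y
    rw [h1] at h2
    have h3 : 1 ≤ (2 * R) ^ 40 := one_le_pow₀ (by linarith only [hR])
    calc _ = 2 * (C * s.eps * ∑ a ∈ lists V L ×ˢ lists V L, ind (a.1.length + a.2.length ≤ L) *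
          (ind (s.toKer.GG R g D T x y (a.1 ++ a.2)) * (qw s.Q x (a.1 ++ a.2) y *
            (ind (D / 4 ≤ s.toKer.P a.2.tail) *
              (s.W (lst x a.1) / (s.W x + s.toKer.P a.1.dropLast)) ^ 2)))) := by
          rw [mul_sum (a := C * s.eps)]
          congr 1
          exact sum_congr rfl fun a _ => by rw [qw_split]; ring
      _ ≤ 2 * (C * s.eps * ((1 + R ^ 2) * s.toKer.Z L (s.toKer.GG R g D T x y) x y)) :=
          mul_le_mul_of_nonneg_left (mul_le_mul_of_nonneg_left h2 (mul_nonneg hC0 he)) (by norm_num)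
      _ ≤ (2 * R) ^ 40 * (2 * (C * s.eps * ((1 + R ^ 2) *
          s.toKer.Z L (s.toKer.GG R g D T x y) x y))) := le_mul_of_one_le_left (by positivity) h3
      _ = _ := by rw [hCd, Cm]; ring

end Pool.Agent.MP_114209_co.H79

namespace Pool.Agent.MP_114209_co.H79

open Finset

variable {V : Type} [Fintype V]

namespace Ker

variable {K : Ker V} {L : ℕ} {R η e T : ℝ}

theorem k4c4_pre (hC : K.Calm L R η e T) {D : ℝ} (hD : 0 < D) (x z : V) :
    ∑ p ∈ lists V L, ind (lst x p = z ∧ D / 4 ≤ K.P p.dropLast ∧ K.P p.dropLast < T ∧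
      K.fwd R x p.dropLast) * pw K.Q x p ≤ Th η D * K.W z ^ 40 := by
  refine (sum_lists_snoc_le L _ fun l =>
    mul_nonneg (ind_nonneg _) (pw_nonneg K.Q0 _ _)).trans ?_
  rw [ind_not (fun h => by have := h.2.1; simp only [List.dropLast_nil, P_nil] at this; linarith only [hD, this]), zero_mul, zero_add]
  refine le_trans (le_of_eq ?_) (th_f hC hD x z)
  rw [← sum_ind_eq z fun u => K.Z L (fun l => D / 4 ≤ K.P l ∧ K.P l < T ∧ K.fwd R x l) x u]
  refine sum_congr rfl fun u _ => ?_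
  rw [Z, mul_sum]
  refine sum_congr rfl fun l _ => ?_
  rw [lst_snoc, pw_snoc, List.dropLast_concat, ind_and, ind_congr (eq_comm (a := u)), mul_assoc]

theorem k4c4_cut (hR : 1 ≤ R) {g D : ℝ} (hD : 0 < D) {x y : V} {p r : List V}
    (hG : K.GG R g D T x y (p ++ r)) (h4 : D / 4 ≤ K.P p.dropLast) :
    K.W (lst x p) ≤ R * (K.W y + K.P r) ∧ K.P p.dropLast < T ∧ K.fwd R x p.dropLast ∧
      K.W y + K.P r ≤ 2 * R * (K.W y + K.P r.tail) ∧ K.P r.tail < T ∧ K.bwd R y r.tail := by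
  obtain ⟨-, hT, -, hf, hb⟩ := hG
  have hR0 : 0 ≤ R := by linarith only [hR]
  have hy := K.Wpos y
  rcases List.eq_nil_or_concat p with rfl | ⟨p0, z, rfl⟩
  · simp only [List.dropLast_nil, P_nil] at h4; linarith only [hD, h4]
  simp only [List.concat_eq_append, List.dropLast_concat, lst_snoc] at *
  have hz := K.Wpos z
  have hp := K.P_nonneg p0
  have e1 : p0 ++ [z] ++ r = p0 ++ z :: r := by simp
  have h1 : K.W z ≤ R * (K.W y + K.P r) := K.bwd_le hR0 (e1 ▸ hb)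
  have h2 : K.fwd R x p0 := K.fwd_left (e1 ▸ hf)
  simp only [P_append, P_cons, P_nil] at hT
  cases r with
  | nil =>
    refine ⟨h1, by simp at hT; linarith only [hz, hT], h2, ?_, by simp at hT ⊢; linarith, K.bwd_right hb⟩
    simp only [List.tail_nil, P_nil, add_zero]; nlinarith only [hR, hy]
  | cons t r =>
    have hr := K.P_nonneg r
    have ht := K.Wpos t
    have h3 : K.W t ≤ R * (K.W y + K.P r) := K.bwd_le hR0 hb
    have e2 : p0 ++ [z] ++ t :: r = (p0 ++ [z] ++ [t]) ++ r := by simp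
    simp only [P_cons, List.tail_cons] at hT ⊢
    exact ⟨by simpa using h1, by linarith, h2, by nlinarith only [hR, hy, hr, h3], by linarith, K.bwd_right (e2 ▸ hb)⟩

end Ker

variable {Dg : V → V → Prop} (s : Sys Dg) {L : ℕ} {R η e T : ℝ}

theorem k4c4_num {R sc w w' wy : ℝ} (hR : 1 ≤ R) (hsc : 0 < sc) (hw : 0 < w) (hw' : 0 < w')
    (h : w ≤ R * sc) : w' ^ 40 * (wy / (max (sc * w / w') (w' / R) / (2 * R))) ^ 40 ≤
      wy ^ 40 * (2 * R) ^ 40 * (R ^ 40 * (w / sc) ^ 2 * ph (w' / w)) := by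
  have hR0 : 0 < R := by linarith
  have hA : 0 < max (sc * w / w') (w' / R) := lt_max_of_lt_right (by positivity)
  have e1 : w' ^ 40 * (wy / (max (sc * w / w') (w' / R) / (2 * R))) ^ 40 =
      wy ^ 40 * (2 * R) ^ 40 * (w' / max (sc * w / w') (w' / R)) ^ 40 := by
    rw [← mul_pow, ← mul_pow, ← mul_pow]; congr 1; field_simp
  rw [e1]
  refine mul_le_mul_of_nonneg_left (le_trans (le_min ?_ ?_) (ph_bound hR (div_pos hw' hw)
    (div_pos hw hsc) ((div_le_iff₀ hsc).2 h))) (by positivity)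
  · refine pow_le_pow_left₀ (by positivity) ((div_le_iff₀ hA).2 ?_) _
    calc w' = R * (w' / R) := by field_simp
      _ ≤ _ := mul_le_mul_of_nonneg_left (le_max_right _ _) hR0.le
  · refine pow_le_pow_left₀ (by positivity) ((div_le_iff₀ hA).2 ?_) _
    calc w' = (w' / w) ^ 2 * (w / sc) * (sc * w / w') := by field_simp
      _ ≤ _ := mul_le_mul_of_nonneg_left (le_max_left _ _) (by positivity)

theorem k4c4_tot (hC : s.toKer.Calm L R η e T) {g D : ℝ} (hD : 0 < D) (x y z u : V) {sc : ℝ}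
    (hsc : 0 < sc) (hz : s.W z ≤ R * sc) :
    ∑ b ∈ lists V L ×ˢ lists V L, ind (sc * s.W z ≤ (s.W y + s.toKer.P b.2) * s.W (lst x b.1)) *
      (ind (b.1.length + b.2.length ≤ L) * (ind (s.toKer.GG R g D T x y (b.1 ++ b.2)) *
        (ind (D / 4 ≤ s.toKer.P b.1.dropLast) * (pw s.Q x b.1 * sw s.Q b.2 y))) *
        s.m (lst x b.1) (hd b.2 y) u) ≤
      Th η D * s.W y ^ 40 * (5 * 4 ^ 40 * (2 * R) ^ 40 * R ^ 40) * (s.W z / sc) ^ 2 *
        ∑ z', ph (s.W z' / s.W z) * ∑ t', s.m z' t' u := by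
  have hR := hC.R1
  have hR0 : 0 < R := by linarith
  have hTh : 0 ≤ Th η D := by have := hC.η0; unfold Th; positivity
  set A : V → ℝ := fun z' => max (sc * s.W z / s.W z') (s.W z' / R) / (2 * R) with hA
  have hA0 : ∀ z', 0 < A z' := fun z' => by
    have := s.toKer.Wpos z'
    exact div_pos (lt_max_of_lt_right (by positivity)) (by positivity)
  set f : V → List V → ℝ := fun z' p => ind (lst x p = z' ∧ D / 4 ≤ s.toKer.P p.dropLast ∧
    s.toKer.P p.dropLast < T ∧ s.toKer.fwd R x p.dropLast) * pw s.Q x p with hf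
  set h : V → V → List V → ℝ := fun z' t' r => ind (hd r y = t' ∧
    A z' ≤ s.W y + s.toKer.P r.tail ∧ s.toKer.P r.tail < T ∧ s.toKer.bwd R y r.tail) *
      sw s.Q r y with hh
  have f0 : ∀ z' p, 0 ≤ f z' p := fun _ _ => mul_nonneg (ind_nonneg _) (pw_nonneg s.Q0 _ _)
  have h0 : ∀ z' t' r, 0 ≤ h z' t' r := fun _ _ _ =>
    mul_nonneg (ind_nonneg _) (sw_nonneg s.Q0 _ _)
  have F0 : ∀ z' t' p r, 0 ≤ f z' p * h z' t' r * s.m z' t' u := fun _ _ _ _ =>
    mul_nonneg (mul_nonneg (f0 _ _) (h0 _ _ _)) (s.m0 _ _ _)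
  calc _ ≤ ∑ b ∈ lists V L ×ˢ lists V L, ∑ z', ∑ t', f z' b.1 * h z' t' b.2 * s.m z' t' u := by
        refine sum_le_sum fun b _ => ?_
        refine le_trans ?_ (single_le_sum (f := fun z' => ∑ t', f z' b.1 * h z' t' b.2 *
          s.m z' t' u) (fun z' _ => sum_nonneg fun t' _ => F0 _ _ _ _) (mem_univ (lst x b.1)))
        refine le_trans ?_ (single_le_sum (f := fun t' => f (lst x b.1) b.1 *
          h (lst x b.1) t' b.2 * s.m (lst x b.1) t' u) (fun t' _ => F0 _ _ _ _)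
          (mem_univ (hd b.2 y)))
        rw [← mul_assoc]
        refine mul_le_mul_of_nonneg_right ?_ (s.m0 _ _ _)
        simp only [hf, hh]
        rw [mul_mul_mul_comm, ← ind_and, ← mul_assoc, ← mul_assoc, ← mul_assoc, ← ind_and,
          ← ind_and, ← ind_and]
        refine mul_le_mul_of_nonneg_right (ind_mono fun ⟨⟨⟨hk, _⟩, hG⟩, h4⟩ => ?_)
          (mul_nonneg (pw_nonneg s.Q0 _ _) (sw_nonneg s.Q0 _ _))
        obtain ⟨a1, a2, a3, a4, a5, a6⟩ := Ker.k4c4_cut hR hD hG h4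
        refine ⟨⟨trivial, h4, a2, a3⟩, trivial, ?_, a5, a6⟩
        have hw := s.toKer.Wpos (lst x b.1)
        rw [hA, div_le_iff₀ (by positivity), mul_comm _ (2 * R)]
        refine le_trans (max_le ?_ ?_) a4
        · rwa [div_le_iff₀ hw]
        · rwa [div_le_iff₀ hR0, mul_comm]
    _ = ∑ z', ∑ t', (∑ p ∈ lists V L, f z' p) * (∑ r ∈ lists V L, h z' t' r) * s.m z' t' u := by
        rw [sum_comm]
        refine sum_congr rfl fun z' _ => ?_
        rw [sum_comm]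
        refine sum_congr rfl fun t' _ => ?_
        rw [sum_mul_sum, sum_product, sum_mul]
        simp only [sum_mul]
    _ ≤ _ := by
        rw [mul_sum]
        refine sum_le_sum fun z' _ => ?_
        rw [← mul_assoc, mul_sum]
        refine sum_le_sum fun t' _ => mul_le_mul_of_nonneg_right ?_ (s.m0 _ _ _)
        have hw := s.toKer.Wpos z'
        refine (mul_le_mul (Ker.k4c4_pre hC hD x z') (Ker.sufbig hC t' y (A z') (hA0 z'))
          (sum_nonneg fun r _ => h0 _ _ _) (by positivity)).trans ?_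
        have := mul_le_mul_of_nonneg_left (k4c4_num (wy := s.W y) hR hsc (s.toKer.Wpos z) hw hz)
          (show 0 ≤ Th η D * (5 * 4 ^ 40) by positivity)
        refine le_trans (le_of_eq ?_) (this.trans (le_of_eq ?_))
        · simp only [hA]; ring
        · ring

theorem Sys.mid2 (hC : s.toKer.Calm L R η e T) {g D : ℝ} (hD : 0 < D) (x y : V) (φ : V → ℝ)
    (hφ : ∑ u, φ u ^ 2 ≤ 1) {δ : ℝ} (hδ0 : 0 ≤ δ)
    (hδ : Cm R * s.eps * (Th η D * s.W y ^ 40) * s.toKer.Z L (s.toKer.GG R g D T x y) x y ≤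
      δ ^ 2) :
    ∑ l ∈ lists V L, ind (s.toKer.GG R g D T x y l) * sp2 (fun p r =>
      ind (D / 4 ≤ s.toKer.P p.dropLast) *
        (pw s.Q x p * s.c φ (lst x p) (hd r y) * sw s.Q r y)) l ≤ δ := by
  have hR := hC.R1
  have hTh : 0 ≤ Th η D := by have := hC.η0; unfold Th; positivity
  have hy := s.toKer.Wpos y
  have he := s.eps0
  set C : ℝ := Th η D * s.W y ^ 40 * (5 * 4 ^ 40 * (2 * R) ^ 40 * R ^ 40) with hCd
  have hC0 : 0 ≤ C := by positivity
  have key : ∀ G : List V → List V → ℝ,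
      ∑ l ∈ lists V L, ind (s.toKer.GG R g D T x y l) * sp2 G l =
        ∑ a ∈ lists V L ×ˢ lists V L, ind (a.1.length + a.2.length ≤ L) *
          (ind (s.toKer.GG R g D T x y (a.1 ++ a.2)) * G a.1 a.2) := fun G => by
    rw [sum_product, ← sum_sp2 L fun p r => ind (s.toKer.GG R g D T x y (p ++ r)) * G p r]
    refine sum_congr rfl fun l _ => ?_
    rw [mul_sp2]
    exact sp2_congr fun p r e => by rw [e]
  have c0 : ∀ a : List V × List V, 0 ≤ ind (a.1.length + a.2.length ≤ L) *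
      (ind (s.toKer.GG R g D T x y (a.1 ++ a.2)) * (ind (D / 4 ≤ s.toKer.P a.1.dropLast) *
        (pw s.Q x a.1 * sw s.Q a.2 y))) := fun a =>
    mul_nonneg (ind_nonneg _) (mul_nonneg (ind_nonneg _) (mul_nonneg (ind_nonneg _)
      (mul_nonneg (pw_nonneg s.Q0 _ _) (sw_nonneg s.Q0 _ _))))
  have main := charge' (lists V L ×ˢ lists V L) (fun a => ind (a.1.length + a.2.length ≤ L) *
      (ind (s.toKer.GG R g D T x y (a.1 ++ a.2)) * (ind (D / 4 ≤ s.toKer.P a.1.dropLast) *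
        (pw s.Q x a.1 * sw s.Q a.2 y))))
    (fun a => (s.W y + s.toKer.P a.2) * s.W (lst x a.1))
    (fun a => C * s.eps * ((s.W (lst x a.1) / (s.W y + s.toKer.P a.2)) ^ 2 *
      s.Q (lst x a.1) (hd a.2 y)))
    (fun a u => s.m (lst x a.1) (hd a.2 y) u) (fun a _ => c0 a) (fun a _ u => s.m0 _ _ _)
    (fun a _ ha => ?_) hδ0 ?_ φ hφ
  · rw [key]
    refine le_trans (le_of_eq (sum_congr rfl fun a _ => ?_)) main
    simp only [Sys.c]; ring
  · have hG : s.toKer.GG R g D T x y (a.1 ++ a.2) := by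
      by_contra h; simp [ind_not h] at ha
    have h4 : D / 4 ≤ s.toKer.P a.1.dropLast := by
      by_contra h; simp [ind_not h] at ha
    have hsc : 0 < s.W y + s.toKer.P a.2 := by linarith only [s.toKer.P_nonneg a.2, hy]
    refine (sum_le_sum fun u _ => mul_le_mul_of_nonneg_left
      (k4c4_tot s hC hD x y (lst x a.1) u hsc (Ker.k4c4_cut hR hD hG h4).1) (s.m0 _ _ _)).trans ?_
    have := mul_le_mul_of_nonneg_left (s.M3 (lst x a.1) (hd a.2 y))
      (mul_nonneg hC0 (sq_nonneg (s.W (lst x a.1) / (s.W y + s.toKer.P a.2))))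
    refine le_trans (le_of_eq ?_) (this.trans (le_of_eq (by ring)))
    rw [mul_sum]
    exact sum_congr rfl fun u _ => by rw [hCd]; ring
  · refine le_trans ?_ hδ
    have h1 := key fun p r => qw s.Q x (p ++ r) y * (ind (D / 4 ≤ s.toKer.P p.dropLast) *
      (s.W (lst x p) / (s.W y + s.toKer.P r)) ^ 2)
    have h2 : ∑ l ∈ lists V L, ind (s.toKer.GG R g D T x y l) * sp2 (fun p r =>
        qw s.Q x (p ++ r) y * (ind (D / 4 ≤ s.toKer.P p.dropLast) *
          (s.W (lst x p) / (s.W y + s.toKer.P r)) ^ 2)) l ≤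
        R ^ 2 * s.toKer.Z L (s.toKer.GG R g D T x y) x y := by
      rw [Ker.Z, mul_sum]
      refine sum_le_sum fun l _ => ?_
      by_cases hG : s.toKer.GG R g D T x y l
      · rw [ind_of hG, one_mul, one_mul, mul_comm, sp2_congr (G' := fun p r => qw s.Q x l y *
          (ind (D / 4 ≤ s.toKer.P p.dropLast) * (s.W (lst x p) / (s.W y + s.toKer.P r)) ^ 2))
          (fun p r e => by rw [e]), ← mul_sp2]
        refine mul_le_mul_of_nonneg_left ?_ (s.toKer.qw0 _ _ _)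
        rw [sp2_left, ind_not (by simp only [List.dropLast_nil, Ker.P_nil, not_le, Nat.ofNat_pos, div_pos_iff_of_pos_right]; linarith only [hD]), zero_mul, zero_add]
        refine le_trans ?_ hG.2.2.2.2
        rw [sp3_fs_rev]
        refine sp3_mono fun p z r _ => ?_
        rw [lst_snoc]
        exact mul_le_of_le_one_left (sq_nonneg _) (ind_le_one _)
      · simp [ind_not hG]
    have hZ := s.toKer.Z_nonneg L (s.toKer.GG R g D T x y) x y
    rw [h1] at h2
    calc _ = 2 * (C * s.eps * ∑ a ∈ lists V L ×ˢ lists V L, ind (a.1.length + a.2.length ≤ L) *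
          (ind (s.toKer.GG R g D T x y (a.1 ++ a.2)) * (qw s.Q x (a.1 ++ a.2) y *
            (ind (D / 4 ≤ s.toKer.P a.1.dropLast) *
              (s.W (lst x a.1) / (s.W y + s.toKer.P a.2)) ^ 2)))) := by
          rw [mul_sum (a := C * s.eps)]
          congr 1
          exact sum_congr rfl fun a _ => by rw [qw_split]; ring
      _ ≤ 2 * (C * s.eps * ((1 + R ^ 2) * s.toKer.Z L (s.toKer.GG R g D T x y) x y)) := by
          refine mul_le_mul_of_nonneg_left (mul_le_mul_of_nonneg_left (h2.trans ?_)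
            (mul_nonneg hC0 he)) (by norm_num)
          exact mul_le_mul_of_nonneg_right (by linarith only []) hZ
      _ = _ := by rw [hCd, Cm]; ring

end Pool.Agent.MP_114209_co.H79

namespace Pool.Agent.MP_114209_co.H79

open Finset

variable {V : Type} [Fintype V]

namespace Ker

variable {K : Ker V} {L : ℕ} {R η e T : ℝ}

end Ker

variable {Dg : V → V → Prop} (s : Sys Dg) {L : ℕ} {R η e T : ℝ}

omit [Fintype V] in
theorem k4c5_drop {W : V → ℝ} {c : ℝ} (hc : 0 ≤ c) : ∀ p : List V, (∀ z ∈ p, W z ≤ c) →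
    ls W p ≤ ls W p.dropLast + c ∧ ls W p ≤ ls W p.tail + c := fun p h => by
  constructor
  · rcases List.eq_nil_or_concat p with rfl | ⟨q, z, rfl⟩
    · simpa only [ls_nil, List.dropLast_nil, zero_add] using hc
    · simpa using h z (by simp)
  · cases p with
    | nil => simpa only [ls_nil, List.tail_nil, zero_add] using hc
    | cons z q => simpa [add_comm] using h z (by simp)

theorem Sys.link (hC : s.toKer.Calm L R η e T) {be g D ζ tol d : ℝ}
    (hS : s.toKer.Small L R T be) (hS' : s.toKer.rev.Small L R T be) (hbe : 0 ≤ be) (hD : 0 < D)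
    (hg : 4 * g ≤ D) (hd : 0 ≤ d) (hζ : 0 ≤ ζ) (htol0 : 0 ≤ tol) (htol : Th η D ≤ tol * ζ)
    (h1 : 2 * be * R ^ 2 * tol ≤ (d / 4) ^ 2) (h2 : Cm R * s.eps * tol ≤ (d / 4) ^ 2) (x y : V)
    (h : ζ * s.W y ^ 40 < s.toKer.Z L (s.toKer.GG R g D T x y) x y) : Link Dg x y d := by
  intro φ φ0 hφ
  set K := s.toKer with hK
  set Z := K.Z L (K.GG R g D T x y) x y with hZ
  have wy := pow_pos (K.Wpos y) 40
  have Z0 : 0 < Z := lt_of_le_of_lt (by positivity) h
  have t1 : Th η D * K.W y ^ 40 ≤ tol * Z := by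
    have := mul_le_mul_of_nonneg_right htol wy.le
    have := mul_le_mul_of_nonneg_left h.le htol0
    linarith
  have key : ∀ c, 0 ≤ c → c * tol ≤ (d / 4) ^ 2 →
      c * (Th η D * K.W y ^ 40) * Z ≤ (d / 4 * Z) ^ 2 := fun c c0 hc => by
    have a1 := mul_le_mul_of_nonneg_right (mul_le_mul_of_nonneg_left t1 c0) Z0.le
    have a2 := mul_le_mul_of_nonneg_right hc (mul_pos Z0 Z0).le
    linarith only [a1, a2]
  have δ0 : 0 ≤ d / 4 * Z := by positivity
  have R1 := hC.R1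
  have k1 := key _ (by positivity) h1
  have k2 := key _ (mul_nonneg (by unfold Cm; positivity) s.eps0) h2
  have r1 := Ker.rst1 hC hS hbe hD x y φ hφ δ0 k1
  have r2 := Ker.rst2 hC hS' hbe hD x y φ hφ δ0 k1
  have m1 := s.mid1 hC hD x y φ hφ δ0 k2
  have m2 := s.mid2 hC hD x y φ hφ δ0 k2
  rw [← hK] at m1 m2
  have c0 := s.c_nonneg φ0
  obtain ⟨l, -, hp, hl⟩ := exists_le_avg (lists V L)
    (fun l => ind (K.GG R g D T x y l) * qw K.Q x l y)
    (fun l => (ls φ l * qw K.Q x l y + qm K.Q (s.c φ) x l y) / qw K.Q x l y)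
    (fun l _ => mul_nonneg (ind_nonneg _) (K.qw0 x l y)) Z0 (d := d) (by
      refine le_trans ?_ ((add_le_add (add_le_add r1 r2) (add_le_add m1 m2)).trans
        (le_of_eq (by rw [hZ, Ker.Z]; ring)))
      simp only [← sum_add_distrib]
      refine sum_le_sum fun l _ => ?_
      by_cases hl : K.GG R g D T x y l
      swap
      · simp only [ind_not hl, zero_mul, add_zero, le_refl]
      simp only [ind_of hl, one_mul]
      obtain ⟨a1, -, a3, -⟩ := hl
      have q0 := K.qw0 x l y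
      have b0 : qw K.Q x l y * ((ls φ l * qw K.Q x l y + qm K.Q (s.c φ) x l y) / qw K.Q x l y) ≤
          qw K.Q x l y * ls φ l + qm K.Q (s.c φ) x l y := by
        rcases q0.eq_or_lt with e | e
        · rw [← e]; simpa only [mul_zero, zero_add, div_zero, zero_mul] using qm_nonneg K.Q0 c0 x l y
        · exact le_of_eq (by field_simp)
      refine b0.trans (add_le_add ?_ ?_)
      · rw [← mul_add, ← sp3_add, ← sp3_ls]
        refine mul_le_mul_of_nonneg_left (sp3_mono fun p z r e => ?_) q0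
        subst e
        have := a3 z (by simp)
        rw [Ker.P_append, Ker.P_cons] at a1
        rw [← add_mul]
        refine le_mul_of_one_le_left (φ0 z) ?_
        by_cases hr : D / 4 ≤ K.P r
        · rw [ind_of hr]; linarith only [ind_nonneg (D / 4 ≤ K.P p)]
        · rw [ind_of (p := D / 4 ≤ K.P p) (by linarith only [hD, hg, a1, this, hr])]; linarith only [ind_nonneg (D / 4 ≤ K.P r)]
      · rw [← sp2_add, qm_eq]
        refine sp2_mono fun p r e => ?_
        subst e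
        rw [Ker.P_append] at a1
        have d1 := (k4c5_drop (W := K.W) (c := D / 4) (by positivity) p
          fun z hz => by linarith only [a3 z (by simp [hz]), hg]).1
        have d2 := (k4c5_drop (W := K.W) (c := D / 4) (by positivity) r
          fun z hz => by linarith only [a3 z (by simp [hz]), hg]).2
        rw [← add_mul]
        refine le_mul_of_one_le_left (mul_nonneg (mul_nonneg (pw_nonneg K.Q0 _ _) (c0 _ _))
          (sw_nonneg K.Q0 _ _)) ?_
        unfold Ker.P at a1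
        by_cases hr : D / 4 ≤ K.P r.tail
        · rw [ind_of hr]; linarith only [ind_nonneg (D / 4 ≤ K.P p.dropLast)]
        · rw [ind_of (p := D / 4 ≤ K.P p.dropLast) (by unfold Ker.P at hr ⊢; linarith only [a1, d1, d2, hr])]
          linarith only [ind_nonneg (D / 4 ≤ K.P r.tail)])
  have q : 0 < qw K.Q x l y := pos_of_mul_pos_right hp (ind_nonneg _)
  obtain ⟨l', a, b⟩ := s.walk φ0 x l y q
  rw [div_le_iff₀ q] at hl
  exact ⟨l', a, le_of_mul_le_mul_right (b.trans hl) q⟩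

end Pool.Agent.MP_114209_co.H79

/-! Section 4: a violation gives linked vertices. -/

namespace Pool.Agent.MP_114209_co.H79

open Finset

theorem k4h_small (a b : ℝ) (ha : 0 < a) (hb : 0 ≤ b) : ∃ e : ℝ, 0 < e ∧ e * b ≤ a := by
  refine ⟨a / (b + 1), by positivity, ?_⟩
  rw [div_mul_eq_mul_div, div_le_iff₀ (by positivity)]
  linarith only [ha]

theorem consts (d R N tol : ℝ) (hd : 0 < d) (hR : 1 ≤ R) (hN : 1 ≤ N) (htol : 0 ≤ tol) :
    ∃ η r be e1 : ℝ, 0 < η ∧ η ≤ 1 / 800 ^ 42 ∧ 0 < r ∧ r ≤ 1 ∧ 0 ≤ be ∧ 0 < e1 ∧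
      2 * be * R ^ 2 * tol ≤ 1 ∧ 2 * be * R ^ 2 * tol ≤ (d / 4) ^ 2 ∧
      Cm R * e1 * tol ≤ (d / 4) ^ 2 ∧
      8 * r ^ 38 + 24 * e1 * (2 * R) ^ 38 / r ^ 41 + 2 * 4 ^ 40 * η * R ^ 38 ≤ be ∧
      e1 * (4 + 4 * N) * ((2 * N + 1) ^ 2 + (2 * N + 1)) * N ^ 40 ≤ η / 2 := by
  have hR0 : 0 < R := by linarith
  have hN0 : 0 < N := by linarith
  have hd2 : 0 < (d / 4) ^ 2 := by positivity
  obtain ⟨be, hbe, hb⟩ := k4h_small (min 1 ((d / 4) ^ 2)) (2 * R ^ 2 * tol)
    (lt_min one_pos hd2) (by positivity)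
  obtain ⟨η', hη', h1⟩ := k4h_small (be / 3) (2 * 4 ^ 40 * R ^ 38) (by positivity) (by positivity)
  have hη : 0 < min η' (1 / 800 ^ 42) := lt_min hη' (by positivity)
  have hr : 0 < min 1 (be / 24) := lt_min one_pos (by positivity)
  have hr1 : min 1 (be / 24) ≤ 1 := min_le_left _ _
  have hr2 : min 1 (be / 24) ≤ be / 24 := min_le_right _ _
  have hη1 : min η' (1 / 800 ^ 42) ≤ η' := min_le_left _ _
  have hη2 : min η' (1 / 800 ^ 42) ≤ 1 / 800 ^ 42 := min_le_right _ _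
  generalize min 1 (be / 24) = r at hr hr1 hr2
  generalize min η' (1 / 800 ^ 42) = η at hη hη1 hη2
  have hCm : 0 ≤ Cm R := by unfold Cm; positivity
  obtain ⟨a1, ha1, h2⟩ := k4h_small (be / 3) (24 * (2 * R) ^ 38 / r ^ 41) (by positivity)
    (by positivity)
  obtain ⟨a2, ha2, h3⟩ := k4h_small ((d / 4) ^ 2) (Cm R * tol) hd2 (by positivity)
  obtain ⟨a3, ha3, h4⟩ := k4h_small (η / 2)
    ((4 + 4 * N) * ((2 * N + 1) ^ 2 + (2 * N + 1)) * N ^ 40) (by positivity) (by positivity)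
  have he : 0 < min a1 (min a2 a3) := lt_min ha1 (lt_min ha2 ha3)
  have he1 : min a1 (min a2 a3) ≤ a1 := min_le_left _ _
  have he2 : min a1 (min a2 a3) ≤ a2 := (min_le_right _ _).trans (min_le_left _ _)
  have he3 : min a1 (min a2 a3) ≤ a3 := (min_le_right _ _).trans (min_le_right _ _)
  generalize min a1 (min a2 a3) = e at he he1 he2 he3
  have hb' : 2 * be * R ^ 2 * tol = be * (2 * R ^ 2 * tol) := by ring
  refine ⟨η, r, be, e, hη, hη2, hr, hr1, hbe.le, he, ?_, ?_, ?_, ?_, ?_⟩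
  · rw [hb']; exact hb.trans (min_le_left _ _)
  · rw [hb']; exact hb.trans (min_le_right _ _)
  · calc Cm R * e * tol = e * (Cm R * tol) := by ring
      _ ≤ a2 * (Cm R * tol) := by gcongr
      _ ≤ _ := h3
  · have p1 : r ^ 38 ≤ r := by
      calc r ^ 38 ≤ r ^ 1 := pow_le_pow_of_le_one hr.le hr1 (by norm_num)
        _ = r := pow_one r
    have p2 : 24 * e * (2 * R) ^ 38 / r ^ 41 ≤ be / 3 := by
      calc 24 * e * (2 * R) ^ 38 / r ^ 41 = e * (24 * (2 * R) ^ 38 / r ^ 41) := by ring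
        _ ≤ a1 * (24 * (2 * R) ^ 38 / r ^ 41) := by gcongr
        _ ≤ _ := h2
    have p3 : 2 * 4 ^ 40 * η * R ^ 38 ≤ be / 3 := by
      calc 2 * 4 ^ 40 * η * R ^ 38 = η * (2 * 4 ^ 40 * R ^ 38) := by ring
        _ ≤ η' * (2 * 4 ^ 40 * R ^ 38) := by gcongr
        _ ≤ _ := h1
    linarith only [hr2, p1, p2, p3]
  · calc e * (4 + 4 * N) * ((2 * N + 1) ^ 2 + (2 * N + 1)) * N ^ 40
        = e * ((4 + 4 * N) * ((2 * N + 1) ^ 2 + (2 * N + 1)) * N ^ 40) := by ring
      _ ≤ a3 * ((4 + 4 * N) * ((2 * N + 1) ^ 2 + (2 * N + 1)) * N ^ 40) := by gcongr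
      _ ≤ _ := h4

theorem k4h_th (R N c T η : ℝ) (hT : 0 < T) (hN : 0 < N) (hc : 0 < c) :
    Th η (4 * (T / N)) = 2 * 2 ^ 40 * N ^ 40 * c * (η / (T ^ 40 * c)) := by
  unfold Th
  have h : 4 / (4 * (T / N)) = N / T := by field_simp
  rw [h, div_pow]
  field_simp

/-- a forward violation of a calm kernel gives points with heavy good kernels -/
theorem k4h_core {V : Type} [Fintype V] (K : Ker V) (L n R : ℕ) (N η e T be : ℝ)
    (hR : (R : ℝ) = 512 * ((n : ℝ) + 1) ^ 2) (hN : N = 128 * R * (n + 1)) (hT : 0 < T)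
    (hC : K.Calm L R η e T) (hS : K.Small L R T be) (hS' : K.rev.Small L R T be) (hbe : 0 ≤ be)
    (h1 : 2 * be * (R : ℝ) ^ 2 *
      (2 * 2 ^ 40 * N ^ 40 * (12800 * (R : ℝ) ^ 2 * ((n : ℝ) + 1) ^ 3)) ≤ 1)
    (hs : e * (4 + 4 * N) * ((2 * N + 1) ^ 2 + (2 * N + 1)) * N ^ 40 ≤ η / 2)
    (hv : K.Vf L R η T) :
    ∃ t : Fin n → V, Function.Injective t ∧ ∀ j k, j < k →
      η / (T ^ 40 * (12800 * (R : ℝ) ^ 2 * ((n : ℝ) + 1) ^ 3)) * K.W (t k) ^ 40 <
        K.Z L (K.GG R (T / N) (4 * (T / N)) T (t j) (t k)) (t j) (t k) := by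
  have hn : (0 : ℝ) ≤ n := Nat.cast_nonneg n
  have hR1 : (1 : ℝ) ≤ R := hC.R1
  have hR0 : (0 : ℝ) < R := by linarith only [hR1]
  have hN0 : 0 < N := by rw [hN]; positivity
  have hN4 : 4 * (R : ℝ) ≤ N := by rw [hN]; nlinarith only []
  have hη := hC.η0
  have hc : 0 < 12800 * (R : ℝ) ^ 2 * ((n : ℝ) + 1) ^ 3 := by positivity
  have hζ : 0 ≤ η / (T ^ 40 * (12800 * (R : ℝ) ^ 2 * ((n : ℝ) + 1) ^ 3)) := by positivity
  obtain ⟨x, y, a, ha, hF⟩ := K.partA R (by exact_mod_cast hR1) L e η T N hC.bc hC.e0 hT hN4 hs hv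
  refine K.partB L n R T (T / N) a _ hR.ge hT (by rw [hN]) ha hζ (fun u v => ?_) x y ?_
  · refine (Ker.ret hC hS hS' hbe (D := 4 * (T / N)) (by positivity) le_rfl u v).trans ?_
    rw [k4h_th R N _ T η hT hN0 hc]
    have hW : 0 ≤ K.W v ^ 40 := (pow_pos (K.Wpos v) _).le
    generalize η / (T ^ 40 * (12800 * (R : ℝ) ^ 2 * ((n : ℝ) + 1) ^ 3)) = ζ at hζ
    generalize 2 * 2 ^ 40 * N ^ 40 * (12800 * (R : ℝ) ^ 2 * ((n : ℝ) + 1) ^ 3) = tol at h1
    calc 2 * be * (R : ℝ) ^ 2 * (tol * ζ * K.W v ^ 40)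
        = 2 * be * (R : ℝ) ^ 2 * tol * (ζ * K.W v ^ 40) := by ring
      _ ≤ 1 * (ζ * K.W v ^ 40) := by gcongr
      _ = _ := one_mul _
  · refine lt_of_eq_of_lt ?_ hF
    rw [div_pow]
    field_simp
    ring

/-- `R = 512 (n+1)^2`, `N = 128 R (n+1)`, `tol = 2 * 2^40 * N^40 * 12800 * R^2 * (n+1)^3`; at the
least violated `T`: `g = T / N`, `D = 4 g`, `ζ = η / (T^40 * 12800 * R^2 * (n+1)^3)`; a backward
violation is handled by `partA`, `partB` for the reversed chain and `Fin.rev`. -/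
theorem partH (n : ℕ) (d : ℝ) (hd : 0 < d) : ∃ R η e1 : ℝ, 128 ≤ R ∧ 0 < η ∧ η ≤ 1 / 800 ^ 42 ∧
    0 < e1 ∧ ∀ (V : Type) [Fintype V] (D : V → V → Prop) (s : Sys D) (L : ℕ), s.e ≤ e1 →
      s.eps ≤ e1 → (∃ j : ℕ, s.toKer.Vf L R η (2 ^ j) ∨ s.toKer.rev.Vf L R η (2 ^ j)) →
      ∃ t : Fin n → V, Function.Injective t ∧ ∀ a b, a < b → Link D (t a) (t b) d := by
  classical
  obtain ⟨R, hR⟩ : ∃ R : ℕ, (R : ℝ) = 512 * ((n : ℝ) + 1) ^ 2 := ⟨512 * (n + 1) ^ 2, by push_cast; ring⟩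
  have hn : (0 : ℝ) ≤ n := Nat.cast_nonneg n
  have hR128 : (128 : ℝ) ≤ R := by rw [hR]; nlinarith
  have hR1 : (1 : ℝ) ≤ R := by linarith only [hR128]
  have hR0 : (0 : ℝ) < R := by linarith
  obtain ⟨N, hN⟩ : ∃ N : ℝ, N = 128 * R * (n + 1) := ⟨_, rfl⟩
  have hN1 : 1 ≤ N := by rw [hN]; nlinarith only [hR128]
  have hN0 : 0 < N := by linarith
  have hc : 0 < 12800 * (R : ℝ) ^ 2 * ((n : ℝ) + 1) ^ 3 := by positivity
  have htol : 0 ≤ 2 * 2 ^ 40 * N ^ 40 * (12800 * (R : ℝ) ^ 2 * ((n : ℝ) + 1) ^ 3) := by positivity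
  obtain ⟨η, r, be, e1, hη, hη1, hr, hr1, hbe, he1, c1, c2, c3, c4, c5⟩ :=
    consts d R N _ hd hR1 hN1 htol
  refine ⟨R, η, e1, hR128, hη, hη1, he1, fun V _ D s L hse hsp hex => ?_⟩
  have hv := Nat.find_spec hex
  have hmin : ∀ i : ℕ, (2 : ℝ) ^ i < 2 ^ Nat.find hex →
      ¬ (s.toKer.Vf L R η (2 ^ i) ∨ s.toKer.rev.Vf L R η (2 ^ i)) := fun i hi =>
    Nat.find_min hex ((pow_lt_pow_iff_right₀ (by norm_num : (1 : ℝ) < 2)).1 hi)
  have hT : (0 : ℝ) < 2 ^ Nat.find hex := by positivity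
  generalize (2 : ℝ) ^ Nat.find hex = T at hv hmin hT
  have he0 := s.e0
  have hC : s.toKer.Calm L R η s.e T :=
    { R1 := hR1
      η0 := hη.le
      η1 := hη1.trans (by norm_num)
      e0 := s.e0
      bc := s.bc L
      nf := s.toKer.nvsum L R η T hη.le fun i hi h => hmin i hi (Or.inl h)
      nb := s.toKer.nvb_of_rev
        (s.toKer.rev.nvsum L R η T hη.le fun i hi h => hmin i hi (Or.inr h)) }
  have c4' : 8 * r ^ 38 + 24 * s.e * (2 * (R : ℝ)) ^ 38 / r ^ 41 + 2 * 4 ^ 40 * η * (R : ℝ) ^ 38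
      ≤ be := le_trans (by gcongr) c4
  have c5' : s.e * (4 + 4 * N) * ((2 * N + 1) ^ 2 + (2 * N + 1)) * N ^ 40 ≤ η / 2 :=
    le_trans (by gcongr) c5
  have hCm : 0 ≤ Cm R := by unfold Cm; positivity
  have c3' : Cm R * s.eps * (2 * 2 ^ 40 * N ^ 40 * (12800 * (R : ℝ) ^ 2 * ((n : ℝ) + 1) ^ 3)) ≤
      (d / 4) ^ 2 := le_trans (by gcongr) c3
  have hS : s.toKer.Small L R T be := Ker.presmall hC hr hr1 c4'
  have hS' : s.toKer.rev.Small L R T be := Ker.presmall hC.rev hr hr1 c4'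
  have hζ : 0 ≤ η / (T ^ 40 * (12800 * (R : ℝ) ^ 2 * ((n : ℝ) + 1) ^ 3)) := by positivity
  have hlink := fun x y => s.link hC (g := T / N) (D := 4 * (T / N)) hS hS' hbe (by positivity)
    le_rfl hd.le hζ htol (k4h_th R N _ T η hT hN0 hc).le c2 c3' x y
  rcases hv with hv | hv
  · obtain ⟨t, ht, h⟩ := k4h_core s.toKer L n R N η s.e T be hR hN hT hC hS hS' hbe c1 c5' hv
    exact ⟨t, ht, fun a b hab => hlink _ _ (h a b hab)⟩
  · obtain ⟨t, ht, h⟩ := k4h_core s.toKer.rev L n R N η s.e T be hR hN hT hC.rev hS'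
      (by rw [Ker.rev_rev]; exact hS) hbe c1 c5' hv
    refine ⟨fun a => t a.rev, ht.comp Fin.rev_injective, fun a b hab => hlink _ _ ?_⟩
    have h' := h b.rev a.rev (Fin.rev_lt_rev.2 hab)
    have hf : (fun l : List V => s.toKer.rev.GG R (T / N) (4 * (T / N)) T (t b.rev) (t a.rev)
        l.reverse) = s.toKer.GG R (T / N) (4 * (T / N)) T (t a.rev) (t b.rev) :=
      funext fun l => propext (s.toKer.rev_GG _ _ _ _ _ _ l)
    rw [Ker.Z_rev, hf, Ker.rev_W, lt_div_iff₀ (pow_pos (s.toKer.Wpos _) _)] at h'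
    have hW := pow_pos (s.toKer.Wpos (t a.rev)) 40
    refine lt_of_mul_lt_mul_left ?_ hW.le
    refine lt_of_eq_of_lt ?_ h'
    ring

end Pool.Agent.MP_114209_co.H79
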